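import Pool.Agent.Helper8.Lie.P4Final
import Pool.Agent.Helper8.Lie.NumRest
import Pool.Agent.Helper8.Lie.Semisimple

/-!
Alternating forms in five and six variables on a symplectic space of dimension six.
-/

namespace Pool.Agent.Helper35.GPC

open Module
open Pool.Agent.Helper8 (Principal Symp Adapted Dual g6a g6b up6a wt6a up6b wt6b)

set_option linter.unusedSectionVars false

/-- the Gram matrix of a symplectic basis -/
def gg : Fin 6 → Fin 6 → ℤ := ![![0, 1, 0, 0, 0, 0], ![-1, 0, 0, 0, 0, 0],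
  ![0, 0, 0, 1, 0, 0], ![0, 0, -1, 0, 0, 0], ![0, 0, 0, 0, 0, 1],
  ![0, 0, 0, 0, -1, 0]]

/-- the partner of a basis vector -/
def tt : Fin 6 → Fin 6 := ![1, 0, 3, 2, 5, 4]

/-- the sum of the signed products over all arrangements -/
lemma gg_sum : ∑ π : Equiv.Perm (Fin 6), ((Equiv.Perm.sign π : ℤˣ) : ℤ) *
    (gg (π 0) (π 1) * (gg (π 2) (π 3) * gg (π 4) (π 5))) = 48 := by
  decide +kernel

section forms

variable {V : Type*} [AddCommGroup V] [Module ℂ V]

lemma alt_zero_of_sorted {a d : ℕ} (b : Basis (Fin d) ℂ V) (A : V [⋀^Fin a]→ₗ[ℂ] ℂ)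
    (h : ∀ y : Fin a → Fin d, StrictMono y → A (fun k => b (y k)) = 0) : A = 0 := by
  refine Basis.ext_alternating b (fun y hy => ?_)
  have hs : StrictMono (y ∘ Tuple.sort y) :=
    (Tuple.monotone_sort y).strictMono_of_injective (hy.comp (Equiv.injective _))
  have h1 := h _ hs
  have h2 := A.map_perm (fun k => b (y k)) (Tuple.sort y)
  have h3 : (fun k => b (y k)) ∘ (Tuple.sort y) = fun k => b ((y ∘ Tuple.sort y) k) := rfl
  rw [h3, h1] at h2
  rw [AlternatingMap.zero_apply]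
  rcases Int.units_eq_one_or (Equiv.Perm.sign (Tuple.sort y)) with h4 | h4
  · rw [h4, one_smul] at h2
    exact h2.symm
  · rw [h4, Units.neg_smul, one_smul] at h2
    exact (neg_eq_zero.mp h2.symm)

variable {ω : V →ₗ[ℂ] V →ₗ[ℂ] ℂ} {b : Basis (Fin 6) ℂ V}

/-- the dual family -/
noncomputable def cc (b : Basis (Fin 6) ℂ V) (i : Fin 6) : V := (gg i (tt i) : ℂ) • b (tt i)

lemma gg_rel (h : ∀ i j, ω (b i) (b j) = (gg i j : ℂ)) (i j : Fin 6) :
    ω (b i) (cc b j) = if i = j then 1 else 0 := by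
  rw [cc, map_smul, h, smul_eq_mul, ← Int.cast_mul]
  have h1 : ∀ i j : Fin 6, gg j (tt j) * gg i (tt j) = if i = j then 1 else 0 := by decide
  rw [h1]
  split_ifs <;> simp

lemma dual_cc (h : ∀ i j, ω (b i) (b j) = (gg i j : ℂ)) :
    Dual ω b (cc b) where
  d1 v := by
    conv_lhs => rw [← b.sum_repr v]
    refine Finset.sum_congr rfl fun i _ => ?_
    congr 1
    conv_rhs => rw [← b.sum_repr v]
    rw [map_sum, LinearMap.sum_apply, Finset.sum_eq_single i]
    · rw [map_smul, LinearMap.smul_apply, gg_rel h, if_pos rfl, smul_eq_mul, mul_one]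
    · intro j _ hj
      rw [map_smul, LinearMap.smul_apply, gg_rel h, if_neg hj, smul_zero]
    · intro h; exact absurd (Finset.mem_univ _) h
  d2 w := by
    have h1 : ∀ i, ω (b i) w • cc b i = ((gg i (tt i) : ℂ) * ω (b i) w) • b (tt i) := by
      intro i
      rw [cc, smul_smul, mul_comm]
    have h2 : ∀ i, (gg i (tt i) : ℂ) * ω (b i) w = b.repr w (tt i) := by
      intro i
      conv_lhs => rw [← b.sum_repr w]
      rw [map_sum, Finset.sum_eq_single (tt i)]
      · rw [map_smul, h, smul_eq_mul]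
        have h3 : ∀ i : Fin 6, gg i (tt i) * gg i (tt i) = 1 := by decide
        have h4 := congrArg (fun z : ℤ => (z : ℂ)) (h3 i)
        push_cast at h4
        linear_combination (b.repr w (tt i)) * h4
      · intro j _ hj
        rw [map_smul, h]
        have h3 : ∀ i j : Fin 6, j ≠ tt i → gg i j = 0 := by decide
        rw [h3 i j hj]
        simp
      · intro h; exact absurd (Finset.mem_univ _) h
    rw [Finset.sum_congr rfl fun i _ => (h1 i).trans (by rw [h2])]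
    conv_lhs => rw [← b.sum_repr w]
    have hinv : Function.Involutive tt := by unfold Function.Involutive; decide
    exact (Equiv.sum_comp (hinv.toPerm) (fun i => b.repr w i • b i)).symm
  d3 := gg_rel h

lemma vec5 {x : Fin 5 → V} : x = ![x 0, x 1, x 2, x 3, x 4] := by
  funext k
  fin_cases k <;> rfl

/-- an alternating form in five variables with vanishing contraction -/
theorem alt5_zero (A : V [⋀^Fin 5]→ₗ[ℂ] ℂ)
    (hc : ∀ x y z : V, ∑ i, A ![b i, cc b i, x, y, z] = 0) : A = 0 := by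
  have hsw : ∀ x y z u v : V, A ![y, x, z, u, v] = - A ![x, y, z, u, v] := by
    intro x y z u v
    have h1 := A.map_swap ![x, y, z, u, v] (show (0 : Fin 5) ≠ 1 by decide)
    rw [← h1]
    congr 1
    funext k
    fin_cases k <;> rfl
  have hsw2 : ∀ x y z u v : V, A ![x, z, y, u, v] = - A ![x, y, z, u, v] := by
    intro x y z u v
    have h1 := A.map_swap ![x, y, z, u, v] (show (1 : Fin 5) ≠ 2 by decide)
    rw [← h1]
    congr 1
    funext k
    fin_cases k <;> rfl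
  have hsm : ∀ (c : ℂ) (x y z u v : V), A ![x, c • y, z, u, v] = c * A ![x, y, z, u, v] := by
    intro c x y z u v
    have h1 := A.map_update_smul ![x, y, z, u, v] 1 c y
    have e1 : Function.update ![x, y, z, u, v] 1 (c • y) = ![x, c • y, z, u, v] := by
      funext k
      fin_cases k <;> rfl
    have e2 : Function.update ![x, y, z, u, v] 1 y = ![x, y, z, u, v] := by
      funext k
      fin_cases k <;> rfl
    rw [e1, e2] at h1
    exact h1
  have hz : ∀ (x : Fin 5 → V) (i j : Fin 5), i ≠ j → x i = x j → A x = 0 :=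
    fun x i j hij hx => A.map_eq_zero_of_eq x hx hij
  -- the contraction in terms of the three pairs
  have hp : ∀ x y z : V, A ![b 0, b 1, x, y, z] + A ![b 2, b 3, x, y, z] +
      A ![b 4, b 5, x, y, z] = 0 := by
    intro x y z
    have h1 := hc x y z
    rw [Fin.sum_univ_six] at h1
    simp only [cc, hsm] at h1
    have e0 : gg 0 (tt 0) = 1 := by decide
    have e1 : gg 1 (tt 1) = -1 := by decide
    have e2 : gg 2 (tt 2) = 1 := by decide
    have e3 : gg 3 (tt 3) = -1 := by decide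
    have e4 : gg 4 (tt 4) = 1 := by decide
    have e5 : gg 5 (tt 5) = -1 := by decide
    rw [e0, e1, e2, e3, e4, e5] at h1
    have t0 : tt 0 = 1 := by decide
    have t1 : tt 1 = 0 := by decide
    have t2 : tt 2 = 3 := by decide
    have t3 : tt 3 = 2 := by decide
    have t4 : tt 4 = 5 := by decide
    have t5 : tt 5 = 4 := by decide
    rw [t0, t1, t2, t3, t4, t5, hsw (b 0) (b 1), hsw (b 2) (b 3), hsw (b 4) (b 5)] at h1
    push_cast at h1
    linear_combination h1 / 2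
  refine alt_zero_of_sorted b A fun y hy => ?_
  have y01 : y 0 < y 1 := hy (by decide)
  have y12 : y 1 < y 2 := hy (by decide)
  have y23 : y 2 < y 3 := hy (by decide)
  have y34 : y 3 < y 4 := hy (by decide)
  have hcase : ∀ i j k l m : Fin 6, i < j → j < k → k < l → l < m →
      (i, j, k, l, m) ∈ ([(0, 1, 2, 3, 4), (0, 1, 2, 3, 5), (0, 1, 2, 4, 5), (0, 1, 3, 4, 5),
        (0, 2, 3, 4, 5), (1, 2, 3, 4, 5)] :
        List (Fin 6 × Fin 6 × Fin 6 × Fin 6 × Fin 6)) := by decide +kernel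
  have h1 := hcase _ _ _ _ _ y01 y12 y23 y34
  rw [vec5 (x := fun k => b (y k))]
  simp only [List.mem_cons, Prod.mk.injEq, List.not_mem_nil, or_false] at h1
  rcases h1 with ⟨e0, e1, e2, e3, e4⟩ | ⟨e0, e1, e2, e3, e4⟩ | ⟨e0, e1, e2, e3, e4⟩ |
    ⟨e0, e1, e2, e3, e4⟩ | ⟨e0, e1, e2, e3, e4⟩ | ⟨e0, e1, e2, e3, e4⟩ <;>
    rw [e0, e1, e2, e3, e4]
  · have h2 := hp (b 2) (b 3) (b 4)
    rw [hz ![b 2, b 3, b 2, b 3, b 4] 0 2 (by decide) rfl,
      hz ![b 4, b 5, b 2, b 3, b 4] 0 4 (by decide) rfl, add_zero, add_zero] at h2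
    exact h2
  · have h2 := hp (b 2) (b 3) (b 5)
    rw [hz ![b 2, b 3, b 2, b 3, b 5] 0 2 (by decide) rfl,
      hz ![b 4, b 5, b 2, b 3, b 5] 1 4 (by decide) rfl, add_zero, add_zero] at h2
    exact h2
  · have h2 := hp (b 2) (b 4) (b 5)
    rw [hz ![b 2, b 3, b 2, b 4, b 5] 0 2 (by decide) rfl,
      hz ![b 4, b 5, b 2, b 4, b 5] 0 3 (by decide) rfl, add_zero, add_zero] at h2
    exact h2
  · have h2 := hp (b 3) (b 4) (b 5)
    rw [hz ![b 2, b 3, b 3, b 4, b 5] 1 2 (by decide) rfl,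
      hz ![b 4, b 5, b 3, b 4, b 5] 0 3 (by decide) rfl, add_zero, add_zero] at h2
    exact h2
  · have h2 := hp (b 0) (b 4) (b 5)
    rw [hz ![b 0, b 1, b 0, b 4, b 5] 0 2 (by decide) rfl,
      hz ![b 4, b 5, b 0, b 4, b 5] 0 3 (by decide) rfl, add_zero, zero_add] at h2
    rw [hsw (b 2) (b 0), hsw2 (b 2) (b 3) (b 0), h2, neg_zero, neg_zero]
  · have h2 := hp (b 1) (b 4) (b 5)
    rw [hz ![b 0, b 1, b 1, b 4, b 5] 1 2 (by decide) rfl,
      hz ![b 4, b 5, b 1, b 4, b 5] 0 3 (by decide) rfl, add_zero, zero_add] at h2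
    rw [hsw (b 2) (b 1), hsw2 (b 2) (b 3) (b 1), h2, neg_zero, neg_zero]

/-- the cube of the symplectic form, as a sum over arrangements -/
noncomputable def cube (ω : V →ₗ[ℂ] V →ₗ[ℂ] ℂ) (x : Fin 6 → V) : ℂ :=
  ∑ π : Equiv.Perm (Fin 6), ((Equiv.Perm.sign π : ℤˣ) : ℤ) *
    (ω (x (π 0)) (x (π 1)) * (ω (x (π 2)) (x (π 3)) * ω (x (π 4)) (x (π 5))))

lemma fin6_cases (i : Fin 6) : i = 0 ∨ i = 1 ∨ i = 2 ∨ i = 3 ∨ i = 4 ∨ i = 5 := by
  revert i; decide

/-- the cube as a multilinear map -/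
noncomputable def cubeM (ω : V →ₗ[ℂ] V →ₗ[ℂ] ℂ) :
    MultilinearMap ℂ (fun _ : Fin 6 => V) ℂ where
  toFun x := ω (x 0) (x 1) * (ω (x 2) (x 3) * ω (x 4) (x 5))
  map_update_add' := by
    intro inst x i u v
    rw [Subsingleton.elim inst (instDecidableEqFin 6)]
    have hi := fin6_cases i
    rcases hi with rfl | rfl | rfl | rfl | rfl | rfl
    · show ω (u + v) (x 1) * _ = ω u (x 1) * _ + ω v (x 1) * _
      rw [map_add, LinearMap.add_apply, add_mul]; rfl
    · show ω (x 0) (u + v) * _ = ω (x 0) u * _ + ω (x 0) v * _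
      rw [map_add, add_mul]; rfl
    · show ω (x 0) (x 1) * (ω (u + v) (x 3) * ω (x 4) (x 5)) =
        ω (x 0) (x 1) * (ω u (x 3) * ω (x 4) (x 5)) + ω (x 0) (x 1) * (ω v (x 3) * ω (x 4) (x 5))
      rw [map_add, LinearMap.add_apply]; ring
    · show ω (x 0) (x 1) * (ω (x 2) (u + v) * ω (x 4) (x 5)) =
        ω (x 0) (x 1) * (ω (x 2) u * ω (x 4) (x 5)) + ω (x 0) (x 1) * (ω (x 2) v * ω (x 4) (x 5))
      rw [map_add]; ring
    · show ω (x 0) (x 1) * (ω (x 2) (x 3) * ω (u + v) (x 5)) =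
        ω (x 0) (x 1) * (ω (x 2) (x 3) * ω u (x 5)) + ω (x 0) (x 1) * (ω (x 2) (x 3) * ω v (x 5))
      rw [map_add, LinearMap.add_apply]; ring
    · show ω (x 0) (x 1) * (ω (x 2) (x 3) * ω (x 4) (u + v)) =
        ω (x 0) (x 1) * (ω (x 2) (x 3) * ω (x 4) u) + ω (x 0) (x 1) * (ω (x 2) (x 3) * ω (x 4) v)
      rw [map_add]; ring
  map_update_smul' := by
    intro inst x i c u
    rw [Subsingleton.elim inst (instDecidableEqFin 6)]
    have hi := fin6_cases i
    rcases hi with rfl | rfl | rfl | rfl | rfl | rfl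
    · show ω (c • u) (x 1) * (ω (x 2) (x 3) * ω (x 4) (x 5)) =
        c * (ω u (x 1) * (ω (x 2) (x 3) * ω (x 4) (x 5)))
      rw [map_smul, LinearMap.smul_apply, smul_eq_mul]; ring
    · show ω (x 0) (c • u) * (ω (x 2) (x 3) * ω (x 4) (x 5)) =
        c * (ω (x 0) u * (ω (x 2) (x 3) * ω (x 4) (x 5)))
      rw [map_smul, smul_eq_mul]; ring
    · show ω (x 0) (x 1) * (ω (c • u) (x 3) * ω (x 4) (x 5)) =
        c * (ω (x 0) (x 1) * (ω u (x 3) * ω (x 4) (x 5)))
      rw [map_smul, LinearMap.smul_apply, smul_eq_mul]; ring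
    · show ω (x 0) (x 1) * (ω (x 2) (c • u) * ω (x 4) (x 5)) =
        c * (ω (x 0) (x 1) * (ω (x 2) u * ω (x 4) (x 5)))
      rw [map_smul, smul_eq_mul]; ring
    · show ω (x 0) (x 1) * (ω (x 2) (x 3) * ω (c • u) (x 5)) =
        c * (ω (x 0) (x 1) * (ω (x 2) (x 3) * ω u (x 5)))
      rw [map_smul, LinearMap.smul_apply, smul_eq_mul]; ring
    · show ω (x 0) (x 1) * (ω (x 2) (x 3) * ω (x 4) (c • u)) =
        c * (ω (x 0) (x 1) * (ω (x 2) (x 3) * ω (x 4) u))
      rw [map_smul, smul_eq_mul]; ring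

lemma cube_eq (ω : V →ₗ[ℂ] V →ₗ[ℂ] ℂ) (x : Fin 6 → V) :
    MultilinearMap.alternatization (cubeM ω) x = cube ω x := by
  rw [MultilinearMap.alternatization_apply, cube]
  refine Finset.sum_congr rfl fun π _ => ?_
  show (Equiv.Perm.sign π) • (ω (x (π 0)) (x (π 1)) * (ω (x (π 2)) (x (π 3)) *
    ω (x (π 4)) (x (π 5)))) = _
  rcases Int.units_eq_one_or (Equiv.Perm.sign π) with h4 | h4
  · rw [h4, one_smul]; push_cast; ring
  · rw [h4, Units.neg_smul, one_smul]; push_cast; ring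

lemma sum_cast {ι : Type*} (s : Finset ι) (f : ι → ℂ) (g : ι → ℤ) (N : ℤ)
    (h1 : ∀ i ∈ s, f i = (g i : ℂ)) (h2 : ∑ i ∈ s, g i = N) : ∑ i ∈ s, f i = (N : ℂ) := by
  rw [Finset.sum_congr rfl h1, ← Int.cast_sum, h2]

lemma cube_basis (h : ∀ i j, ω (b i) (b j) = (gg i j : ℂ)) : cube ω b = 48 := by
  have h1 := sum_cast Finset.univ (fun π : Equiv.Perm (Fin 6) =>
      (((Equiv.Perm.sign π : ℤˣ) : ℤ) : ℂ) *
        (ω (b (π 0)) (b (π 1)) * (ω (b (π 2)) (b (π 3)) * ω (b (π 4)) (b (π 5)))))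
    (fun π => ((Equiv.Perm.sign π : ℤˣ) : ℤ) *
          (gg (π 0) (π 1) * (gg (π 2) (π 3) * gg (π 4) (π 5)))) 48 (fun π _ => by
      show (((Equiv.Perm.sign π : ℤˣ) : ℤ) : ℂ) *
        (ω (b (π 0)) (b (π 1)) * (ω (b (π 2)) (b (π 3)) * ω (b (π 4)) (b (π 5)))) = _
      rw [h, h, h, Int.cast_mul, Int.cast_mul, Int.cast_mul]) gg_sum
  have h2 : ((48 : ℤ) : ℂ) = 48 := by norm_num
  rw [h2] at h1
  exact h1

/-- forms of top degree are multiples of the cube -/
theorem alt6_cube (h : ∀ i j, ω (b i) (b j) = (gg i j : ℂ)) (A : V [⋀^Fin 6]→ₗ[ℂ] ℂ) :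
    ∃ c : ℂ, ∀ x, A x = c * cube ω x := by
  obtain ⟨B, hB⟩ : ∃ B : V [⋀^Fin 6]→ₗ[ℂ] ℂ, ∀ x, B x = cube ω x := ⟨_, cube_eq ω⟩
  have h1 := AlternatingMap.eq_smul_basis_det b A
  have h2 := AlternatingMap.eq_smul_basis_det b B
  have h3 : B b = 48 := by
    rw [hB]
    exact cube_basis h
  rw [h3] at h2
  refine ⟨A b / 48, fun x => ?_⟩
  rw [← hB, h2, AlternatingMap.smul_apply, smul_eq_mul]
  conv_lhs => rw [h1, AlternatingMap.smul_apply, smul_eq_mul]
  ring

end forms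

/-- existence of a symplectic basis -/
theorem exists_sb6 {L : Type*} [LieRing L] [LieAlgebra ℂ L] (p : Principal L)
    {V : Type*} [AddCommGroup V] [Module ℂ V] [LieRingModule L V] [LieModule ℂ L V]
    [FiniteDimensional ℂ V] [LieModule.IsIrreducible ℂ L V]
    {ω : V →ₗ[ℂ] V →ₗ[ℂ] ℂ} (hω : Symp L ω) (hd : finrank ℂ V = 6) :
    ∃ b : Basis (Fin 6) ℂ V, ∀ i j, ω (b i) (b j) = (gg i j : ℂ) := by
  have key : ∀ (b : Basis (Fin 6) ℂ V) (g : Fin 6 → Fin 6 → ℤ)
      (_ : ∀ i j, ω (b i) (b j) = (g i j : ℂ)) (τ : Fin 6 → Fin 6)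
      (_ : Function.Bijective τ) (_ : ∀ i j, g (τ i) (τ j) = gg i j),
      ∃ b : Basis (Fin 6) ℂ V, ∀ i j, ω (b i) (b j) = (gg i j : ℂ) := by
    intro b g hb τ hτ hg
    refine ⟨b.reindex (Equiv.ofBijective τ hτ).symm, fun i j => ?_⟩
    rw [Basis.reindex_apply, Basis.reindex_apply, Equiv.symm_symm, Equiv.ofBijective_apply,
      Equiv.ofBijective_apply, hb, hg]
  rcases p.frame_dim6 hω hd with ⟨⟨F⟩⟩ | ⟨⟨F⟩⟩
  · have Fr := Adapted.of hω F
    exact key Fr.b g6a Fr.g_b ![0, 5, 4, 1, 2, 3] (by decide) (by decide)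
  · have Fr := Adapted.of hω F
    exact key Fr.b g6b Fr.g_b ![0, 3, 2, 1, 4, 5] (by decide) (by decide)

end Pool.Agent.Helper35.GPC
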