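import Pool.Agent.Helper28.GPC.RelT
import Pool.Agent.Helper24.PT.PMain

/-!
The relations between the weights of the factors of rank one.
-/

namespace Pool.Agent.Helper35.GPC

open Module NumberField LieAlgebra Pool.Agent.Helper7 Pool.Agent.GPC

attribute [local instance 100] LieRing.ofAssociativeRing

open Pool.Agent.Helper28.GPC (chiT relT mem_relT relT_noExoticK)
open Pool.Agent.Helper24

set_option linter.unusedSectionVars false

section single

variable {κ : Type} [Fintype κ] [DecidableEq κ] {ϖ : ℂ} {P : PData κ ϖ} {K : Type} [Field K]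
    [NumberField K] {r : ℕ}

/-- the weight of a symmetry at a place of rank one -/
lemma tw_eq_mat (hr : r = 1) (F : UF P K r) (F' : Fac P K) (hgl : ¬ F'.gl)
    (hρ : ∀ x v, F.ρ x v = F'.ρ x v) (Y : Module.End ℂ (κ → ℂ)) (hY : F.Comm Y)
    (σ : K →+* ℂ) : tw F σ Y = F'.mat σ Y 0 0 := by
  subst hr
  have hρ' : F.ρ = F'.ρ := RingHom.ext fun x => LinearMap.ext fun v => hρ x v
  have hY' : F'.Comm Y := fun x v => by rw [← hρ, ← hρ]; exact hY x v
  obtain ⟨u, hu⟩ : ∃ u, u = F'.e σ 0 := ⟨_, rfl⟩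
  have hu0 : u ≠ 0 := by
    intro h0
    have h1 := F'.co_e σ 0 σ 0 (Or.inr rfl)
    rw [if_pos ⟨rfl, rfl⟩, ← hu, h0, map_zero] at h1
    exact zero_ne_one h1
  have h1 : Y u = F'.mat σ Y 0 0 • u := by
    rw [hu, hY'.act σ 0, Fin.sum_univ_two, F'.e_one hgl, smul_zero, add_zero]
  have h2 : u = F.co σ 0 u • F.e σ 0 := by
    have h3 : proj F.ρ σ u = u := by
      rw [hρ', hu, F'.proj_e, if_pos rfl]
    conv_lhs => rw [← h3, F.proj_eq, Fin.sum_univ_one]
  have h3 : Y u = tw F σ Y • u := by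
    rw [h2, map_smul, act_one F Y hY σ, smul_comm]
  rw [h1] at h3
  have h4 : (F'.mat σ Y 0 0 - tw F σ Y) • u = 0 := by rw [sub_smul, h3, sub_self]
  exact (sub_eq_zero.mp ((smul_eq_zero.mp h4).resolve_right hu0)).symm

end single

/-- sums over the places of some of the fields -/
lemma sum_emb_sub {I : Type} [Fintype I] [DecidableEq I] {K : I → Type} [∀ i, Field (K i)]
    [∀ i, NumberField (K i)] {M : Type*} [AddCommMonoid M] (T : Finset I) (f : Emb K → M)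
    (h : ∀ t : Emb K, t.1 ∉ T → f t = 0) :
    ∑ t : Emb (fun i : {i // i ∈ T} => K i.1), f ⟨t.1.1, t.2⟩ = ∑ t, f t := by
  have h1 : ∑ t : Emb (fun i : {i // i ∈ T} => K i.1), f ⟨t.1.1, t.2⟩ =
      ∑ i : {i // i ∈ T}, ∑ σ : K i.1 →+* ℂ, f ⟨i.1, σ⟩ := Fintype.sum_sigma _
  have h2 : ∑ t, f t = ∑ i : I, ∑ σ : K i →+* ℂ, f ⟨i, σ⟩ := Fintype.sum_sigma _
  rw [h1, h2, Finset.sum_coe_sort T (fun i => ∑ σ : K i →+* ℂ, f ⟨i, σ⟩)]
  refine Finset.sum_subset (Finset.subset_univ T) fun i _ hi => ?_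
  exact Finset.sum_eq_zero fun σ _ => h ⟨i, σ⟩ hi

section main

variable {I : Type} [Fintype I] [DecidableEq I] (A : I → AbVar) (n : I → ℕ) {K : I → Type}
  [∀ i, Field (K i)] [∀ i, NumberField (K i)] {r : I → ℕ}

/-- no exceptional relations of bounded size between the weights of the factors of rank one if all
other fields are totally real -/
theorem ne_of_cond {k : ℕ} {T : Finset I}
    (F : ∀ i, UF (pData (A i)) (K i) (r i)) (hr1 : ∀ i ∈ T, r i = 1)
    (hFT : ∀ i ∈ T, ∃ F' : Fac (pData (A i)) (K i), ¬ F'.gl ∧ ∀ x v, (F i).ρ x v = F'.ρ x v)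
    (α : MultilinearMap ℂ (fun _ : Fin (2 * k) => HW (fun i => Fin (A i).g ⊕ Fin (A i).g) n) ℂ)
    (hB : ∀ v : Fin (2 * k) → HW (fun i => Fin (A i).g ⊕ Fin (A i).g) n,
      (∀ r, IsRatP n (fun i => pData (A i)) (v r)) →
      ∃ q : ℚ, α v = (2 * Real.pi * Complex.I) ^ k * q)
    (hA : ∀ v : Fin (2 * k) → HW (fun i => Fin (A i).g ⊕ Fin (A i).g) n,
      (∀ r i m j, IsAlgebraic ℚ (v r i m j)) → IsAlgebraic ℚ (α v))
    (hre : ∀ i, i ∉ T → ∀ σ : K i →+* ℂ, ComplexEmbedding.conjugate σ = σ)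
    (hC : ∀ i ∈ T, IsCMType (A i) (K i))
    (h : LowDimCM A n K T ∨ PrimeFamCM A n K T k)
    (z : Emb K → ℤ) (hzU : (fun t => (z t : ℚ)) ∈ relS n (fun i => pData (A i)) F α)
    (hzn : ∀ t, |z t| ≤ n t.1 * r t.1) (h4 : ∃ m : ℤ, ∑ t, |z t| = 4 * m)
    (hk4 : ∑ t, |z t| ≤ 4 * k) (t : Emb K) (ht : r t.1 = 1) : z t = 0 := by
  classical
  have hz0 : ∀ t : Emb K, t.1 ∉ T → z t = 0 := by
    rintro ⟨i, σ⟩ hi
    have h1 := hzU.1 i σ
    have h2 := hre i hi σ
    have h3 : ((z ⟨i, σ⟩ : ℤ) : ℚ) = - (z ⟨i, σ⟩ : ℤ) := by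
      have h5 : (fun t : Emb K => (z t : ℚ)) ⟨i, ComplexEmbedding.conjugate σ⟩ =
        - (fun t : Emb K => (z t : ℚ)) ⟨i, σ⟩ := h1
      rw [h2] at h5
      exact h5
    have h4 : (z ⟨i, σ⟩ : ℤ) = - z ⟨i, σ⟩ := by exact_mod_cast h3
    omega
  by_cases htT : t.1 ∈ T
  swap
  · exact hz0 t htT
  choose F' hF' hρ using hFT
  let G : ∀ i : {i // i ∈ T}, {F : Fac (pData (A i.1)) (K i.1) // ¬ F.gl} :=
    fun i => ⟨F' i.1 i.2, hF' i.1 i.2⟩
  let z' : Emb (fun i : {i // i ∈ T} => K i.1) → ℤ := fun t => z ⟨t.1.1, t.2⟩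
  have key := relT_noExoticK A G α hB hA hC (Or.inr h) z' ?_ ?_ ?_ ?_ ⟨⟨t.1, htT⟩, t.2⟩
  · exact key
  · rw [mem_relT]
    refine ⟨fun i σ => hzU.1 i.1 σ, fun X hX hXr => ?_⟩
    have h1 := hzU.2 X hX hXr
    rw [← sum_emb_sub T (fun t => (((z t : ℤ) : ℚ) : ℂ) *
      ch (fun i => pData (A i)) F t X) (fun t ht => by
        rw [hz0 t ht]; simp)] at h1
    rw [← h1]
    refine Finset.sum_congr rfl fun t _ => ?_
    congr 1
    exact (tw_eq_mat (hr1 t.1.1 t.1.2) (F t.1.1) (F' t.1.1 t.1.2) (hF' _ _) (hρ _ _) _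
      (commK n (fun i => pData (A i)) F α hX t.1.1) t.2).symm
  · intro t
    have h1 := hzn ⟨t.1.1, t.2⟩
    have h2 : r t.1.1 = 1 := hr1 t.1.1 t.1.2
    simp only [h2, Nat.cast_one, mul_one] at h1
    exact h1
  · have h1 := sum_emb_sub T (fun t => |z t|) (fun t ht => by rw [hz0 t ht, abs_zero])
    show ∃ m : ℤ, ∑ t : Emb (fun i : {i // i ∈ T} => K i.1), |z ⟨t.1.1, t.2⟩| = 4 * m
    rw [h1]
    exact h4
  · have h1 := sum_emb_sub T (fun t => |z t|) (fun t ht => by rw [hz0 t ht, abs_zero])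
    show ∑ t : Emb (fun i : {i // i ∈ T} => K i.1), |z ⟨t.1.1, t.2⟩| ≤ 4 * k
    rw [h1]
    exact hk4

theorem nonempty_UF1' (A : AbVar) (K : Type) [Field K] [NumberField K] [IsCMField K]
    (C : CM A K) : ∃ F : UF (pData A) K 1, ∀ x v, F.ρ x v = C.ρ x v := by
  have hQ : ∀ x, ∀ v ∈ (pData A).Q, cmRho C x v ∈ (pData A).Q :=
    fun x v hv => (isDRB_of_isEnd A _ (C.endo x)).rat v hv
  obtain ⟨lam, h1, h2, eb, h3⟩ := exists_Kbasis (pData A) (cmRho C) hQ 1
    (by rw [C.degree, card_index, mul_one])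
  exact ⟨{  ρ := cmRho C
            hρ := fun x => isDRB_of_isEnd A _ (C.endo x)
            cc := cmConj K
            hcc := fun σ x => IsCMField.complexEmbedding_complexConj K σ x
            hros := fun x u v => C.rosati x u v
            hcen := fun f hf hc => cen_one (pData A) (cmRho C) lam h1 h2 f hf hc
            hnd := hnd_pData A
            lam := lam
            lam_rat := h1
            gen := h2
            eb := eb
            heb := h3 }, fun x v => rfl⟩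

end main

end Pool.Agent.Helper35.GPC
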