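import Mathlib

/-!
Commuting operators with odd integral eigenvalues: a divisibility of the dimension by four.
-/

namespace Pool.Agent.Helper35.GPC

open Module Submodule

set_option linter.unusedSectionVars false

section joint

variable {V : Type*} [AddCommGroup V] [Module ℂ V] [FiniteDimensional ℂ V]

/-- every eigenvalue occurs in a spanning set of eigenvectors -/
lemma eig_of_span (T : Module.End ℂ V) (P : ℂ → Prop)
    (h : ⊤ ≤ Submodule.span ℂ {v : V | ∃ μ : ℂ, P μ ∧ T v = μ • v}) {μ : ℂ} {v : V}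
    (hv : T v = μ • v) (h0 : v ≠ 0) : P μ := by
  by_contra hP
  have h1 : Submodule.span ℂ {v : V | ∃ μ : ℂ, P μ ∧ T v = μ • v} ≤
      ⨆ j, ⨆ (_ : j ≠ μ), T.eigenspace j := by
    rw [Submodule.span_le]
    rintro w ⟨ν, hν, hw⟩
    have hne : ν ≠ μ := by rintro rfl; exact hP hν
    exact Submodule.mem_iSup_of_mem ν (Submodule.mem_iSup_of_mem hne
      (Module.End.mem_eigenspace_iff.mpr hw))
  have h2 := Module.End.eigenspaces_iSupIndep T μ
  have h3 : v ∈ T.eigenspace μ ⊓ ⨆ j, ⨆ (_ : j ≠ μ), T.eigenspace j :=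
    ⟨Module.End.mem_eigenspace_iff.mpr hv, h1 (h Submodule.mem_top)⟩
  rw [h2.eq_bot] at h3
  exact h0 ((Submodule.mem_bot ℂ).mp h3)

/-- joint eigenvectors of two commuting operators -/
theorem joint_span (T T' : Module.End ℂ V) (hc : ∀ v, T (T' v) = T' (T v)) (P P' : ℂ → Prop)
    (h : ⊤ ≤ Submodule.span ℂ {v : V | ∃ μ : ℂ, P μ ∧ T v = μ • v})
    (h' : ⊤ ≤ Submodule.span ℂ {v : V | ∃ μ : ℂ, P' μ ∧ T' v = μ • v}) :
    ⊤ ≤ Submodule.span ℂ {v : V | ∃ μ ν : ℂ, P μ ∧ P' ν ∧ T v = μ • v ∧ T' v = ν • v} := by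
  refine h'.trans (Submodule.span_le.mpr ?_)
  rintro v ⟨ν, hν, hv⟩
  have htop : (⨆ μ, T.genEigenspace μ 1) = ⊤ := by
    rw [eq_top_iff]
    refine h.trans (Submodule.span_le.mpr ?_)
    rintro w ⟨μ, -, hw⟩
    exact Submodule.mem_iSup_of_mem μ (Module.End.mem_eigenspace_iff.mpr hw)
  have h1 := Submodule.inf_iSup_genEigenspace (p := T'.eigenspace ν) (f := T) (fun x hx => by
    rw [Module.End.mem_eigenspace_iff] at hx ⊢
    rw [← hc, hx, map_smul]) 1
  rw [htop, inf_top_eq] at h1
  have h2 : v ∈ ⨆ μ, T'.eigenspace ν ⊓ T.genEigenspace μ 1 := by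
    rw [← h1]
    exact Module.End.mem_eigenspace_iff.mpr hv
  refine (iSup_le fun μ => ?_ : (⨆ μ, T'.eigenspace ν ⊓ T.genEigenspace μ 1) ≤ _) h2
  rintro x ⟨hx1, hx2⟩
  have e1 : T' x = ν • x := Module.End.mem_eigenspace_iff.mp hx1
  have e2 : T x = μ • x := Module.End.mem_eigenspace_iff.mp hx2
  by_cases h0 : x = 0
  · rw [h0]; exact Submodule.zero_mem _
  · exact Submodule.subset_span ⟨μ, ν, eig_of_span T P h e2 h0, hν, e2, e1⟩

lemma even_card_of_odd_sum {ι : Type*} (s : Finset ι) (m : ι → ℤ) (hm : ∀ i ∈ s, Odd (m i))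
    (h : Even (∑ i ∈ s, m i)) : Even s.card := by
  rw [← Int.even_coe_nat]
  have h1 : ((s.card : ℕ) : ℤ) = ∑ i ∈ s, m i - ∑ i ∈ s, (m i - 1) := by
    rw [← Finset.sum_sub_distrib]
    simp
  rw [h1]
  refine h.sub (Finset.even_sum _ fun i hi => ?_)
  obtain ⟨k, hk⟩ := hm i hi
  exact ⟨k, by rw [hk]; ring⟩

/-- odd commuting actions of two three-dimensional simple algebras -/
theorem four_dvd (h h' e f : Module.End ℂ V) (hef : e * f - f * e = h) (ce : e * h' = h' * e)
    (cf : f * h' = h' * f)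
    (ho : ⊤ ≤ Submodule.span ℂ {v : V | ∃ m : ℤ, Odd m ∧ h v = (m : ℂ) • v})
    (ho' : ⊤ ≤ Submodule.span ℂ {v : V | ∃ m : ℤ, Odd m ∧ h' v = (m : ℂ) • v})
    (htr : LinearMap.trace ℂ V h' = 0) : 4 ∣ finrank ℂ V := by
  classical
  have hc : h * h' = h' * h := by
    rw [← hef, sub_mul, mul_sub, mul_assoc, mul_assoc, cf, ce, ← mul_assoc, ← mul_assoc, ce, cf,
      mul_assoc, mul_assoc]
  have hj := joint_span h h' (fun v => LinearMap.congr_fun hc v)
    (fun μ => ∃ m : ℤ, Odd m ∧ μ = m) (fun μ => ∃ m : ℤ, Odd m ∧ μ = m)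
    (ho.trans (Submodule.span_mono (by
      rintro v ⟨m, hm, hv⟩
      exact ⟨m, ⟨m, hm, rfl⟩, hv⟩)))
    (ho'.trans (Submodule.span_mono (by
      rintro v ⟨m, hm, hv⟩
      exact ⟨m, ⟨m, hm, rfl⟩, hv⟩)))
  have hj2 : ⊤ ≤ Submodule.span ℂ {v : V | ∃ m m' : ℤ, Odd m ∧ Odd m' ∧ h v = (m : ℂ) • v ∧
      h' v = (m' : ℂ) • v} := by
    refine hj.trans (Submodule.span_mono ?_)
    rintro v ⟨_, _, ⟨m, hm, rfl⟩, ⟨m', hm', rfl⟩, h1, h2⟩
    exact ⟨m, m', hm, hm', h1, h2⟩
  -- a joint basis
  let b0 := Module.Basis.ofSpan hj2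
  have hf := Module.Finite.finite_basis b0
  have hfin := Fintype.ofFinite ((linearIndepOn_empty ℂ id).extend (Set.empty_subset
    {v : V | ∃ m m' : ℤ, Odd m ∧ Odd m' ∧ h v = (m : ℂ) • v ∧ h' v = (m' : ℂ) • v}))
  obtain ⟨b, hb⟩ : ∃ b : Basis (Fin (finrank ℂ V)) ℂ V, ∀ j, ∃ m m' : ℤ, Odd m ∧ Odd m' ∧
      h (b j) = (m : ℂ) • b j ∧ h' (b j) = (m' : ℂ) • b j := by
    refine ⟨b0.reindex (Fintype.equivFinOfCardEq (Module.finrank_eq_card_basis b0).symm),
      fun j => ?_⟩
    rw [Basis.reindex_apply]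
    exact Module.Basis.ofSpan_subset hj2 ⟨_, rfl⟩
  choose m m' hm hm' hbm hbm' using hb
  -- the projector to an eigenspace of `h'`
  let q : ℤ → Module.End ℂ V := fun c => b.constr ℂ fun j => if m' j = c then b j else 0
  have hq : ∀ c j, q c (b j) = if m' j = c then b j else 0 := fun c j => by
    simp only [q, Basis.constr_basis]
  have hq1 : ∀ (c d : ℤ) (x : V), h' x = (d : ℂ) • x → q c x = if d = c then x else 0 := by
    intro c d x hx
    have h1 : ∀ j, b.repr x j * ((m' j : ℂ) - d) = 0 := by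
      intro j
      have h2 : b.repr (h' x) j = (d : ℂ) * b.repr x j := by
        rw [hx, map_smul, Finsupp.smul_apply, smul_eq_mul]
      have h3 : h' x = ∑ i, (b.repr x i * (m' i : ℂ)) • b i := by
        conv_lhs => rw [← b.sum_repr x, map_sum]
        refine Finset.sum_congr rfl fun i _ => ?_
        rw [map_smul, hbm', smul_smul]
      rw [h3, b.repr_sum_self] at h2
      linear_combination h2
    have h2 : q c x = ∑ j, b.repr x j • (if m' j = c then b j else 0) := by
      conv_lhs => rw [← b.sum_repr x, map_sum]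
      exact Finset.sum_congr rfl fun j _ => by rw [map_smul, hq]
    rw [h2]
    by_cases hdc : d = c
    · rw [if_pos hdc]
      conv_rhs => rw [← b.sum_repr x]
      refine Finset.sum_congr rfl fun j _ => ?_
      by_cases hj : m' j = c
      · rw [if_pos hj]
      · rw [if_neg hj, smul_zero]
        have h3 := (mul_eq_zero.mp (h1 j)).resolve_right (fun h4 => hj (by
          rw [← hdc]
          exact_mod_cast sub_eq_zero.mp h4))
        rw [h3, zero_smul]
    · rw [if_neg hdc]
      refine Finset.sum_eq_zero fun j _ => ?_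
      by_cases hj : m' j = c
      · have h3 := (mul_eq_zero.mp (h1 j)).resolve_right (fun h4 => hdc (by
          rw [← hj]
          exact_mod_cast (sub_eq_zero.mp h4).symm))
        rw [h3, zero_smul]
      · rw [if_neg hj, smul_zero]
  have hqe : ∀ c, q c * e = e * q c := by
    intro c
    refine b.ext fun j => ?_
    rw [Module.End.mul_apply, Module.End.mul_apply, hq, hq1 c (m' j) (e (b j)) (by
      have h1 := LinearMap.congr_fun ce (b j)
      rw [Module.End.mul_apply, Module.End.mul_apply, hbm', map_smul] at h1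
      exact h1.symm)]
    split_ifs
    · rfl
    · rw [map_zero]
  have htq : ∀ c, LinearMap.trace ℂ V (h * q c) = 0 := by
    intro c
    rw [← hef, sub_mul, map_sub, mul_assoc f, ← hqe c, ← mul_assoc, mul_assoc e,
      LinearMap.trace_mul_comm ℂ e, sub_self]
  have hsum : ∀ c, ∑ j ∈ Finset.univ.filter (fun j => m' j = c), m j = 0 := by
    intro c
    have h1 := htq c
    rw [LinearMap.trace_eq_matrix_trace ℂ b, Matrix.trace] at h1
    have h2 : ∀ j, Matrix.diag (LinearMap.toMatrix b b (h * q c)) j =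
        if m' j = c then (m j : ℂ) else 0 := by
      intro j
      rw [Matrix.diag_apply, LinearMap.toMatrix_apply, Module.End.mul_apply, hq]
      split_ifs
      · rw [hbm, map_smul, Finsupp.smul_apply, Basis.repr_self, Finsupp.single_eq_same,
          smul_eq_mul, mul_one]
      · rw [map_zero, map_zero, Finsupp.zero_apply]
    rw [Finset.sum_congr rfl fun j _ => h2 j, ← Finset.sum_filter] at h1
    exact_mod_cast h1
  have hev : ∀ c, Even (Finset.univ.filter (fun j => m' j = c)).card := fun c =>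
    even_card_of_odd_sum _ m (fun j _ => hm j) (by rw [hsum c]; exact Even.zero)
  have htot : ∑ j, m' j = 0 := by
    rw [LinearMap.trace_eq_matrix_trace ℂ b, Matrix.trace] at htr
    have h2 : ∀ j, Matrix.diag (LinearMap.toMatrix b b h') j = (m' j : ℂ) := by
      intro j
      rw [Matrix.diag_apply, LinearMap.toMatrix_apply, hbm', map_smul, Finsupp.smul_apply,
        Basis.repr_self, Finsupp.single_eq_same, smul_eq_mul, mul_one]
    rw [Finset.sum_congr rfl fun j _ => h2 j] at htr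
    exact_mod_cast htr
  -- the half sums
  choose k' hk' using hm'
  have h1 : Even (∑ j, k' j) := by
    have h2 : ∑ j, k' j = ∑ c ∈ Finset.univ.image m', ∑ j ∈ Finset.univ.filter
        (fun j => m' j = c), k' j :=
      (Finset.sum_fiberwise_of_maps_to (fun j _ => Finset.mem_image_of_mem m' (Finset.mem_univ j))
        k').symm
    rw [h2]
    refine Finset.even_sum _ fun c _ => ?_
    have h3 : ∑ j ∈ Finset.univ.filter (fun j => m' j = c), k' j =
        (Finset.univ.filter (fun j => m' j = c)).card * ((c - 1) / 2) := by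
      rw [← nsmul_eq_mul, ← Finset.sum_const]
      refine Finset.sum_congr rfl fun j hj => ?_
      have h4 := (Finset.mem_filter.mp hj).2
      have h5 := hk' j
      omega
    rw [h3]
    exact Even.mul_right (by exact_mod_cast hev c) _
  have h6 : ∑ j, m' j = 2 * ∑ j, k' j + (finrank ℂ V : ℤ) := by
    rw [Finset.sum_congr rfl fun j _ => hk' j, Finset.sum_add_distrib, ← Finset.mul_sum]
    simp
  obtain ⟨t, ht⟩ := h1
  rw [htot, ht] at h6
  have h7 : (4 : ℤ) ∣ (finrank ℂ V : ℤ) := ⟨-t, by linarith⟩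
  exact_mod_cast h7

end joint

end Pool.Agent.Helper35.GPC
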