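import Pool.Agent.Helper8.H.Slot

/-!
Contraction of two slots with labels which are in duality.
-/

namespace Pool.Agent.Helper35.GPC

open Pool.Agent.Helper8 (SF SF0 PS invF piecewise_update piecewise_update' SF.toSF0 SF0.sum
  SF0.sub_slots PS.mul)

set_option linter.unusedSectionVars false

variable {R W A : Type*} [DecidableEq R] [AddCommGroup W] [Module ℂ W]

/-- dual families for an invariant pairing of the spaces of two labels -/
structure PE (𝒢 : Set (Module.End ℂ W × ℂ)) (E : A → Module.End ℂ W) (a a' : A) (d : ℕ) where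
  ω : W →ₗ[ℂ] W →ₗ[ℂ] ℂ
  hω : ω ∈ invF 𝒢
  b : Fin d → W
  c : Fin d → W
  hb : ∀ w, E a w = ∑ j, ω w (c j) • b j
  hc : ∀ w, E a' w = ∑ j, ω (b j) w • c j

/-- the vectors put in the two slots -/
def PE.z {𝒢 : Set (Module.End ℂ W × ℂ)} {E : A → Module.End ℂ W} {a a' : A} {d : ℕ}
    (D : PE 𝒢 E a a' d) (r0 : R) (j : Fin d) (t : R) : W := if t = r0 then D.b j else D.c j

/-- the contraction of a slot function -/
def con {𝒢 : Set (Module.End ℂ W × ℂ)} {E : A → Module.End ℂ W} {a a' : A} {d : ℕ}
    (D : PE 𝒢 E a a' d) (r0 s0 : R) (Φ : (R → W) → ℂ) (v : R → W) : ℂ :=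
  ∑ j, Φ (({r0, s0} : Finset R).piecewise (D.z r0 j) v)

variable {𝒢 : Set (Module.End ℂ W × ℂ)} {E : A → Module.End ℂ W} {q : R → A} {T : Finset R}
  {Φ : (R → W) → ℂ} {a a' : A} {d : ℕ} (D : PE 𝒢 E a a' d) {r0 s0 : R}

lemma PE.pw_eq (hne : r0 ≠ s0) (j : Fin d) (v : R → W) :
    ({r0, s0} : Finset R).piecewise (D.z r0 j) v =
      Function.update (Function.update v r0 (D.b j)) s0 (D.c j) := by
  funext t
  by_cases h1 : t = s0
  · subst h1
    rw [Finset.piecewise_eq_of_mem _ _ _ (by simp), Function.update_self, PE.z,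
      if_neg (Ne.symm hne)]
  · rw [Function.update_of_ne h1]
    by_cases h2 : t = r0
    · subst h2
      rw [Finset.piecewise_eq_of_mem _ _ _ (by simp), Function.update_self, PE.z, if_pos rfl]
    · rw [Function.update_of_ne h2, Finset.piecewise_eq_of_notMem _ _ _ (by simp [h1, h2])]

lemma con_eq (hne : r0 ≠ s0) (v : R → W) : con D r0 s0 Φ v =
    ∑ j, Φ (Function.update (Function.update v r0 (D.b j)) s0 (D.c j)) := by
  rw [con]
  exact Finset.sum_congr rfl fun j _ => by rw [D.pw_eq hne]

/-- the contraction of two slots with labels in duality is a slot function -/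
theorem con_SF (h : SF 𝒢 E q T Φ) (hr0 : r0 ∈ T) (hs0 : s0 ∈ T) (hne : r0 ≠ s0)
    (q1 : q r0 = a) (q2 : q s0 = a') : SF 𝒢 E q (T \ {r0, s0}) (con D r0 s0 Φ) where
  dep v v' hv := Finset.sum_congr rfl fun j _ =>
    (h.toSF0.sub_slots {r0, s0} (D.z r0 j)).dep v v' hv
  add v r hr x y := by
    simp only [con]
    rw [← Finset.sum_add_distrib]
    exact Finset.sum_congr rfl fun j _ =>
      (h.toSF0.sub_slots {r0, s0} (D.z r0 j)).add v r hr x y
  smul v r hr c x := by
    simp only [con]
    rw [Finset.mul_sum]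
    exact Finset.sum_congr rfl fun j _ =>
      (h.toSF0.sub_slots {r0, s0} (D.z r0 j)).smul v r hr c x
  lab r hr v := Finset.sum_congr rfl fun j _ =>
    (h.toSF0.sub_slots {r0, s0} (D.z r0 j)).lab r hr v
  alt r hr s hs hrs hq v := by
    simp only [con]
    rw [← Finset.sum_neg_distrib]
    exact Finset.sum_congr rfl fun j _ =>
      (h.toSF0.sub_slots {r0, s0} (D.z r0 j)).alt r hr s hs hrs hq v
  inv X hX v := by
    have hST : ({r0, s0} : Finset R) ⊆ T := by
      intro t ht
      rw [Finset.mem_insert, Finset.mem_singleton] at ht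
      rcases ht with rfl | rfl
      · exact hr0
      · exact hs0
    have h0 := h.toSF0
    -- the bilinear function of the two slots
    obtain ⟨G, hG⟩ : ∃ G : W → W → ℂ, ∀ x y, G x y =
        Φ (Function.update (Function.update v r0 x) s0 y) := ⟨_, fun _ _ => rfl⟩
    have hcomm : ∀ x y, Function.update (Function.update v r0 x) s0 y =
        Function.update (Function.update v s0 y) r0 x := fun x y =>
      (Function.update_comm hne x y v)
    have hG1 : ∀ x y, G x y = ∑ i, D.ω x (D.c i) * G (D.b i) y := by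
      intro x y
      have e1 := h0.lab r0 hr0 (Function.update (Function.update v s0 y) r0 x)
      rw [Function.update_self, Function.update_idem, q1, D.hb,
        h0.sum _ r0 hr0] at e1
      rw [hG, hcomm, ← e1]
      exact Finset.sum_congr rfl fun i _ => by rw [hG, hcomm]
    have hG2 : ∀ x y, G x y = ∑ i, D.ω (D.b i) y * G x (D.c i) := by
      intro x y
      have e1 := h0.lab s0 hs0 (Function.update (Function.update v r0 x) s0 y)
      rw [Function.update_self, Function.update_idem, q2, D.hc,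
        h0.sum _ s0 hs0] at e1
      rw [hG, ← e1]
      exact Finset.sum_congr rfl fun i _ => by rw [hG]
    have hkey : ∑ j, (G (X.1 (D.b j)) (D.c j) + G (D.b j) (X.1 (D.c j))) =
        X.2 * ∑ j, G (D.b j) (D.c j) := by
      rw [Finset.sum_add_distrib]
      have e1 : ∑ j, G (X.1 (D.b j)) (D.c j) =
          ∑ i, ∑ j, D.ω (X.1 (D.b j)) (D.c i) * G (D.b i) (D.c j) := by
        rw [Finset.sum_comm]
        exact Finset.sum_congr rfl fun j _ => hG1 _ _
      have e2 : ∑ j, G (D.b j) (X.1 (D.c j)) =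
          ∑ i, ∑ j, D.ω (D.b j) (X.1 (D.c i)) * G (D.b i) (D.c j) :=
        Finset.sum_congr rfl fun i _ => hG2 _ _
      have e3 : ∑ j, G (D.b j) (D.c j) =
          ∑ i, ∑ j, D.ω (D.b j) (D.c i) * G (D.b i) (D.c j) := by
        rw [Finset.sum_comm]
        exact Finset.sum_congr rfl fun j _ => hG1 _ _
      rw [e1, e2, e3, ← Finset.sum_add_distrib, Finset.mul_sum]
      refine Finset.sum_congr rfl fun i _ => ?_
      rw [← Finset.sum_add_distrib, Finset.mul_sum]
      refine Finset.sum_congr rfl fun j _ => ?_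
      have e4 := D.hω X hX (D.b j) (D.c i)
      linear_combination (G (D.b i) (D.c j)) * e4
    -- sum of the invariance relations
    have h1 : ∑ j, (2 * ∑ t ∈ T, Φ (Function.update
        (({r0, s0} : Finset R).piecewise (D.z r0 j) v) t
          (X.1 (({r0, s0} : Finset R).piecewise (D.z r0 j) v t)))) =
        ∑ j, T.card * X.2 * Φ (({r0, s0} : Finset R).piecewise (D.z r0 j) v) :=
      Finset.sum_congr rfl fun j _ => h.inv X hX _
    have h2 : ∀ j, ∑ t ∈ T, Φ (Function.update
        (({r0, s0} : Finset R).piecewise (D.z r0 j) v) t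
          (X.1 (({r0, s0} : Finset R).piecewise (D.z r0 j) v t))) =
        ∑ t ∈ T \ {r0, s0}, Φ (({r0, s0} : Finset R).piecewise (D.z r0 j)
          (Function.update v t (X.1 (v t)))) +
        (G (X.1 (D.b j)) (D.c j) + G (D.b j) (X.1 (D.c j))) := by
      intro j
      rw [← Finset.sum_sdiff hST]
      congr 1
      · refine Finset.sum_congr rfl fun t ht => ?_
        rw [Finset.mem_sdiff] at ht
        rw [piecewise_update _ _ v t ht.2, Finset.piecewise_eq_of_notMem _ _ _ ht.2]
      · rw [Finset.sum_insert (by simpa using hne), Finset.sum_singleton, D.pw_eq hne,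
          Function.update_of_ne hne, Function.update_self, Function.update_self, hG, hG,
          Function.update_idem, hcomm (D.b j), Function.update_idem, ← hcomm]
    have hcard : ((T \ {r0, s0}).card : ℂ) = T.card - 2 := by
      rw [Finset.card_sdiff_of_subset hST, Nat.cast_sub (Finset.card_le_card hST),
        Finset.card_pair hne]
      norm_num
    rw [Finset.sum_congr rfl fun j _ => by rw [h2 j]] at h1
    simp only [mul_add, Finset.sum_add_distrib] at h1
    simp only [con]
    rw [Finset.sum_comm, hcard]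
    have h3 : ∀ j, Φ (({r0, s0} : Finset R).piecewise (D.z r0 j) v) = G (D.b j) (D.c j) := by
      intro j
      rw [D.pw_eq hne, hG]
    simp only [h3] at h1 ⊢
    rw [← Finset.mul_sum, ← Finset.mul_sum, ← Finset.mul_sum, ← Finset.mul_sum] at h1
    rw [Finset.sum_add_distrib] at hkey
    linear_combination h1 - 2 * hkey

/-- A slot function which is a combination of products of invariant pairings of a fixed slot with
other slots and of contractions. -/
theorem mem_of_con {𝒢 : Set (Module.End ℂ W × ℂ)} {E : A → Module.End ℂ W} {q : R → A}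
    {T : Finset R} {Φ : (R → W) → ℂ} {d : ℕ} (h : SF 𝒢 E q T Φ) {r0 : R} (hr0 : r0 ∈ T)
    (C : Finset R) (hC : C ⊆ T) (hr0C : r0 ∉ C) (D : ∀ t : R, t ∈ C → PE 𝒢 E (q r0) (q t) d)
    (c : ℂ) (hc : c ≠ 0)
    (heq : ∀ v, c * Φ v = ∑ t ∈ C.attach, (D t.1 t.2).ω (v r0) (v t.1) *
      con (D t.1 t.2) r0 t.1 Φ v)
    (ih : ∀ t ∈ C, ∀ Ψ : (R → W) → ℂ, SF 𝒢 E q (T \ {r0, t}) Ψ →
      Ψ ∈ PS (invF 𝒢) (T \ {r0, t})) : Φ ∈ PS (invF 𝒢) T := by
  have h1 : ∀ t ∈ C.attach, (fun v : R → W => (D t.1 t.2).ω (v r0) (v t.1) *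
      con (D t.1 t.2) r0 t.1 Φ v) ∈ PS (invF 𝒢) T := by
    rintro ⟨t, ht⟩ _
    have hne : r0 ≠ t := fun e => hr0C (e ▸ ht)
    have htT := hC ht
    have h2 := ih t ht _ (con_SF (D t ht) h hr0 htT hne rfl rfl)
    have h3 : (fun v : R → W => (D t ht).ω (v r0) (v t)) ∈
        PS (invF 𝒢) ({r0, t} : Finset R) := by
      refine Submodule.subset_span ?_
      have h5 := Pool.Agent.Helper7.PP.cons r0 t (D t ht).ω (D t ht).hω
        (Pool.Agent.Helper7.PP.nil (R := R)) (Finset.notMem_empty r0)
        (Finset.notMem_empty t) hne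
      simp only [mul_one] at h5
      exact h5
    have h4 := PS.mul h3 h2 Finset.disjoint_sdiff
    have hS : ({r0, t} : Finset R) ⊆ T := by
      intro u hu
      rw [Finset.mem_insert, Finset.mem_singleton] at hu
      rcases hu with rfl | rfl
      · exact hr0
      · exact htT
    rw [Finset.union_sdiff_of_subset hS] at h4
    exact h4
  have h2 : Φ = c⁻¹ • ∑ t ∈ C.attach, (fun v : R → W => (D t.1 t.2).ω (v r0) (v t.1) *
      con (D t.1 t.2) r0 t.1 Φ v) := by
    funext v
    rw [Pi.smul_apply, Finset.sum_apply, ← heq v, smul_eq_mul, ← mul_assoc, inv_mul_cancel₀ hc,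
      one_mul]
  rw [h2]
  exact Submodule.smul_mem _ _ (Submodule.sum_mem _ h1)

end Pool.Agent.Helper35.GPC
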