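import Pool.Agent.Helper24.PT.UGen
import Pool.Agent.Helper35.GPC.SlotD
import Pool.Agent.Helper24.PT.UCore6
import Pool.Agent.Helper8.Lie.P1111
import Pool.Agent.Helper8.Lie.PMixed2

/-!
Slot functions with slots at a plane on which an ideal acts which acts trivially at all other
places of the slots: a slot at the plane is paired with the other slots at the plane.
-/

namespace Pool.Agent.Helper35.GPC

open Module NumberField LieAlgebra Pool.Agent.Helper7

attribute [local instance 100] LieRing.ofAssociativeRing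

open Pool.Agent.GPC (Emb IsOdd IsOddModule translate)
open Pool.Agent.Helper8 (SF SF0 PS PS.mul symG invF invF_symG SF.toSF0 SF.factor SF.mem_of_factor
  mem_of_PS Symp ML2 Inv2 ML4 Inv4 exists_linear SF0.sum SF0.eq_zero_of_eq wsq Dual)
open Pool.Agent.Helper24

set_option linter.unusedSectionVars false

section bilin

variable {V : Type*} [AddCommGroup V] [Module ℂ V] (b : Basis (Fin 2) ℂ V)

lemma exp_two (x : V) : x = b.repr x 0 • b 0 + b.repr x 1 • b 1 := by
  conv_lhs => rw [← b.sum_repr x, Fin.sum_univ_two]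

variable {e f h : Module.End ℂ V} (e0 : e (b 0) = 0) (e1 : e (b 1) = b 0) (f0 : f (b 0) = b 1)
  (f1 : f (b 1) = 0) (h0 : h (b 0) = b 0) (h1 : h (b 1) = - b 1)

include e0 e1 f0 f1 h0 h1 in
/-- the Casimir operator on the tensor square of a plane -/
lemma casimir_bilin (B : V →ₗ[ℂ] V →ₗ[ℂ] ℂ) (x y : V) :
    B (f x) (e y) + B (e x) (f y) + (1 / 2) * B (h x) (h y) = B y x - (1 / 2) * B x y := by
  rw [exp_two b x, exp_two b y]
  generalize b.repr x 0 = x0
  generalize b.repr x 1 = x1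
  generalize b.repr y 0 = y0
  generalize b.repr y 1 = y1
  simp only [map_add, map_smul, e0, e1, f0, f1, h0, h1, smul_zero, zero_add, add_zero,
    LinearMap.add_apply, LinearMap.smul_apply, smul_eq_mul, map_neg, smul_neg,
    LinearMap.neg_apply]
  ring

include b e0 e1 f0 f1 h0 h1 in
lemma casimir_one (x : V) : e (f x) + f (e x) + (1 / 2 : ℂ) • h (h x) = (3 / 2 : ℂ) • x := by
  rw [exp_two b x]
  generalize b.repr x 0 = x0
  generalize b.repr x 1 = x1
  simp only [map_add, map_smul, e0, e1, f0, f1, h0, h1, smul_zero, zero_add, add_zero,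
    map_neg, smul_neg, neg_neg]
  module

/-- the antisymmetric part of a bilinear form on a plane -/
lemma antisymm_bilin {β : V →ₗ[ℂ] V →ₗ[ℂ] ℂ} (halt : ∀ x, β x x = 0) {c : Fin 2 → V}
    (D : Dual β b c) (B : V →ₗ[ℂ] V →ₗ[ℂ] ℂ) (x y : V) :
    B x y - B y x = β x y * ∑ j, B (b j) (c j) := by
  have hsk : ∀ x y, β x y = - β y x := by
    intro x y
    have h1 := halt (x + y)
    simp only [map_add, LinearMap.add_apply, halt, zero_add, add_zero] at h1
    exact eq_neg_of_add_eq_zero_right h1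
  obtain ⟨w, hw⟩ : ∃ w, w = β (b 0) (b 1) := ⟨_, rfl⟩
  have hw' : β (b 1) (b 0) = - w := by rw [hw]; exact hsk _ _
  -- the dual basis
  have k00 := D.d3 0 0
  have k01 := D.d3 0 1
  have k10 := D.d3 1 0
  have k11 := D.d3 1 1
  rw [if_pos rfl] at k00 k11
  rw [if_neg (by decide)] at k01 k10
  obtain ⟨p0, p1, hc0⟩ : ∃ p0 p1, c 0 = p0 • b 0 + p1 • b 1 := ⟨_, _, exp_two b _⟩
  obtain ⟨q0, q1, hc1⟩ : ∃ q0 q1, c 1 = q0 • b 0 + q1 • b 1 := ⟨_, _, exp_two b _⟩
  rw [hc0] at k00 k10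
  rw [hc1] at k01 k11
  simp only [map_add, map_smul, smul_eq_mul, halt, hw', ← hw, mul_zero, zero_add, add_zero]
    at k00 k01 k10 k11
  have hw0 : w ≠ 0 := by
    rintro rfl
    simp at k00
  have hp0 : p0 = 0 := by
    have h5 : p0 * w = 0 := by linear_combination -k10
    exact (mul_eq_zero.mp h5).resolve_right hw0
  have hq1 : q1 = 0 := (mul_eq_zero.mp k01).resolve_right hw0
  rw [Fin.sum_univ_two, hc0, hc1, hp0, hq1, exp_two b x, exp_two b y]
  generalize b.repr x 0 = x0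
  generalize b.repr x 1 = x1
  generalize b.repr y 0 = y0
  generalize b.repr y 1 = y1
  simp only [map_add, map_smul, LinearMap.add_apply, LinearMap.smul_apply, smul_eq_mul, halt,
    hw', ← hw, zero_smul, zero_add, add_zero, mul_zero]
  linear_combination (-(x0 * y1 - x1 * y0) * B (b 0) (b 1)) * k00 +
    (-(x0 * y1 - x1 * y0) * B (b 1) (b 0)) * (-1 : ℂ) * k11

end bilin

section family

variable {I : Type} [Fintype I] [DecidableEq I] (n : I → ℕ)
  {κ : I → Type} [∀ i, Fintype (κ i)] [∀ i, DecidableEq (κ i)] {ϖ : ℂ}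
  (P : ∀ i, PData (κ i) ϖ)
  {K : I → Type} [∀ i, Field (K i)] [∀ i, NumberField (K i)] {r : I → ℕ}
  (F : ∀ i, UF (P i) (K i) (r i))
  {k : ℕ} (α : MultilinearMap ℂ (fun _ : Fin (2 * k) => HW κ n) ℂ)

/-- the basis of the plane of a place of rank two -/
noncomputable def b2 (s : Emb K) (hs : r s.1 = 2) : Basis (Fin 2) ℂ (Vs n P F α s) :=
  (bV n P F α s).reindex (finCongr hs)

/-- the elements of the Lie algebra which act on the plane `s` only -/
def FreeAt (s : Emb K) (hs : r s.1 = 2) : Prop :=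
  ∀ Z : Matrix (Fin 2) (Fin 2) ℂ, Z.trace = 0 → ∃ a : LL n P F α,
    mt (b2 n P F α s hs) a = Z ∧ ∀ t : Emb K, t ≠ s → ∀ v : Vs n P F α t, ⁅a, v⁆ = 0

/-- the pairing of two copies of a real place -/
lemma bf_real2 {i : I} {m m' : Fin (n i)} {σ : K i →+* ℂ}
    (hσ : ComplexEmbedding.conjugate σ = σ)
    (u w : HW κ n) : bf n P F i m m' σ u w = bp n P F α i σ σ
      (outS n P F α ⟨i, m, σ⟩ u) (outS n P F α ⟨i, m', σ⟩ w) := by
  rw [bf_apply, bp_apply, hσ]
  have h1 := outS_apply n P F α ⟨i, m, σ⟩ u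
  have h2 := outS_apply n P F α ⟨i, m', σ⟩ w
  simp only at h1 h2
  rw [h1, h2]

/-- dual families for two copies of a real place -/
noncomputable def peR {i : I} {m m' : Fin (n i)} {σ : K i →+* ℂ}
    (hσ : ComplexEmbedding.conjugate σ = σ) {d : ℕ} {b c : Fin d → Vs n P F α ⟨i, σ⟩}
    (D : Dual (bp n P F α i σ σ) b c) :
    PE (symG n P α) (EE n P F) (⟨i, m, σ⟩ : At n K) ⟨i, m', σ⟩ d where
  ω := bf n P F i m m' σ
  hω := by rw [invF_symG]; exact bf_mem n P F α i m m' σ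
  b j := inS n P F α ⟨i, m, σ⟩ (b j)
  c j := inS n P F α ⟨i, m', σ⟩ (c j)
  hb w := by
    rw [EE_eq n P F α]
    conv_lhs => rw [D.d1 (outS n P F α ⟨i, m, σ⟩ w), map_sum]
    refine Finset.sum_congr rfl fun j _ => ?_
    rw [map_smul, bf_real2 n P F α hσ, out_in]
  hc w := by
    rw [EE_eq n P F α]
    conv_lhs => rw [D.d2 (outS n P F α ⟨i, m', σ⟩ w), map_sum]
    refine Finset.sum_congr rfl fun j _ => ?_
    rw [map_smul, bf_real2 n P F α hσ, out_in]

variable {R : Type*} [DecidableEq R] {q : R → At n K} {T : Finset R} {Φ : (R → HW κ n) → ℂ}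

/-- the pairing with the other slots at a free plane -/
theorem free_step (hk : IsKilling ℂ (LL n P F α)) (h : SF (symG n P α) (EE n P F) q T Φ)
    {i : I} {σ : K i →+* ℂ} (hσ : ComplexEmbedding.conjugate σ = σ) (hri : r i = 2)
    (hfree : FreeAt n P F α ⟨i, σ⟩ hri) {r0 : R} (hr0 : r0 ∈ T) (hq0 : pl n (q r0) = ⟨i, σ⟩)
    (ih : ∀ t ∈ T, t ≠ r0 → pl n (q t) = ⟨i, σ⟩ → ∀ Ψ : (R → HW κ n) → ℂ,
      SF (symG n P α) (EE n P F) q (T \ {r0, t}) Ψ → Ψ ∈ PS (invB n P α) (T \ {r0, t})) :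
    Φ ∈ PS (invB n P α) T := by
  classical
  have h0 := h.toSF0
  -- the labels of the slots at the plane
  have hlab : ∀ t : R, pl n (q t) = ⟨i, σ⟩ → ∃ m : Fin (n i), q t = ⟨i, m, σ⟩ := by
    intro t ht
    rcases hq : q t with ⟨j, m, τ⟩
    rw [hq] at ht
    have hji : j = i := congrArg Sigma.fst ht
    subst hji
    have hτ : τ = σ := sigma_mk_injective (β := fun i => (K i →+* ℂ)) ht
    subst hτ
    exact ⟨m, rfl⟩
  obtain ⟨C, hCd⟩ : ∃ C, C = (T.filter fun t => pl n (q t) = ⟨i, σ⟩).erase r0 := ⟨_, rfl⟩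
  have hCm : ∀ t, t ∈ C ↔ t ≠ r0 ∧ t ∈ T ∧ pl n (q t) = ⟨i, σ⟩ := by
    intro t
    rw [hCd, Finset.mem_erase, Finset.mem_filter]
  have hCT : C ⊆ T := fun t ht => ((hCm t).mp ht).2.1
  have hr0C : r0 ∉ C := fun ht => ((hCm r0).mp ht).1 rfl
  obtain ⟨m0, hm0⟩ := hlab r0 hq0
  have hm : ∀ t ∈ C, ∃ m : Fin (n i), q t = ⟨i, m, σ⟩ := fun t ht =>
    hlab t ((hCm t).mp ht).2.2
  -- the dual basis of the plane
  obtain ⟨b, hb⟩ : ∃ b, b = b2 n P F α ⟨i, σ⟩ hri := ⟨_, rfl⟩
  have halt : ∀ x, bp n P F α i σ σ x x = 0 := fun x => psi_e_self (P i) _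
  obtain ⟨w, hw⟩ : ∃ w, w = bp n P F α i σ σ (b 0) (b 1) := ⟨_, rfl⟩
  have hw' : bp n P F α i σ σ (b 1) (b 0) = - w := by rw [hw]; exact bp_flip n P F α i σ σ _ _
  have hw0 : w ≠ 0 := by
    intro hw0
    apply b.ne_zero 0
    refine bp_ndr n P F α i σ σ hσ.symm (b 0) fun y => ?_
    rw [exp_two b y, map_add, LinearMap.add_apply, map_smul, map_smul, LinearMap.smul_apply,
      LinearMap.smul_apply, halt, hw', hw0, neg_zero, smul_zero, smul_zero, add_zero]
  obtain ⟨c, hc⟩ : ∃ c : Fin 2 → Vs n P F α ⟨i, σ⟩, c = ![w⁻¹ • b 1, -w⁻¹ • b 0] := ⟨_, rfl⟩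
  have hc0 : c 0 = w⁻¹ • b 1 := by rw [hc]; rfl
  have hc1 : c 1 = -w⁻¹ • b 0 := by rw [hc]; rfl
  have D : Dual (bp n P F α i σ σ) b c := by
    refine ⟨fun v => ?_, fun v => ?_, fun j l => ?_⟩
    · rw [Fin.sum_univ_two, hc0, hc1, exp_two b v]
      simp only [map_add, map_smul, LinearMap.add_apply, LinearMap.smul_apply, smul_eq_mul, halt,
        ← hw, hw', mul_zero, zero_add, add_zero]
      congr 2
      · field_simp
      · field_simp
    · rw [Fin.sum_univ_two, hc0, hc1, exp_two b v]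
      simp only [map_add, map_smul, LinearMap.add_apply, LinearMap.smul_apply, smul_eq_mul, halt,
        ← hw, hw', mul_zero, zero_add, add_zero, smul_smul]
      rw [add_comm]
      congr 2
      · field_simp
      · field_simp
    · have hj : j = 0 ∨ j = 1 := by fin_cases j <;> simp
      have hl : l = 0 ∨ l = 1 := by fin_cases l <;> simp
      rcases hj with rfl | rfl <;> rcases hl with rfl | rfl
      · rw [hc0, map_smul, ← hw, smul_eq_mul, inv_mul_cancel₀ hw0, if_pos rfl]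
      · rw [hc1, map_smul, halt, smul_zero, if_neg (by decide)]
      · rw [hc0, map_smul, halt, smul_zero, if_neg (by decide)]
      · rw [hc1, map_smul, hw', smul_eq_mul, neg_mul_neg, inv_mul_cancel₀ hw0, if_pos rfl]
  -- the elements acting on the plane
  have hact : ∀ (Z : Matrix (Fin 2) (Fin 2) ℂ), Z.trace = 0 → ∃ a : LL n P F α,
      (∀ j, ⁅a, b j⁆ = Z 0 j • b 0 + Z 1 j • b 1) ∧
      ∀ t : Emb K, t ≠ ⟨i, σ⟩ → ∀ v : Vs n P F α t, ⁅a, v⁆ = 0 := by
    intro Z hZ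
    obtain ⟨a, ha, ha'⟩ := hfree Z hZ
    refine ⟨a, fun j => ?_, ha'⟩
    rw [← hb] at ha
    rw [← mt_toLin b, ha, Matrix.toLin_self, Fin.sum_univ_two]
  obtain ⟨e, he, he'⟩ := hact mE tr_mE
  obtain ⟨f, hf, hf'⟩ := hact mF tr_mF
  obtain ⟨g, hg, hg'⟩ := hact mH tr_mH
  obtain ⟨Le, hLe⟩ : ∃ L, L = LieModule.toEnd ℂ (LL n P F α) (Vs n P F α ⟨i, σ⟩) e := ⟨_, rfl⟩
  obtain ⟨Lf, hLf⟩ : ∃ L, L = LieModule.toEnd ℂ (LL n P F α) (Vs n P F α ⟨i, σ⟩) f := ⟨_, rfl⟩
  obtain ⟨Lg, hLg⟩ : ∃ L, L = LieModule.toEnd ℂ (LL n P F α) (Vs n P F α ⟨i, σ⟩) g := ⟨_, rfl⟩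
  have e0 : Le (b 0) = 0 := by
    rw [hLe, LieModule.toEnd_apply_apply, he, mE00, mE10, zero_smul, zero_smul, add_zero]
  have e1 : Le (b 1) = b 0 := by
    rw [hLe, LieModule.toEnd_apply_apply, he, mE01, mE11, one_smul, zero_smul, add_zero]
  have f0 : Lf (b 0) = b 1 := by
    rw [hLf, LieModule.toEnd_apply_apply, hf, mF00, mF10, zero_smul, one_smul, zero_add]
  have f1 : Lf (b 1) = 0 := by
    rw [hLf, LieModule.toEnd_apply_apply, hf, mF01, mF11, zero_smul, zero_smul, add_zero]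
  have g0 : Lg (b 0) = b 0 := by
    rw [hLg, LieModule.toEnd_apply_apply, hg]
    simp [mH]
  have g1 : Lg (b 1) = - b 1 := by
    rw [hLg, LieModule.toEnd_apply_apply, hg]
    simp [mH]
  -- the operators of the slots
  obtain ⟨J, hJ⟩ : ∃ J : Fin (n i) → Vs n P F α ⟨i, σ⟩ →ₗ[ℂ] HW κ n,
    J = fun m => inS n P F α ⟨i, m, σ⟩ := ⟨_, rfl⟩
  have hm' : ∀ t, ∃ m : Fin (n i), t ∈ C → q t = ⟨i, m, σ⟩ := by
    intro t
    by_cases ht : t ∈ C
    · obtain ⟨m, hm1⟩ := hm t ht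
      exact ⟨m, fun _ => hm1⟩
    · exact ⟨m0, fun h1 => absurd h1 ht⟩
  choose m hmq using hm'
  obtain ⟨x0, hx0⟩ : ∃ x0 : (R → HW κ n) → Vs n P F α ⟨i, σ⟩,
    x0 = fun v => outS n P F α ⟨i, m0, σ⟩ (v r0) := ⟨_, rfl⟩
  obtain ⟨xt, hxt⟩ : ∃ xt : (R → HW κ n) → R → Vs n P F α ⟨i, σ⟩,
    xt = fun v t => outS n P F α ⟨i, m t, σ⟩ (v t) := ⟨_, rfl⟩
  have lab0 : ∀ v x, Φ (Function.update v r0 x) =
      Φ (Function.update v r0 (J m0 (outS n P F α ⟨i, m0, σ⟩ x))) := by
    intro v x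
    have h5 := h0.lab r0 hr0 (Function.update v r0 x)
    rw [Function.update_self, Function.update_idem, hm0, EE_eq n P F α] at h5
    rw [← h5, hJ]
  have labt : ∀ t ∈ C, ∀ v x, Φ (Function.update v t x) =
      Φ (Function.update v t (J (m t) (outS n P F α ⟨i, m t, σ⟩ x))) := by
    intro t ht v x
    have h5 := h0.lab t (hCT ht) (Function.update v t x)
    rw [Function.update_self, Function.update_idem, hmq t ht, EE_eq n P F α] at h5
    rw [← h5, hJ]
  -- the bilinear forms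
  have hBil : ∀ v, ∀ t ∈ C, ∃ B : Vs n P F α ⟨i, σ⟩ →ₗ[ℂ] Vs n P F α ⟨i, σ⟩ →ₗ[ℂ] ℂ, ∀ x y,
      B x y = Φ (Function.update (Function.update v r0 (J m0 x)) t (J (m t) y)) := by
    intro v t ht
    have hne : r0 ≠ t := fun e => ((hCm t).mp ht).1 e.symm
    refine exists_linear ⟨fun y => ?_, fun x => ?_⟩
    · refine ⟨fun x x' => ?_, fun c x => ?_⟩
      · rw [Function.update_comm hne, Function.update_comm hne, Function.update_comm hne,
          map_add, h0.add _ r0 hr0]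
      · rw [Function.update_comm hne, Function.update_comm hne, map_smul, h0.smul _ r0 hr0,
          smul_eq_mul]
    · exact ⟨fun y y' => by rw [map_add, h0.add _ t (hCT ht)],
        fun c y => by rw [map_smul, h0.smul _ t (hCT ht), smul_eq_mul]⟩
  -- invariance
  have hinv : ∀ (a : LL n P F α), (∀ t : Emb K, t ≠ ⟨i, σ⟩ → ∀ v : Vs n P F α t, ⁅a, v⁆ = 0) →
      ∀ (v : R → HW κ n) (x : Vs n P F α ⟨i, σ⟩),
      Φ (Function.update v r0 (J m0 ⁅a, x⁆)) +
        ∑ t ∈ C, Φ (Function.update (Function.update v r0 (J m0 x)) t (J (m t) ⁅a, xt v t⁆)) =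
        0 := by
    intro a ha v x
    obtain ⟨X, hX, haX, hX2, hXc⟩ := perfect_lift n P F α hk a
    have e5 := h.inv _ ⟨X, hX, rfl⟩ (Function.update v r0 (J m0 x))
    simp only [hX2, mul_zero, zero_mul] at e5
    have e6 : ∑ t ∈ T, Φ (Function.update (Function.update v r0 (J m0 x)) t
        (lift n X.1 ((Function.update v r0 (J m0 x)) t))) = 0 :=
      (mul_eq_zero.mp e5).resolve_left two_ne_zero
    rw [← Finset.add_sum_erase T _ hr0] at e6
    have e7 : ∑ t ∈ T.erase r0, Φ (Function.update (Function.update v r0 (J m0 x)) t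
        (lift n X.1 ((Function.update v r0 (J m0 x)) t))) =
        ∑ t ∈ C, Φ (Function.update (Function.update v r0 (J m0 x)) t (J (m t) ⁅a, xt v t⁆)) := by
      symm
      have hsub : C ⊆ T.erase r0 := fun t ht =>
        Finset.mem_erase.mpr ⟨((hCm t).mp ht).1, hCT ht⟩
      rw [← Finset.sum_subset hsub]
      · refine Finset.sum_congr rfl fun t ht => ?_
        have hne : t ≠ r0 := ((hCm t).mp ht).1
        rw [Function.update_of_ne hne, labt t ht _ (lift n X.1 (v t))]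
        congr 3
        have h6 : outS n P F α ⟨i, m t, σ⟩ (lift n X.1 (v t)) = ⁅a, xt v t⁆ := by
          have h7 : outS n P F α ⟨i, m t, σ⟩ (lift n X.1 (v t)) =
              outS n P F α ⟨i, m t, σ⟩ (lift n X.1 (EE n P F ⟨i, m t, σ⟩ (v t))) := by
            rw [← EE_lift n P F α hX]
            have h8 : ∀ u, outS n P F α (⟨i, m t, σ⟩ : At n K) (EE n P F ⟨i, m t, σ⟩ u) =
                outS n P F α ⟨i, m t, σ⟩ u := by
              intro u
              rw [EE_eq n P F α, out_in]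
            rw [h8]
          rw [h7, EE_eq n P F α, lift_in n P F α X hX, hXc, zero_smul, add_zero, out_in, haX, hxt]
        rw [h6]
      · intro t ht htC
        rw [Finset.mem_erase] at ht
        have hpt : pl n (q t) ≠ ⟨i, σ⟩ := fun h6 => htC ((hCm t).mpr ⟨ht.1, ht.2, h6⟩)
        rw [Function.update_of_ne ht.1]
        have h5 := h0.lab t ht.2 (Function.update (Function.update v r0 (J m0 x)) t
          (lift n X.1 (v t)))
        rw [Function.update_self, Function.update_idem, EE_lift n P F α hX, EE_eq n P F α,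
          lift_in n P F α X hX, hXc, zero_smul, add_zero, ← haX, ha _ hpt, map_zero] at h5
        rw [← h5]
        have h6 := h0.smul (Function.update v r0 (J m0 x)) t ht.2 0 0
        rwa [zero_smul, zero_mul] at h6
    rw [e7, Function.update_self, Function.update_idem] at e6
    have e8 : lift n X.1 (J m0 x) = J m0 ⁅a, x⁆ := by
      rw [hJ]
      show lift n X.1 (inS n P F α ⟨i, m0, σ⟩ x) = inS n P F α ⟨i, m0, σ⟩ ⁅a, x⁆
      rw [lift_in n P F α X hX, hXc, zero_smul, add_zero, haX]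
    rw [e8] at e6
    exact e6
  -- the duality for two slots
  have hPE : ∀ t ∈ C, q r0 = ⟨i, m0, σ⟩ ∧ q t = ⟨i, m t, σ⟩ := fun t ht => ⟨hm0, hmq t ht⟩
  have hPE' : ∀ t ∈ C, ∃ D' : PE (symG n P α) (EE n P F) (q r0) (q t) 2,
      D'.ω = bf n P F i m0 (m t) σ ∧ (∀ j, D'.b j = J m0 (b j)) ∧
      (∀ j, D'.c j = J (m t) (c j)) := by
    intro t ht
    rw [hm0, hmq t ht, hJ]
    exact ⟨peR n P F α hσ D, rfl, fun _ => rfl, fun _ => rfl⟩
  choose D' hD1 hD2 hD3 using hPE'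
  have hcard : ((C.card : ℂ) + 3) / 2 ≠ 0 := by
    have : ((C.card : ℂ) + 3) = ((C.card + 3 : ℕ) : ℂ) := by push_cast; ring
    rw [this]
    refine div_ne_zero ?_ two_ne_zero
    exact_mod_cast (by omega : C.card + 3 ≠ 0)
  rw [← invF_symG]
  refine mem_of_con h hr0 C hCT hr0C D' (((C.card : ℂ) + 3) / 2) hcard ?_ (fun t ht Ψ hΨ => by
    rw [invF_symG]
    exact ih t (hCT ht) ((hCm t).mp ht).1 ((hCm t).mp ht).2.2 Ψ hΨ)
  intro v
  -- the terms of the sum
  have hv0 : Φ v = Φ (Function.update v r0 (J m0 (x0 v))) := by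
    have := lab0 v (v r0)
    rw [Function.update_eq_self] at this
    rw [this, hx0]
  have hvt : ∀ t ∈ C, Φ v = Φ (Function.update (Function.update v r0 (J m0 (x0 v))) t
      (J (m t) (xt v t))) := by
    intro t ht
    have hne : t ≠ r0 := ((hCm t).mp ht).1
    rw [hv0]
    have := labt t ht (Function.update v r0 (J m0 (x0 v))) (v t)
    have h5 : Function.update (Function.update v r0 (J m0 (x0 v))) t (v t) =
        Function.update v r0 (J m0 (x0 v)) := by
      conv_lhs => rw [← Function.update_of_ne hne (J m0 (x0 v)) v]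
      exact Function.update_eq_self t _
    rw [h5] at this
    rw [hxt]
    exact this
  have key : ∀ t ∈ C, ∀ B : Vs n P F α ⟨i, σ⟩ →ₗ[ℂ] Vs n P F α ⟨i, σ⟩ →ₗ[ℂ] ℂ, (∀ x y,
      B x y = Φ (Function.update (Function.update v r0 (J m0 x)) t (J (m t) y))) →
      Φ v - B (xt v t) (x0 v) = bf n P F i m0 (m t) σ (v r0) (v t) * ∑ j, B (b j) (c j) := by
    intro t ht B hB
    rw [hvt t ht, ← hB, antisymm_bilin b halt D B, bf_real2 n P F α hσ, hx0, hxt]
  have hterm : ∀ t ∈ C, ∀ (ht : t ∈ C), (D' t ht).ω (v r0) (v t) * con (D' t ht) r0 t Φ v =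
      Φ v - Φ (Function.update (Function.update v r0 (J m0 (xt v t))) t (J (m t) (x0 v))) := by
    intro t _ ht
    have hne : r0 ≠ t := fun e => ((hCm t).mp ht).1 e.symm
    obtain ⟨B, hB⟩ := hBil v t ht
    rw [← hB, key t ht B hB, hD1, con_eq (D' t ht) hne]
    congr 1
    refine Finset.sum_congr rfl fun j _ => ?_
    rw [hB, hD2, hD3]
  rw [Finset.sum_congr rfl fun (t : {t // t ∈ C}) _ => hterm t.1 t.2 t.2,
    Finset.sum_attach C (fun t => Φ v -
      Φ (Function.update (Function.update v r0 (J m0 (xt v t))) t (J (m t) (x0 v))))]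
  -- the invariance relations
  have i1 := hinv e he' v ⁅f, x0 v⁆
  have i2 := hinv f hf' v ⁅e, x0 v⁆
  have i3 := hinv g hg' v ⁅g, x0 v⁆
  have lin0 : ∀ x y : Vs n P F α ⟨i, σ⟩, Φ (Function.update v r0 (J m0 (x + y))) =
      Φ (Function.update v r0 (J m0 x)) + Φ (Function.update v r0 (J m0 y)) := by
    intro x y
    rw [map_add, h0.add _ r0 hr0]
  have lin1 : ∀ (a : ℂ) (x : Vs n P F α ⟨i, σ⟩), Φ (Function.update v r0 (J m0 (a • x))) =
      a * Φ (Function.update v r0 (J m0 x)) := by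
    intro a x
    rw [map_smul, h0.smul _ r0 hr0]
  have c1 : Φ (Function.update v r0 (J m0 ⁅e, ⁅f, x0 v⁆⁆)) +
      Φ (Function.update v r0 (J m0 ⁅f, ⁅e, x0 v⁆⁆)) +
      (1 / 2) * Φ (Function.update v r0 (J m0 ⁅g, ⁅g, x0 v⁆⁆)) = (3 / 2) * Φ v := by
    have h5 := casimir_one b e0 e1 f0 f1 g0 g1 (x0 v)
    rw [hLe, hLf, hLg] at h5
    simp only [LieModule.toEnd_apply_apply] at h5
    rw [← lin1, ← lin0, ← lin0, h5, lin1, ← hv0]
  have c2 : ∀ t ∈ C,
      Φ (Function.update (Function.update v r0 (J m0 ⁅f, x0 v⁆)) t (J (m t) ⁅e, xt v t⁆)) +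
      Φ (Function.update (Function.update v r0 (J m0 ⁅e, x0 v⁆)) t (J (m t) ⁅f, xt v t⁆)) +
      (1 / 2) *
      Φ (Function.update (Function.update v r0 (J m0 ⁅g, x0 v⁆)) t (J (m t) ⁅g, xt v t⁆)) =
      Φ (Function.update (Function.update v r0 (J m0 (xt v t))) t (J (m t) (x0 v))) -
        (1 / 2) * Φ v := by
    intro t ht
    obtain ⟨B, hB⟩ := hBil v t ht
    have h5 := casimir_bilin b e0 e1 f0 f1 g0 g1 B (x0 v) (xt v t)
    rw [hLe, hLf, hLg] at h5
    simp only [LieModule.toEnd_apply_apply] at h5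
    rw [hvt t ht, ← hB, ← hB, ← hB, ← hB, ← hB, h5]
  have c3 : ∑ t ∈ C, (Φ (Function.update (Function.update v r0 (J m0 (xt v t))) t
      (J (m t) (x0 v))) - (1 / 2) * Φ v) = - ((3 / 2) * Φ v) := by
    rw [← Finset.sum_congr rfl c2, Finset.sum_add_distrib, Finset.sum_add_distrib,
      ← Finset.mul_sum, ← c1]
    linear_combination i1 + i2 + (1 / 2) * i3
  rw [Finset.sum_sub_distrib, Finset.sum_const, nsmul_eq_mul] at c3 ⊢
  linear_combination c3

end family

end Pool.Agent.Helper35.GPC
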