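import Pool.Agent.Helper24.PT.UGen
import Pool.Agent.Helper24.PT.UCore6
import Pool.Agent.Helper8.Lie.P1111
import Pool.Agent.Helper8.Lie.PMixed2

/-!
Galois equivariance of the action of the Lie algebra of a family on the places.
-/

namespace Pool.Agent.Helper35.GPC

open Module NumberField LieAlgebra Pool.Agent.Helper7

attribute [local instance 100] LieRing.ofAssociativeRing

open Pool.Agent.GPC (Emb IsOdd IsOddModule translate)
open Pool.Agent.Helper24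

set_option linter.unusedSectionVars false

section family

variable {I : Type} [Fintype I] [DecidableEq I] (n : I → ℕ)
  {κ : I → Type} [∀ i, Fintype (κ i)] [∀ i, DecidableEq (κ i)] {ϖ : ℂ}
  (P : ∀ i, PData (κ i) ϖ)
  {K : I → Type} [∀ i, Field (K i)] [∀ i, NumberField (K i)] {r : I → ℕ}
  (F : ∀ i, UF (P i) (K i) (r i))
  {k : ℕ} (α : MultilinearMap ℂ (fun _ : Fin (2 * k) => HW κ n) ℂ)

/-- the entries of the normalised action at a place -/
noncomputable def nM (X : GG κ) (i : I) (σ : K i →+* ℂ) : Matrix (Fin (r i)) (Fin (r i)) ℂ :=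
  Matrix.of fun a b => (F i).co σ a (X.1 i ((F i).e σ b)) -
    ch P F ⟨i, σ⟩ X * (if a = b then 1 else 0)

lemma nM_apply (X : GG κ) (i : I) (σ : K i →+* ℂ) (a b : Fin (r i)) :
    nM P F X i σ a b = (F i).co σ a (X.1 i ((F i).e σ b)) -
    ch P F ⟨i, σ⟩ X * (if a = b then 1 else 0) := rfl

lemma nM_add (X Y : GG κ) (i : I) (σ : K i →+* ℂ) :
    nM P F (X + Y) i σ = nM P F X i σ + nM P F Y i σ := by
  ext a b
  rw [Matrix.add_apply, nM_apply, nM_apply, nM_apply, ch_add]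
  show (F i).co σ a (X.1 i ((F i).e σ b) + Y.1 i ((F i).e σ b)) - _ = _
  rw [map_add]; ring

lemma nM_smul (c : ℂ) (X : GG κ) (i : I) (σ : K i →+* ℂ) :
    nM P F (c • X) i σ = c • nM P F X i σ := by
  ext a b
  rw [Matrix.smul_apply, nM_apply, nM_apply, ch_smul]
  show (F i).co σ a (c • X.1 i ((F i).e σ b)) - _ = _
  rw [map_smul, smul_eq_mul, smul_eq_mul]; ring

lemma nM_zero (i : I) (σ : K i →+* ℂ) : nM P F (0 : GG κ) i σ = 0 := by
  have h := nM_smul P F 0 (0 : GG κ) i σ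
  rw [zero_smul, zero_smul] at h
  exact h

lemma nM_galois (Y : GG κ) (hY : IsInv n P α Y) (hr : IsRatl P Y) (τ : ℂ ≃+* ℂ) (i : I)
    (σ : K i →+* ℂ) :
    nM P F Y i ((τ : ℂ →+* ℂ).comp σ) = (nM P F Y i σ).map τ := by
  classical
  obtain ⟨m, hm⟩ := (F i).exists_matK (Y.1 i) (hr.1 i)
  obtain ⟨x, hx⟩ := tw_rat (F i) (Y.1 i) (commK n P F α hY i) (hr.1 i)
  have hco : ∀ (σ : K i →+* ℂ) (a b : Fin (r i)),
      nM P F Y i σ a b = σ (m a b) - σ x * (if a = b then 1 else 0) := by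
    intro σ a b
    rw [nM_apply, (F i).act_e _ (commK n P F α hY i) m hm, map_sum, Finset.sum_eq_single a]
    · rw [map_smul, co_e_same, if_pos rfl, smul_eq_mul, mul_one]
      congr 2
      exact hx σ
    · intro c _ hc
      rw [map_smul, co_e_same, if_neg (Ne.symm hc), smul_zero]
    · intro h; exact absurd (Finset.mem_univ _) h
  ext a b
  rw [Matrix.map_apply, hco, hco, map_sub, map_mul]
  split_ifs
  · rw [map_one]; rfl
  · rw [map_zero]; rfl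

/-- the matrix of an element of the Lie algebra at a place -/
noncomputable def mx (i : I) (σ : K i →+* ℂ) (a : LL n P F α) :
    Matrix (Fin (r i)) (Fin (r i)) ℂ :=
  LinearMap.toMatrix (bV n P F α ⟨i, σ⟩) (bV n P F α ⟨i, σ⟩)
    (LieModule.toEnd ℂ (LL n P F α) (Vs n P F α ⟨i, σ⟩) a)

lemma mx_elL (i : I) (σ : K i →+* ℂ) (X : GG κ) (hX : IsInv n P α X) :
    mx n P F α i σ (elL n P F α X hX) = nM P F X i σ := by
  ext a b
  rw [mx, LinearMap.toMatrix_apply, LieModule.toEnd_apply_apply, bV_repr,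
    elL_act n P F α X hX ⟨i, σ⟩, bV_coe, map_sub, map_smul, co_e_same, smul_eq_mul]
  rfl

lemma mx_bracket (i : I) (σ : K i →+* ℂ) (a b : LL n P F α) :
    mx n P F α i σ ⁅a, b⁆ = mx n P F α i σ a * mx n P F α i σ b -
      mx n P F α i σ b * mx n P F α i σ a := by
  rw [mx, mx, mx, LieHom.map_lie, Ring.lie_def, map_sub, LinearMap.toMatrix_mul,
    LinearMap.toMatrix_mul]

lemma mx_zero_iff (i : I) (σ : K i →+* ℂ) (a : LL n P F α) :
    mx n P F α i σ a = 0 ↔ ∀ x : Vs n P F α ⟨i, σ⟩, ⁅a, x⁆ = 0 := by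
  rw [mx, LinearEquiv.map_eq_zero_iff]
  constructor
  · intro h x
    rw [← LieModule.toEnd_apply_apply ℂ, h]; rfl
  · intro h
    ext x
    rw [LieModule.toEnd_apply_apply, h]; rfl

/-- the Lie algebra acts faithfully -/
lemma eq_zero_of_mx (a : LL n P F α) (h : ∀ i σ, mx n P F α i σ a = 0) : a = 0 := by
  obtain ⟨X, hX, rfl⟩ := exists_elL n P F α a
  have ha : ∀ (i : I) (σ : K i →+* ℂ) (x : Vs n P F α ⟨i, σ⟩), ⁅elL n P F α X hX, x⁆ = 0 :=
    fun i σ => (mx_zero_iff n P F α i σ _).mp (h i σ)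
  apply Subtype.ext
  show phi P F X = 0
  apply LinearMap.ext
  intro v
  funext i
  have h2 : ∀ σ : K i →+* ℂ, X.1 i (proj (F i).ρ σ (v i)) -
      dd P F X i (proj (F i).ρ σ (v i)) = 0 := by
    intro σ
    have h3 := congrArg (fun x : Vs n P F α ⟨i, σ⟩ => (x : MM κ) i)
      (ha i σ (toVs n P F α ⟨i, σ⟩ (v i)))
    have h4 : ((⁅elL n P F α X hX, toVs n P F α ⟨i, σ⟩ (v i)⁆ : Vs n P F α ⟨i, σ⟩) : MM κ) i =
        0 := h3
    rw [elL_act n P F α X hX ⟨i, σ⟩, toVs_apply n P F α ⟨i, σ⟩] at h4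
    rw [dd_proj]
    exact h4
  rw [phi_apply]
  have h3 := sum_proj_apply (F i).ρ (v i)
  rw [h3, map_sum, map_sum, ← Finset.sum_sub_distrib]
  exact Finset.sum_eq_zero fun σ _ => h2 σ

variable (hϖ : ϖ ≠ 0)
  (hB : ∀ v : Fin (2 * k) → HW κ n, (∀ r, IsRatP n P (v r)) → ∃ q : ℚ, α v = ϖ ^ k * q)

include hϖ hB in
/-- the translate of a symmetry -/
lemma exists_twistU (τ : ℂ ≃+* ℂ) (X : GG κ) (hX : IsInv n P α X) :
    ∃ X', IsInv n P α X' ∧ ∀ (i : I) (σ : K i →+* ℂ),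
      nM P F X i ((τ : ℂ →+* ℂ).comp σ) = (nM P F X' i σ).map τ := by
  have h1 := mem_span_of_isInv n P α hϖ hB X hX
  refine Submodule.span_induction (p := fun X _ => ∃ X', IsInv n P α X' ∧
    ∀ (i : I) (σ : K i →+* ℂ),
      nM P F X i ((τ : ℂ →+* ℂ).comp σ) = (nM P F X' i σ).map τ) ?_ ?_ ?_ ?_ h1
  · intro Y hY
    exact ⟨Y, hY.1, fun i σ => nM_galois n P F α Y hY.1 hY.2 τ i σ⟩
  · refine ⟨0, IsInv.zero n P α, fun i σ => ?_⟩
    rw [nM_zero, nM_zero]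
    ext a b
    rw [Matrix.map_apply, Matrix.zero_apply, map_zero]
  · rintro X Y _ _ ⟨X', hX', h2⟩ ⟨Y', hY', h3⟩
    refine ⟨X' + Y', hX'.add n P α hY', fun i σ => ?_⟩
    rw [nM_add, nM_add, h2, h3]
    ext a b
    simp only [Matrix.add_apply, Matrix.map_apply, map_add]
  · rintro c X _ ⟨X', hX', h2⟩
    refine ⟨τ.symm c • X', hX'.smul n P α _, fun i σ => ?_⟩
    rw [nM_smul, nM_smul, h2]
    ext a b
    simp only [Matrix.smul_apply, Matrix.map_apply, smul_eq_mul, map_mul,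
      RingEquiv.apply_symm_apply]

/-- `a'` is the translate of `a` -/
def Tw (τ : ℂ ≃+* ℂ) (a a' : LL n P F α) : Prop :=
  ∀ (i : I) (σ : K i →+* ℂ),
    mx n P F α i ((τ : ℂ →+* ℂ).comp σ) a = (mx n P F α i σ a').map τ

include hϖ hB in
lemma exists_tw (τ : ℂ ≃+* ℂ) (a : LL n P F α) : ∃ a', Tw n P F α τ a a' := by
  obtain ⟨X, hX, rfl⟩ := exists_elL n P F α a
  obtain ⟨X', hX', h⟩ := exists_twistU n P F α hϖ hB τ X hX
  refine ⟨elL n P F α X' hX', fun i σ => ?_⟩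
  rw [mx_elL, mx_elL, h]

lemma comp_symm_comp {K : Type} [Field K] (τ : ℂ ≃+* ℂ) (σ : K →+* ℂ) :
    (τ : ℂ →+* ℂ).comp ((τ.symm : ℂ →+* ℂ).comp σ) = σ := by
  refine RingHom.ext fun x => ?_
  show τ (τ.symm (σ x)) = σ x
  exact RingEquiv.apply_symm_apply τ _

lemma symm_comp_comp {K : Type} [Field K] (τ : ℂ ≃+* ℂ) (σ : K →+* ℂ) :
    (τ.symm : ℂ →+* ℂ).comp ((τ : ℂ →+* ℂ).comp σ) = σ := by
  refine RingHom.ext fun x => ?_
  show τ.symm (τ (σ x)) = σ x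
  exact RingEquiv.symm_apply_apply τ _

variable {n P F α}

lemma Tw.symm {τ : ℂ ≃+* ℂ} {a a' : LL n P F α} (h : Tw n P F α τ a a') :
    Tw n P F α τ.symm a' a := by
  intro i σ
  have h1 := h i ((τ.symm : ℂ →+* ℂ).comp σ)
  rw [comp_symm_comp] at h1
  rw [h1]
  ext x y
  rw [Matrix.map_apply, Matrix.map_apply, RingEquiv.symm_apply_apply]

include hϖ hB in
lemma exists_tw' (τ : ℂ ≃+* ℂ) (a' : LL n P F α) : ∃ a, Tw n P F α τ a a' := by
  obtain ⟨a, ha⟩ := exists_tw n P F α hϖ hB τ.symm a'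
  exact ⟨a, ha.symm⟩

lemma map_mul_ring {d : ℕ} (τ : ℂ ≃+* ℂ) (A B : Matrix (Fin d) (Fin d) ℂ) :
    (A * B).map τ = A.map τ * B.map τ := by
  ext i j
  simp only [Matrix.map_apply, Matrix.mul_apply, map_sum, map_mul]

lemma map_eq_zero_ring {d : ℕ} (τ : ℂ ≃+* ℂ) (A : Matrix (Fin d) (Fin d) ℂ) :
    A.map τ = 0 ↔ A = 0 := by
  constructor
  · intro h
    ext i j
    have := congrFun (congrFun h i) j
    rw [Matrix.map_apply, Matrix.zero_apply] at this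
    exact (map_eq_zero_iff τ τ.injective).mp this
  · rintro rfl
    ext i j
    rw [Matrix.map_apply, Matrix.zero_apply, map_zero]

/-- `a` centralises the kernel of the place -/
def Cen (n : I → ℕ) (P : ∀ i, PData (κ i) ϖ) (F : ∀ i, UF (P i) (K i) (r i))
    (α : MultilinearMap ℂ (fun _ : Fin (2 * k) => HW κ n) ℂ) (i : I) (σ : K i →+* ℂ)
    (a : LL n P F α) : Prop :=
  ∀ b : LL n P F α, mx n P F α i σ b = 0 → ⁅a, b⁆ = 0

include hϖ hB in
/-- Galois equivariance of the centralisers -/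
lemma Cen.tw {τ : ℂ ≃+* ℂ} {a a' : LL n P F α} (h : Tw n P F α τ a a') {i : I}
    {σ : K i →+* ℂ} (hc : Cen n P F α i σ a') : Cen n P F α i ((τ : ℂ →+* ℂ).comp σ) a := by
  intro b hb
  obtain ⟨b', hb'⟩ := exists_tw n P F α hϖ hB τ b
  have h1 : mx n P F α i σ b' = 0 := by
    have := hb' i σ
    rw [hb] at this
    exact (map_eq_zero_ring τ _).mp this.symm
  have h2 := hc b' h1
  refine eq_zero_of_mx n P F α _ fun j ρ => ?_
  have h3 := h j ((τ.symm : ℂ →+* ℂ).comp ρ)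
  have h4 := hb' j ((τ.symm : ℂ →+* ℂ).comp ρ)
  rw [comp_symm_comp] at h3 h4
  have h5 : mx n P F α j ((τ.symm : ℂ →+* ℂ).comp ρ) ⁅a', b'⁆ = 0 := by
    rw [h2, mx, map_zero, map_zero]
  rw [mx_bracket] at h5 ⊢
  rw [h3, h4, ← map_mul_ring, ← map_mul_ring, sub_eq_zero.mp h5, sub_self]

variable (n P F α)

include hϖ hB in
/-- non-trivial action of the centraliser -/
theorem act_galois (τ : ℂ ≃+* ℂ) (i j : I) (σ : K i →+* ℂ) (ρ : K j →+* ℂ)
    (h : ∃ a, Cen n P F α i σ a ∧ mx n P F α j ρ a ≠ 0) :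
    ∃ a, Cen n P F α i ((τ : ℂ →+* ℂ).comp σ) a ∧ mx n P F α j ((τ : ℂ →+* ℂ).comp ρ) a ≠ 0 := by
  obtain ⟨a', h1, h2⟩ := h
  obtain ⟨a, ha⟩ := exists_tw' hϖ hB τ a'
  refine ⟨a, h1.tw hϖ hB ha, fun h3 => h2 ?_⟩
  rw [ha] at h3
  exact (map_eq_zero_ring τ _).mp h3

include hϖ hB in
/-- scalar squares of the elements of the centraliser -/
theorem sq_galois (τ : ℂ ≃+* ℂ) (i j : I) (σ : K i →+* ℂ) (ρ : K j →+* ℂ)
    (h : ∀ a, Cen n P F α i σ a → ∃ c : ℂ, mx n P F α j ρ a * mx n P F α j ρ a = c • 1)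
    (a : LL n P F α) (ha : Cen n P F α i ((τ : ℂ →+* ℂ).comp σ) a) :
    ∃ c : ℂ, mx n P F α j ((τ : ℂ →+* ℂ).comp ρ) a * mx n P F α j ((τ : ℂ →+* ℂ).comp ρ) a =
      c • 1 := by
  obtain ⟨a', ha'⟩ := exists_tw n P F α hϖ hB τ a
  have h1 : Cen n P F α i σ a' := by
    have := ha.tw hϖ hB ha'.symm
    rwa [symm_comp_comp] at this
  obtain ⟨c, hc⟩ := h a' h1
  refine ⟨τ c, ?_⟩
  rw [ha' j ρ, ← map_mul_ring, hc]
  ext x y
  simp only [Matrix.map_apply, Matrix.smul_apply, smul_eq_mul, map_mul, Matrix.one_apply]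
  split_ifs
  · rw [map_one]
  · rw [map_zero]

end family

end Pool.Agent.Helper35.GPC
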