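import Pool.Agent.Helper24.PT.LPar
import Pool.Agent.Helper35.GPC.FourDvd
import Pool.Agent.Helper8.Lie.Classify
import Pool.Agent.Helper8.Lie.Num4
import Pool.Agent.Helper8.Lie.NumRest
import Pool.Agent.Helper8.Lie.Semisimple

/-!
Parities of weights: elements of disjoint ideals which have odd weights on one of several planes
and act trivially on the others, and their weights on an irreducible module whose dimension is
not divisible by four.
-/

namespace Pool.Agent.Helper35.GPC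

open Module LieAlgebra LieModule
open Pool.Agent.Helper8 (Principal Symp ML2 Inv2 irr_cases exists_principal)
open Pool.Agent.Helper7 (ConjRep goursat_finset sl2_mem mE mF mH tr_mE tr_mF tr_mH mE00 mE01 mE10
  mE11 mF00 mF01 mF10 mF11)
open Pool.Agent.Helper24 (ProjTriple exists_projTriple exists_parity kerI mt mt_apply mt_br
  mt_toLin mt_surj not_conjRep lie_zero_of_disjoint trace_parity)

set_option linter.unusedSectionVars false

attribute [local instance 100] LieRing.ofAssociativeRing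

variable {L : Type*} [LieRing L] [LieAlgebra ℂ L] [FiniteDimensional ℂ L] [IsKilling ℂ L]

lemma mem_kerI {T : Type*} (V : T → Type*) [∀ t, AddCommGroup (V t)] [∀ t, Module ℂ (V t)]
    [∀ t, LieRingModule L (V t)] [∀ t, LieModule ℂ L (V t)] (S : Finset T) (x : L) :
    x ∈ kerI V S ↔ ∀ t ∈ S, ∀ v : V t, ⁅x, v⁆ = 0 := Iff.rfl

/-- elements of disjoint ideals, acting on one plane like the principal element -/
theorem exists_plane_triples {T : Type*} (V : T → Type*) [∀ t, AddCommGroup (V t)]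
    [∀ t, Module ℂ (V t)] [∀ t, LieRingModule L (V t)] [∀ t, LieModule ℂ L (V t)]
    [∀ t, LieModule.IsIrreducible ℂ L (V t)]
    (b : ∀ t, Basis (Fin 2) ℂ (V t))
    (htr : ∀ t (a : L), LinearMap.trace ℂ (V t) (toEnd ℂ L (V t) a) = 0)
    (S : Finset T) (hω : ∀ s ∈ S, ∃ ω : V s →ₗ[ℂ] V s →ₗ[ℂ] ℂ, Symp L ω)
    (hS : ∀ s ∈ S, ∀ t ∈ S, s ≠ t → ∀ f : V s → V t → ℂ, ML2 f → Inv2 L f → ∀ x y, f x y = 0)
    (p : Principal L) :
    ∃ (J : T → LieIdeal ℂ L) (h e f : T → L),
      (∀ s ∈ S, ProjTriple (J s) p.h (h s) (e s) (f s)) ∧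
      (∀ s ∈ S, ∀ t ∈ S, t ≠ s → ∀ x ∈ J s, ∀ v : V t, ⁅x, v⁆ = 0) ∧
      (∀ s ∈ S, ∀ v : V s, ⁅h s, v⁆ = ⁅p.h, v⁆) ∧
      (∀ s ∈ S, ∀ t ∈ S, s ≠ t → Disjoint (J s) (J t)) := by
  classical
  obtain ⟨C, hC⟩ := exists_isCompl (kerI (L := L) V S)
  have hJ : ∀ s : T, ∃ h e f, ProjTriple (kerI V (S.erase s) ⊓ C) p.h h e f := fun s =>
    exists_projTriple p _
  choose h e f hp using hJ
  refine ⟨fun s => kerI V (S.erase s) ⊓ C, h, e, f, fun s _ => hp s, ?_, ?_, ?_⟩
  · intro s _ t ht hts x hx v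
    have h1 : x ∈ kerI V (S.erase s) := ((LieSubmodule.mem_inf _ _ x).mp hx).1
    exact h1 t (Finset.mem_erase.mpr ⟨hts, ht⟩) v
  · intro s hs
    obtain ⟨ω, hω'⟩ := hω s hs
    have hG := goursat_finset (fun x y : L => ⁅x, y⁆) (fun t => mt (L := L) (b t)) 0
      (fun t X Y => mt_br (b t) X Y) (fun t X => by
        rw [mt_apply, ← LinearMap.trace_eq_matrix_trace, htr, LinearMap.zero_apply])
      (fun t Z hZ => mt_surj (b t) Z hZ) s (S.erase s) (fun t ht => not_conjRep b s t hω'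
        (hS s hs t (Finset.mem_of_mem_erase ht) (Finset.ne_of_mem_erase ht).symm))
    have hG' : ∀ Z : Matrix (Fin 2) (Fin 2) ℂ, Z.trace = 0 →
        ∃ X ∈ kerI V (S.erase s) ⊓ C, mt (L := L) (b s) X = Z := by
      intro Z hZ
      obtain ⟨X, hX, hX'⟩ := hG Z hZ
      have hXk : X ∈ kerI V (S.erase s) := by
        intro t ht v
        rw [← mt_toLin (b t), hX' t ht, map_zero, LinearMap.zero_apply]
      obtain ⟨X1, hX1, X2, hX2, hX12⟩ : ∃ y ∈ kerI (L := L) V S, ∃ z ∈ C, y + z = X := by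
        rw [← LieSubmodule.mem_sup, hC.sup_eq_top]
        exact LieSubmodule.mem_top X
      have h1 : X1 ∈ kerI V (S.erase s) := fun t ht v => hX1 t (Finset.mem_of_mem_erase ht) v
      have h2 : X2 = X - X1 := by rw [← hX12]; abel
      refine ⟨X2, (LieSubmodule.mem_inf _ _ X2).mpr ⟨?_, hX2⟩, ?_⟩
      · rw [h2]
        exact (kerI V (S.erase s)).sub_mem hXk h1
      · have h3 : mt (L := L) (b s) X1 = 0 := by
          rw [mt_apply]
          have h4 : toEnd ℂ L (V s) X1 = 0 := by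
            ext v
            rw [toEnd_apply_apply, LinearMap.zero_apply]
            exact hX1 s hs v
          rw [h4, map_zero]
        rw [h2, map_sub, hX, h3, sub_zero]
    obtain ⟨XE, hE', hE⟩ := hG' mE tr_mE
    obtain ⟨XF, hF', hF⟩ := hG' mF tr_mF
    have cE := (hp s).comm XE hE'
    have cF := (hp s).comm XF hF'
    have dE := mt_br (b s) (p.h - h s) XE
    have dF := mt_br (b s) (p.h - h s) XF
    rw [cE, hE, map_zero] at dE
    rw [cF, hF, map_zero] at dF
    have tr : (mt (b s) (p.h - h s)).trace = 0 := by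
      rw [mt_apply, ← LinearMap.trace_eq_matrix_trace, htr]
    obtain ⟨M, hM⟩ : ∃ M, M = mt (b s) (p.h - h s) := ⟨_, rfl⟩
    rw [← hM] at dE dF tr
    have m1 : M 1 0 = 0 := by
      have := congrFun (congrFun dE 0) 0
      simp only [Matrix.sub_apply, Matrix.mul_apply, Fin.sum_univ_two, mE00, mE01, mE10,
        Matrix.zero_apply] at this
      linear_combination this
    have m2 : M 0 0 = M 1 1 := by
      have := congrFun (congrFun dE 0) 1
      simp only [Matrix.sub_apply, Matrix.mul_apply, Fin.sum_univ_two, mE00, mE01, mE11,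
        Matrix.zero_apply] at this
      linear_combination -this
    have m3 : M 0 1 = 0 := by
      have := congrFun (congrFun dF 0) 0
      simp only [Matrix.sub_apply, Matrix.mul_apply, Fin.sum_univ_two, mF00, mF10, mF01,
        Matrix.zero_apply] at this
      linear_combination -this
    rw [Matrix.trace_fin_two] at tr
    have hM0 : M = 0 := by
      ext i j
      fin_cases i <;> fin_cases j
      · show M 0 0 = 0
        linear_combination tr / 2 + m2 / 2
      · exact m3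
      · exact m1
      · show M 1 1 = 0
        linear_combination tr / 2 - m2 / 2
    intro v
    have h1 := mt_toLin (b s) (p.h - h s) v
    rw [← hM, hM0, map_zero, LinearMap.zero_apply, sub_lie] at h1
    exact (sub_eq_zero.mp h1.symm).symm
  · intro s _ t _ hst
    rw [disjoint_iff, LieSubmodule.eq_bot_iff]
    intro x hx
    have h1 := (LieSubmodule.mem_inf _ _ x).mp hx
    have h2 := (LieSubmodule.mem_inf _ _ x).mp h1.1
    have h3 := (LieSubmodule.mem_inf _ _ x).mp h1.2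
    have h4 : x ∈ kerI V S := by
      intro u hu v
      by_cases hus : u = s
      · exact h3.1 u (Finset.mem_erase.mpr ⟨by rw [hus]; exact hst, hu⟩) v
      · exact h2.1 u (Finset.mem_erase.mpr ⟨hus, hu⟩) v
    have h5 : x ∈ kerI V S ⊓ C := (LieSubmodule.mem_inf _ _ x).mpr ⟨h4, h2.2⟩
    rw [hC.inf_eq_bot] at h5
    exact (LieSubmodule.mem_bot x).mp h5

section two

variable {J J' : LieIdeal ℂ L} {h0 h e f h' e' f' : L} (pt : ProjTriple J h0 h e f)
  (pt' : ProjTriple J' h0 h' e' f') (hd : Disjoint J J')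
  {V : Type*} [AddCommGroup V] [Module ℂ V] [LieRingModule L V] [LieModule ℂ L V]
  [FiniteDimensional ℂ V]

lemma _root_.Pool.Agent.Helper24.ProjTriple.e_mem {J : LieIdeal ℂ L} {h0 h e f : L}
    (pt : ProjTriple J h0 h e f) : e ∈ J := by
  have h1 : ⁅h, e⁆ ∈ J := lie_mem_left ℂ L J h e pt.hJ
  rw [pt.he] at h1
  have h2 := J.smul_mem (1 / 2 : ℂ) h1
  rwa [smul_smul, show (1 / 2 : ℂ) * 2 = 1 by norm_num, one_smul] at h2

lemma _root_.Pool.Agent.Helper24.ProjTriple.f_mem {J : LieIdeal ℂ L} {h0 h e f : L}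
    (pt : ProjTriple J h0 h e f) : f ∈ J := by
  have h1 : ⁅h, f⁆ ∈ J := lie_mem_left ℂ L J h f pt.hJ
  rw [pt.hf] at h1
  have h2 := J.smul_mem (-1 / 2 : ℂ) h1
  rwa [smul_smul, show (-1 / 2 : ℂ) * -2 = 1 by norm_num, one_smul] at h2

include pt pt' hd in
/-- two odd elements of disjoint ideals -/
theorem four_dvd_of_odd
    (ho : ⊤ ≤ Submodule.span ℂ {v : V | ∃ m : ℤ, Odd m ∧ ⁅h, v⁆ = (m : ℂ) • v})
    (ho' : ⊤ ≤ Submodule.span ℂ {v : V | ∃ m : ℤ, Odd m ∧ ⁅h', v⁆ = (m : ℂ) • v})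
    (htr : LinearMap.trace ℂ V (toEnd ℂ L V h') = 0) : 4 ∣ finrank ℂ V := by
  refine four_dvd (toEnd ℂ L V h) (toEnd ℂ L V h') (toEnd ℂ L V e) (toEnd ℂ L V f) ?_ ?_ ?_
    ho ho' htr
  · rw [← Ring.lie_def, ← LieHom.map_lie, pt.ef]
  · rw [← sub_eq_zero, ← Ring.lie_def, ← LieHom.map_lie,
      lie_zero_of_disjoint hd pt.e_mem pt'.hJ, map_zero]
  · rw [← sub_eq_zero, ← Ring.lie_def, ← LieHom.map_lie,
      lie_zero_of_disjoint hd pt.f_mem pt'.hJ, map_zero]

end two

/-- the parity of an element on an irreducible module -/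
theorem parity_cases {J : LieIdeal ℂ L} {h0 h e f : L} (pt : ProjTriple J h0 h e f)
    (V : Type*) [AddCommGroup V] [Module ℂ V] [LieRingModule L V] [LieModule ℂ L V]
    [FiniteDimensional ℂ V] [LieModule.IsIrreducible ℂ L V] :
    (⊤ ≤ Submodule.span ℂ {v : V | ∃ m : ℤ, Even m ∧ ⁅h, v⁆ = (m : ℂ) • v}) ∨
    (⊤ ≤ Submodule.span ℂ {v : V | ∃ m : ℤ, Odd m ∧ ⁅h, v⁆ = (m : ℂ) • v}) := by
  obtain ⟨n, hn⟩ := exists_parity pt (V := V)
  rcases Int.even_or_odd n with h1 | h1
  · left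
    refine hn.trans (Submodule.span_mono ?_)
    rintro v ⟨m, hm⟩
    exact ⟨n + 2 * m, h1.add (even_two_mul m), hm⟩
  · right
    refine hn.trans (Submodule.span_mono ?_)
    rintro v ⟨m, hm⟩
    exact ⟨n + 2 * m, h1.add_even (even_two_mul m), hm⟩

end Pool.Agent.Helper35.GPC
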