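import Pool.Agent.Helper35.GPC.SixCore
import Pool.Agent.Helper35.GPC.Parity

/-!
Five and six slots at a real place of rank six, and the remaining slot functions of a family with
one special factor of rank six.
-/

namespace Pool.Agent.Helper24.T6

open Module NumberField LieAlgebra Pool.Agent.Helper7

attribute [local instance 100] LieRing.ofAssociativeRing

open Pool.Agent.GPC (Emb IsOdd IsOddModule translate)
open Pool.Agent.Helper8 (SF SF0 PS PS.mul symG invF invF_symG SF.toSF0 SF.factor SF.mem_of_factor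
  mem_of_PS Symp ML2 Inv2 ML4 Inv4 exists_linear SF0.sum SF0.eq_zero_of_eq wsq sqw P4 P31_six
  pair_zero Principal exists_principal Dual schur)
open Pool.Agent.Helper35.GPC (PD contr contr_eq contr_SF alt5_zero alt6_cube cube gg cc dual_cc
  exists_sb6 exists_plane_triples four_dvd_of_odd parity_cases)

set_option linter.unusedSectionVars false

section family

variable {I : Type} [Fintype I] [DecidableEq I] (n : I → ℕ)
  {κ : I → Type} [∀ i, Fintype (κ i)] [∀ i, DecidableEq (κ i)] {ϖ : ℂ}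
  (P : ∀ i, PData (κ i) ϖ)
  {K : I → Type} [∀ i, Field (K i)] [∀ i, NumberField (K i)] {r : I → ℕ}
  (F : ∀ i, UF (P i) (K i) (r i))
  {k : ℕ} (α : MultilinearMap ℂ (fun _ : Fin (2 * k) => HW κ n) ℂ)
  {R : Type*} [DecidableEq R] {q : R → At n K} {T : Finset R} {Φ : (R → HW κ n) → ℂ}

/-- the slots in a given order -/
lemma six_set {T : Finset R} (e : T ≃ Fin 6) (π : Equiv.Perm (Fin 6)) :
    ({(e.symm (π 0) : R), (e.symm (π 2) : R), (e.symm (π 4) : R), (e.symm (π 1) : R),
      (e.symm (π 3) : R), (e.symm (π 5) : R)} : Finset R) = T := by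
  ext t
  simp only [Finset.mem_insert, Finset.mem_singleton]
  constructor
  · rintro (rfl | rfl | rfl | rfl | rfl | rfl) <;> exact (e.symm _).2
  · intro ht
    have h1 : t = (e.symm (π (π.symm (e ⟨t, ht⟩))) : R) := by
      rw [π.apply_symm_apply, e.symm_apply_apply]
    rcases Pool.Agent.Helper35.GPC.fin6_cases (π.symm (e ⟨t, ht⟩)) with h | h | h | h | h | h <;>
      rw [h] at h1
    · exact Or.inl h1
    · exact Or.inr (Or.inr (Or.inr (Or.inl h1)))
    · exact Or.inr (Or.inl h1)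
    · exact Or.inr (Or.inr (Or.inr (Or.inr (Or.inl h1))))
    · exact Or.inr (Or.inr (Or.inl h1))
    · exact Or.inr (Or.inr (Or.inr (Or.inr (Or.inr h1))))

section places

variable {i : I} {m : Fin (n i)} {σ : K i →+* ℂ} (hσ : ComplexEmbedding.conjugate σ = σ)
  (hri : r i = 6)

include hσ in
/-- six slots at the place -/
theorem core_six {b : Basis (Fin 6) ℂ (Vs n P F α ⟨i, σ⟩)}
    (hb : ∀ x y, bp n P F α i σ σ (b x) (b y) = (gg x y : ℂ))
    (h : SF (symG n P α) (EE n P F) q T Φ) (hT : ∀ t ∈ T, q t = ⟨i, m, σ⟩) (hc : T.card = 6) :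
    Φ ∈ PS (invB n P α) T := by
  obtain ⟨e⟩ : Nonempty (T ≃ Fin 6) := ⟨Finset.equivFinOfCardEq hc⟩
  have key : ∃ c : ℂ, ∀ v : R → HW κ n, Φ v = c * cube (bp n P F α i σ σ)
      (fun j => outS n P F α ⟨i, m, σ⟩ (v (e.symm j))) := by
    obtain ⟨c, hc⟩ := alt6_cube hb (toAlt n P F α e h.toSF0 (Finset.Subset.refl T) hT 0)
    refine ⟨c, fun v => ?_⟩
    rw [← hc, eq_toAlt n P F α e h.toSF0 (Finset.Subset.refl T) hT v, toAlt_apply, toAlt_apply]
    refine h.dep _ _ fun t ht => ?_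
    rw [fill_of_mem n P F α e _ _ ht, fill_of_mem n P F α e _ _ ht]
  obtain ⟨c, hc⟩ := key
  have hinj : ∀ (π : Equiv.Perm (Fin 6)) (x y : Fin 6), x ≠ y →
      (e.symm (π x) : R) ≠ (e.symm (π y) : R) := fun π x y hxy h' =>
    hxy (π.injective (e.symm.injective (Subtype.ext h')))
  have h1 : Φ = c • ∑ π : Equiv.Perm (Fin 6), (((Equiv.Perm.sign π : ℤˣ) : ℤ) : ℂ) •
      (fun v : R → HW κ n => bf n P F i m m σ (v (e.symm (π 0))) (v (e.symm (π 1))) *
        (bf n P F i m m σ (v (e.symm (π 2))) (v (e.symm (π 3))) *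
        bf n P F i m m σ (v (e.symm (π 4))) (v (e.symm (π 5))))) := by
    funext v
    rw [hc v, Pi.smul_apply, Finset.sum_apply, smul_eq_mul, cube]
    congr 1
    refine Finset.sum_congr rfl fun π _ => ?_
    rw [Pi.smul_apply, smul_eq_mul, bf_real n P F α hσ, bf_real n P F α hσ,
      bf_real n P F α hσ]
  rw [h1]
  refine Submodule.smul_mem _ c (Submodule.sum_mem _ fun π _ => Submodule.smul_mem _ _ ?_)
  have h2 := PS_six n P α (t1 := (e.symm (π 0) : R)) (t2 := (e.symm (π 2) : R))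
    (t3 := (e.symm (π 4) : R)) (s1 := (e.symm (π 1) : R)) (s2 := (e.symm (π 3) : R))
    (s3 := (e.symm (π 5) : R))
    (hinj π 0 2 (by decide)) (hinj π 0 4 (by decide)) (hinj π 2 4 (by decide))
    (hinj π 0 1 (by decide)) (hinj π 0 3 (by decide)) (hinj π 0 5 (by decide))
    (hinj π 2 1 (by decide)) (hinj π 2 3 (by decide)) (hinj π 2 5 (by decide))
    (hinj π 4 1 (by decide)) (hinj π 4 3 (by decide)) (hinj π 4 5 (by decide))
    (hinj π 1 3 (by decide)) (hinj π 1 5 (by decide)) (hinj π 3 5 (by decide))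
    (bf n P F i m m σ) (bf_mem n P F α i m m σ)
  rw [six_set e π] at h2
  exact h2

variable {i' : I} {m' : Fin (n i')} {σ' : K i' →+* ℂ}
  (hσ' : ComplexEmbedding.conjugate σ' = σ') (hri' : r i' = 2)

include hσ hri hσ' hri' in
/-- five slots at the place and one slot at a plane -/
theorem core_five_plane (hr : ∀ i, 0 < r i) (hk : IsKilling ℂ (LL n P F α))
    (hirr : ∀ s, LieModule.IsIrreducible ℂ (LL n P F α) (Vs n P F α s))
    (p : Principal (LL n P F α)) {b : Basis (Fin 6) ℂ (Vs n P F α ⟨i, σ⟩)}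
    (hb : ∀ x y, bp n P F α i σ σ (b x) (b y) = (gg x y : ℂ)) (S : Finset R) {s : R}
    (hs : s ∉ S) (h : SF (symG n P α) (EE n P F) q (insert s S) Φ)
    (hS : ∀ t ∈ S, q t = ⟨i, m, σ⟩) (qs : q s = ⟨i', m', σ'⟩) (hc : S.card = 5)
    (v : R → HW κ n) : Φ v = 0 := by
  obtain ⟨e⟩ : Nonempty (S ≃ Fin 5) := ⟨Finset.equivFinOfCardEq hc⟩
  have hST : S ⊆ insert s S := Finset.subset_insert s S
  have hinj : ∀ (x y : Fin 5), x ≠ y → (e.symm x : R) ≠ (e.symm y : R) := fun x y hxy h' =>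
    hxy (e.symm.injective (Subtype.ext h'))
  have hse : ∀ x : Fin 5, (e.symm x : R) ≠ s := fun x h' => hs (h' ▸ (e.symm x).2)
  rw [eq_toAlt n P F α e h.toSF0 hST hS v]
  have hD := dual_cc hb
  have hset : insert s S \ {(e.symm 0 : R), (e.symm 1 : R)} =
      {(e.symm 2 : R), (e.symm 3 : R), (e.symm 4 : R), s} := by
    ext t
    simp only [Finset.mem_sdiff, Finset.mem_insert, Finset.mem_singleton, not_or]
    constructor
    · rintro ⟨rfl | ht, h0, h1⟩
      · exact Or.inr (Or.inr (Or.inr rfl))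
      · have h2 : t = (e.symm (e ⟨t, ht⟩) : R) := by rw [e.symm_apply_apply]
        have hcase : ∀ x : Fin 5, x = 0 ∨ x = 1 ∨ x = 2 ∨ x = 3 ∨ x = 4 := by decide
        rcases hcase (e ⟨t, ht⟩) with h3 | h3 | h3 | h3 | h3 <;> rw [h3] at h2
        · exact absurd h2 h0
        · exact absurd h2 h1
        · exact Or.inl h2
        · exact Or.inr (Or.inl h2)
        · exact Or.inr (Or.inr (Or.inl h2))
    · rintro (rfl | rfl | rfl | rfl)
      · exact ⟨Or.inr (e.symm 2).2, hinj 2 0 (by decide), hinj 2 1 (by decide)⟩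
      · exact ⟨Or.inr (e.symm 3).2, hinj 3 0 (by decide), hinj 3 1 (by decide)⟩
      · exact ⟨Or.inr (e.symm 4).2, hinj 4 0 (by decide), hinj 4 1 (by decide)⟩
      · exact ⟨Or.inl rfl, (hse 0).symm, (hse 1).symm⟩
  have hz : ∀ w : R → HW κ n, contr (pdR n P F α (m := m) hσ hD) (e.symm 0 : R) (e.symm 1 : R)
      Φ w = 0 := by
    intro w
    have h1 := contr_SF (pdR n P F α (m := m) hσ hD) h (hST (e.symm 0).2) (hST (e.symm 1).2)
      (hinj 0 1 (by decide)) (hS _ (e.symm 0).2) (hS _ (e.symm 1).2)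
    rw [hset] at h1
    exact core_three_plane n P F α hσ hri hσ' hri' hr hk hirr p (hinj 2 3 (by decide))
      (hinj 2 4 (by decide)) (hse 2) (hinj 3 4 (by decide)) (hse 3) (hse 4) h1
      (hS _ (e.symm 2).2) (hS _ (e.symm 3).2) (hS _ (e.symm 4).2) qs w
  have hA := alt5_zero (b := b) (toAlt n P F α e h.toSF0 hST hS v) (fun x y z => by
    have h1 := hz (fill n P F α (a := ⟨i, m, σ⟩) e ![0, 0, x, y, z] v)
    rw [contr_eq _ (hinj 0 1 (by decide))] at h1
    rw [← h1]
    refine Finset.sum_congr rfl fun j _ => ?_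
    rw [toAlt_apply]
    have e1 : ![b j, cc b j, x, y, z] =
        Function.update (Function.update ![0, 0, x, y, z] 0 (b j)) 1 (cc b j) := by
      funext l
      fin_cases l <;> rfl
    rw [e1, fill_update, fill_update]
    rfl)
  rw [hA]; rfl

end places

/-- the remaining slot functions for a special factor of rank six with one real place -/
theorem core_6g {p : I} (hr : ∀ i, 0 < r i)
    (hreal' : ∀ t : Emb K, r t.1 = 2 → ComplexEmbedding.conjugate t.2 = t.2)
    (hlink' : ∀ s t : Emb K, r s.1 = 2 → r t.1 = 2 → s ≠ t →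
      ∀ f : Vs n P F α s → Vs n P F α t → ℂ, ML2 f → Inv2 (LL n P F α) f → ∀ x y, f x y = 0)
    (hrp : r p = 6) (hnp : n p = 1)
    (hKp : ∀ σ τ : K p →+* ℂ, τ = σ)
    (hKp' : ∀ σ : K p →+* ℂ, ComplexEmbedding.conjugate σ = σ)
    (hk : IsKilling ℂ (LL n P F α))
    (hirr : ∀ s, LieModule.IsIrreducible ℂ (LL n P F α) (Vs n P F α s))
    (hev : Even T.card) (h : SF (symG n P α) (EE n P F) q T Φ) (hR : Remain n r p q T) :
    Φ ∈ PS (invB n P α) T := by
  classical
  have hfin := hirr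
  have hm0 : 0 < n p := by rw [hnp]; norm_num
  obtain ⟨σ⟩ : Nonempty (K p →+* ℂ) := inferInstance
  have hσ := hKp' σ
  obtain ⟨pr⟩ := exists_principal (LL n P F α)
  have hfd : ∀ s, FiniteDimensional ℂ (Vs n P F α s) := fun s =>
    (bV n P F α s).finiteDimensional_of_finite
  have hirr6 := hirr ⟨p, σ⟩
  obtain ⟨b, hb⟩ := exists_sb6 pr (bp_symp n P F α hr p σ hσ)
    ((finrank_Vs n P F α ⟨p, σ⟩).trans hrp)
  have hlab : ∀ t ∈ T, q t = ⟨p, ⟨0, hm0⟩, σ⟩ ∨ r (q t).1 = 2 := by
    intro t ht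
    rcases hR.spec t ht with h1 | h1
    · left
      rcases hq : q t with ⟨j, m, τ⟩
      rw [hq] at h1
      obtain rfl : j = p := h1
      have hm : m = ⟨0, hm0⟩ := by
        have h5 := m.2
        exact Fin.ext (by simp only; omega)
      rw [hm, hKp σ τ]
    · exact Or.inr h1
  obtain ⟨S, hSd⟩ : ∃ S, S = T.filter (fun t => q t = ⟨p, ⟨0, hm0⟩, σ⟩) := ⟨_, rfl⟩
  obtain ⟨Z, hZd⟩ : ∃ Z, Z = T.filter (fun t => r (q t).1 = 2) := ⟨_, rfl⟩
  have hST : S ⊆ T := by rw [hSd]; exact Finset.filter_subset _ _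
  have hZT : Z ⊆ T := by rw [hZd]; exact Finset.filter_subset _ _
  have hSq : ∀ t ∈ S, q t = ⟨p, ⟨0, hm0⟩, σ⟩ := fun t ht => by
    rw [hSd] at ht
    exact (Finset.mem_filter.mp ht).2
  have hZq : ∀ t ∈ Z, r (q t).1 = 2 := fun t ht => by
    rw [hZd] at ht
    exact (Finset.mem_filter.mp ht).2
  have hTSZ : T = S ∪ Z := by
    ext t
    rw [Finset.mem_union]
    constructor
    · intro ht
      rcases hlab t ht with h' | h'
      · left; rw [hSd]; exact Finset.mem_filter.mpr ⟨ht, h'⟩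
      · right; rw [hZd]; exact Finset.mem_filter.mpr ⟨ht, h'⟩
    · rintro (h' | h')
      · exact hST h'
      · exact hZT h'
  have hdis : Disjoint S Z := by
    rw [Finset.disjoint_left]
    intro t ht ht'
    have h1 := hZq t ht'
    rw [hSq t ht] at h1
    simp only at h1
    omega
  have hcard : T.card = S.card + Z.card := by
    conv_lhs => rw [hTSZ]
    exact Finset.card_union_of_disjoint hdis
  by_cases h7 : 6 < S.card
  · exact PS_of_zero n P α (alt_many n P F h.toSF0 S hST hSq (by rw [hrp]; exact h7))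
  by_cases hZ0 : Z = ∅
  · -- no slot at a plane
    rw [hZ0, Finset.union_empty] at hTSZ
    subst hTSZ
    rw [hZ0, Finset.card_empty, add_zero] at hcard
    have hcases : T.card = 0 ∨ T.card = 2 ∨ T.card = 4 ∨ T.card = 6 := by
      rw [Nat.even_iff] at hev
      omega
    rcases hcases with hc | hc | hc | hc
    · rw [Finset.card_eq_zero] at hc
      subst hc
      exact PS_empty n P F α h.toSF0
    · obtain ⟨t1, t2, h12, rfl⟩ := Finset.card_eq_two.mp hc
      exact core_two n P F α hσ hr hk hirr6 h12 h (hSq t1 (by simp)) (hSq t2 (by simp))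
    · obtain ⟨e⟩ : Nonempty (T ≃ Fin 4) := ⟨Finset.equivFinOfCardEq hc⟩
      have hinj : ∀ (x y : Fin 4), x ≠ y → (e.symm x : R) ≠ (e.symm y : R) := fun x y hxy h' =>
        hxy (e.symm.injective (Subtype.ext h'))
      have hset : T = {(e.symm 0 : R), (e.symm 1 : R), (e.symm 2 : R), (e.symm 3 : R)} := by
        ext t
        simp only [Finset.mem_insert, Finset.mem_singleton]
        constructor
        · intro ht
          have h2 : t = (e.symm (e ⟨t, ht⟩) : R) := by rw [e.symm_apply_apply]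
          have hcase : ∀ x : Fin 4, x = 0 ∨ x = 1 ∨ x = 2 ∨ x = 3 := by decide
          rcases hcase (e ⟨t, ht⟩) with h3 | h3 | h3 | h3 <;> rw [h3] at h2
          · exact Or.inl h2
          · exact Or.inr (Or.inl h2)
          · exact Or.inr (Or.inr (Or.inl h2))
          · exact Or.inr (Or.inr (Or.inr h2))
        · rintro (rfl | rfl | rfl | rfl) <;> exact (e.symm _).2
      have h1 : SF (symG n P α) (EE n P F) q
          {(e.symm 0 : R), (e.symm 1 : R), (e.symm 2 : R), (e.symm 3 : R)} Φ := hset ▸ h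
      have h2 := core_four n P F α hσ hrp (hinj 0 1 (by decide)) (hinj 0 2 (by decide))
        (hinj 0 3 (by decide)) (hinj 1 2 (by decide)) (hinj 1 3 (by decide))
        (hinj 2 3 (by decide)) hr hk hirr6 pr h1
        (hSq _ (e.symm 0).2) (hSq _ (e.symm 1).2) (hSq _ (e.symm 2).2) (hSq _ (e.symm 3).2)
      rw [← hset] at h2
      exact h2
    · exact core_six n P F α hσ hb h hSq hc
  -- a slot at a plane: the function vanishes
  refine PS_of_zero n P α ?_
  obtain ⟨r0, hr0⟩ := Finset.nonempty_iff_ne_empty.mpr hZ0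
  obtain ⟨J, hh, ee, ff, hpt, htriv, hact, hdisj⟩ := exists_plane_triples (L := LL n P F α)
    (T := {t : Emb K // r t.1 = 2}) (fun t => Vs n P F α t.1)
    (fun t => (bV n P F α t.1).reindex (finCongr t.2))
    (fun t a => trace_Vs n P F α t.1 (hr _) a) Finset.univ
    (fun s _ => ⟨_, bp_symp n P F α hr s.1.1 s.1.2 (hreal' s.1 s.2)⟩)
    (fun s _ t _ hst f hf hI x y => hlink' _ _ s.2 t.2 (fun e => hst (Subtype.ext e)) f hf hI x y)
    pr
  have key : ∀ (r0 : R) (h0 : r0 ∈ Z) (c : ℤ),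
      (⊤ ≤ Submodule.span ℂ {x : Vs n P F α ⟨p, σ⟩ | ∃ m : ℤ, Even (m - c) ∧
        ⁅hh ⟨pl n (q r0), hZq r0 h0⟩, x⁆ = (m : ℂ) • x}) → Even (c * S.card) →
      ∀ v, Φ v = 0 := by
    intro r0 h0 c hc hce v
    have hr0S : r0 ∉ S := fun h' => (Finset.disjoint_left.mp hdis h') h0
    refine par_zero n P F α hk h (hh ⟨pl n (q r0), hZq r0 h0⟩)
      (fun t => if t = r0 then 1 else if t ∈ S then c else 0) (fun t ht => ?_) ?_ v
    · by_cases e : t = r0
      · subst e
        have h1 := pr.odd_span (bp_symp n P F α hr (q t).1 (q t).2.2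
          (hreal' (pl n (q t)) (hZq t h0)))
        refine h1.trans (Submodule.span_mono ?_)
        rintro x ⟨m, hm, hx⟩
        refine ⟨m, ?_, ?_⟩
        · rw [if_pos rfl]
          exact hm.sub_odd odd_one
        · exact (hact ⟨pl n (q t), hZq t h0⟩ (Finset.mem_univ _) x).trans hx
      · simp only [if_neg e]
        by_cases htS : t ∈ S
        · simp only [if_pos htS]
          rw [hSq t htS]
          exact hc
        · simp only [if_neg htS, sub_zero]
          have h' : r (q t).1 = 2 := (hlab t ht).resolve_left (fun h' => htS (by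
            rw [hSd]; exact Finset.mem_filter.mpr ⟨ht, h'⟩))
          intro x _
          refine Submodule.subset_span ⟨0, Even.zero, ?_⟩
          have h1 := htriv ⟨pl n (q r0), hZq r0 h0⟩ (Finset.mem_univ _) ⟨pl n (q t), h'⟩
            (Finset.mem_univ _) (fun e' => hR.uniq r0 (hZT h0) t ht (hZq r0 h0) e
              (congrArg Subtype.val e')) _ (hpt ⟨pl n (q r0), hZq r0 h0⟩ (Finset.mem_univ _)).hJ x
          rw [h1]; simp
    · have h1 : ∑ t ∈ T, (if t = r0 then (1 : ℤ) else if t ∈ S then c else 0) =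
          1 + c * S.card := by
        rw [← Finset.add_sum_erase T _ (hZT h0), if_pos rfl]
        congr 1
        have h2 : ∀ t ∈ T.erase r0, (if t = r0 then (1 : ℤ) else if t ∈ S then c else 0) =
            if t ∈ S then c else 0 := fun t ht => if_neg (Finset.ne_of_mem_erase ht)
        rw [Finset.sum_congr rfl h2, Finset.sum_ite_mem, Finset.sum_const, nsmul_eq_mul]
        have h3 : T.erase r0 ∩ S = S := by
          apply Finset.inter_eq_right.mpr
          intro t ht
          exact Finset.mem_erase.mpr ⟨fun e => hr0S (e ▸ ht), hST ht⟩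
        rw [h3, mul_comm]
      rw [h1]
      exact odd_one.add_even hce
  have keven : ∀ (r0 : R) (h0 : r0 ∈ Z),
      (⊤ ≤ Submodule.span ℂ {x : Vs n P F α ⟨p, σ⟩ | ∃ m : ℤ, Even m ∧
        ⁅hh ⟨pl n (q r0), hZq r0 h0⟩, x⁆ = (m : ℂ) • x}) → ∀ v, Φ v = 0 := by
    intro r0 h0 hc
    refine key r0 h0 0 ?_ (by simp)
    simpa only [sub_zero] using hc
  have kodd : ∀ (r0 : R) (h0 : r0 ∈ Z), Even S.card →
      (⊤ ≤ Submodule.span ℂ {x : Vs n P F α ⟨p, σ⟩ | ∃ m : ℤ, Odd m ∧
        ⁅hh ⟨pl n (q r0), hZq r0 h0⟩, x⁆ = (m : ℂ) • x}) → ∀ v, Φ v = 0 := by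
    intro r0 h0 hS2 hc
    refine key r0 h0 1 (hc.trans (Submodule.span_mono ?_)) (by
      rw [one_mul]; exact_mod_cast hS2)
    rintro x ⟨m, hm, hx⟩
    exact ⟨m, hm.sub_odd odd_one, hx⟩
  have hcs := parity_cases (hpt ⟨pl n (q r0), hZq r0 hr0⟩ (Finset.mem_univ _))
    (Vs n P F α ⟨p, σ⟩)
  rcases hcs with hcs | hcs
  · exact keven r0 hr0 hcs
  by_cases hS2 : Even S.card
  · exact kodd r0 hr0 hS2 hcs
  by_cases hr1 : ∃ r1 ∈ Z, r1 ≠ r0
  · obtain ⟨r1, hr1, hne⟩ := hr1
    rcases parity_cases (hpt ⟨pl n (q r1), hZq r1 hr1⟩ (Finset.mem_univ _))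
      (Vs n P F α ⟨p, σ⟩) with hcs1 | hcs1
    · exact keven r1 hr1 hcs1
    · exfalso
      have h4 := four_dvd_of_odd (hpt ⟨pl n (q r0), hZq r0 hr0⟩ (Finset.mem_univ _))
        (hpt ⟨pl n (q r1), hZq r1 hr1⟩ (Finset.mem_univ _))
        (hdisj _ (Finset.mem_univ _) _ (Finset.mem_univ _) (fun e' =>
          hR.uniq r0 (hZT hr0) r1 (hZT hr1) (hZq r0 hr0) hne (congrArg Subtype.val e').symm))
        hcs hcs1 (trace_Vs n P F α ⟨p, σ⟩ (hr _) _)
      rw [finrank_Vs] at h4
      have h5 : r p = 6 := hrp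
      rw [show r (⟨p, σ⟩ : Emb K).1 = r p from rfl, h5] at h4
      omega
  push Not at hr1
  have hZ1 : Z = {r0} := by
    ext t
    rw [Finset.mem_singleton]
    exact ⟨fun ht => hr1 t ht, fun ht => ht ▸ hr0⟩
  have hr0S : r0 ∉ S := fun h' => (Finset.disjoint_left.mp hdis h') hr0
  have hTi : T = insert r0 S := by
    rw [hTSZ, hZ1, Finset.union_comm]
    rfl
  have hq0 := hZq r0 hr0
  rcases hqr : q r0 with ⟨i', m', σ'⟩
  have hreal := hreal' (pl n (q r0)) hq0
  rw [hqr] at hq0 hreal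
  have hcases : S.card = 1 ∨ S.card = 3 ∨ S.card = 5 := by
    rw [Nat.not_even_iff] at hS2
    omega
  rw [hTi] at h
  rcases hcases with hc | hc | hc
  · obtain ⟨t1, rfl⟩ := Finset.card_eq_one.mp hc
    have e1 : (insert r0 {t1} : Finset R) = {t1, r0} := Finset.pair_comm r0 t1
    rw [e1] at h
    exact core_one_plane n P F α hσ hrp hq0 hr hk hirr
      (fun e => hr0S (by rw [e]; simp)) h (hSq t1 (by simp)) hqr
  · obtain ⟨t1, t2, t3, h12, h13, h23, rfl⟩ := Finset.card_eq_three.mp hc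
    have e1 : (insert r0 {t1, t2, t3} : Finset R) = {t1, t2, t3, r0} := by
      ext t; simp only [Finset.mem_insert, Finset.mem_singleton]; tauto
    rw [e1] at h
    simp only [Finset.mem_insert, Finset.mem_singleton, not_or] at hr0S
    exact core_three_plane n P F α hσ hrp hreal hq0 hr hk hirr pr h12 h13
      (Ne.symm hr0S.1) h23 (Ne.symm hr0S.2.1) (Ne.symm hr0S.2.2) h (hSq t1 (by simp))
      (hSq t2 (by simp)) (hSq t3 (by simp)) hqr
  · exact core_five_plane n P F α hσ hrp hreal hq0 hr hk hirr pr hb S hr0S h hSq hqr hc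

/-- the remaining slot functions for a special factor of rank six with one real place -/
theorem core_6 {p : I} (H : SpecFam n P F α p) (hrp : r p = 6) (hnp : n p = 1)
    (hKp : ∀ σ τ : K p →+* ℂ, τ = σ)
    (hKp' : ∀ σ : K p →+* ℂ, ComplexEmbedding.conjugate σ = σ)
    (hk : IsKilling ℂ (LL n P F α))
    (hirr : ∀ s, LieModule.IsIrreducible ℂ (LL n P F α) (Vs n P F α s))
    (hev : Even T.card) (h : SF (symG n P α) (EE n P F) q T Φ) (hR : Remain n r p q T) :
    Φ ∈ PS (invB n P α) T :=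
  core_6g n P F α H.pos H.real H.link hrp hnp hKp hKp' hk hirr hev h hR

end family

end Pool.Agent.Helper24.T6
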