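import Pool.Agent.Helper35.GPC.Unlinked
import Pool.Agent.Helper24.PT.UCore

/-!
The recursion for a family with one special factor, with free planes: after the removal of pairs
of slots of rank one, of pairs of slots at free planes and of pairs of equal slots of real type
there remain slots at the special factor and slots at different real planes.
-/

namespace Pool.Agent.Helper35.GPC

open Module NumberField LieAlgebra Pool.Agent.Helper7

attribute [local instance 100] LieRing.ofAssociativeRing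

open Pool.Agent.GPC (Emb IsOdd IsOddModule translate)
open Pool.Agent.Helper84 (xi)
open Pool.Agent.Helper8 (SF SF0 PS PS.mul symG invF invF_symG SF.toSF0 SF.factor SF.mem_of_factor
  mem_of_PS Symp ML2 Inv2 ML4 Inv4 exists_linear SF0.sum SF0.eq_zero_of_eq wsq Principal
  exists_principal)
open Pool.Agent.Helper24

set_option linter.unusedSectionVars false

/-- the number of values of an even symmetric function -/
lemma even_sum_symm {T : Type*} [DecidableEq T] (N : Finset T) (c : T → T)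
    (hc : ∀ t, c (c t) = t)
    (hN : ∀ t ∈ N, c t ∈ N) (hne : ∀ t ∈ N, c t ≠ t) (f : T → ℤ) (hf : ∀ t ∈ N, f (c t) = f t) :
    ∃ m : ℤ, ∑ t ∈ N, f t = 2 * m := by
  have h1 : ∑ t ∈ N, (f t : ZMod 2) = 0 := by
    refine Finset.sum_involution (fun t _ => c t) (fun t ht => ?_) (fun t ht _ => hne t ht)
      (fun t ht => hN t ht) (fun t ht => hc t)
    show (f t : ZMod 2) + (f (c t) : ZMod 2) = 0
    rw [hf t ht]
    exact CharTwo.add_self_eq_zero _
  have h2 : ((∑ t ∈ N, f t : ℤ) : ZMod 2) = 0 := by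
    rw [Int.cast_sum]; exact h1
  obtain ⟨m, hm⟩ := (ZMod.intCast_zmod_eq_zero_iff_dvd _ 2).mp h2
  exact ⟨m, hm⟩

section family

variable {I : Type} [Fintype I] [DecidableEq I] (n : I → ℕ)
  {κ : I → Type} [∀ i, Fintype (κ i)] [∀ i, DecidableEq (κ i)] {ϖ : ℂ}
  (P : ∀ i, PData (κ i) ϖ)
  {K : I → Type} [∀ i, Field (K i)] [∀ i, NumberField (K i)] {r : I → ℕ}
  (F : ∀ i, UF (P i) (K i) (r i))
  {k : ℕ} (α : MultilinearMap ℂ (fun _ : Fin (2 * k) => HW κ n) ℂ)

/-- a family with one special factor `p` -/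
structure FreeFam (p : I) : Prop where
  spec : (r p = 6 ∧ ∀ σ : K p →+* ℂ, ComplexEmbedding.conjugate σ = σ) ∨
    (r p = 3 ∧ ∀ σ : K p →+* ℂ, ComplexEmbedding.conjugate σ ≠ σ)
  typ : ∀ i, i ≠ p → (r i = 1 ∧ (∀ σ : K i →+* ℂ, ComplexEmbedding.conjugate σ ≠ σ)) ∨
    (r i = 2 ∧ (∀ σ : K i →+* ℂ, ComplexEmbedding.conjugate σ = σ) ∧
      (n i = 1 ∨ ∀ (σ : K i →+* ℂ) (h : r i = 2), FreeAt n P F α ⟨i, σ⟩ h))
  link : ∀ s t : Emb K, r s.1 = 2 → r t.1 = 2 → s ≠ t →
    ∀ f : Vs n P F α s → Vs n P F α t → ℂ, ML2 f → Inv2 (LL n P F α) f → ∀ x y, f x y = 0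
  ne : ∀ z : Emb K → ℤ, (fun t => (z t : ℚ)) ∈ relS n P F α →
    (∀ t, |z t| ≤ n t.1 * r t.1) → (∃ m : ℤ, ∑ t, |z t| = 4 * m) → ∑ t, |z t| ≤ 4 * k →
      ∀ t : Emb K, r t.1 = 1 → z t = 0

variable {n P F α}

lemma FreeFam.rp {p : I} (H : FreeFam n P F α p) : 3 ≤ r p := by
  rcases H.spec with h | h
  · rw [h.1]; norm_num
  · rw [h.1]

lemma FreeFam.pos {p : I} (H : FreeFam n P F α p) (i : I) : 0 < r i := by
  by_cases h : i = p
  · subst h; have := H.rp; omega
  · rcases H.typ i h with h | h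
    · rw [h.1]; norm_num
    · rw [h.1]; norm_num

lemma FreeFam.cases {p : I} (H : FreeFam n P F α p) (i : I) : r i = 1 ∨ r i = 2 ∨ i = p := by
  by_cases h : i = p
  · exact Or.inr (Or.inr h)
  · rcases H.typ i h with h | h
    · exact Or.inl h.1
    · exact Or.inr (Or.inl h.1)

lemma FreeFam.real {p : I} (H : FreeFam n P F α p) (t : Emb K) (ht : r t.1 = 2) :
    ComplexEmbedding.conjugate t.2 = t.2 := by
  by_cases hp : t.1 = p
  · have := H.rp
    rw [← hp] at this
    omega
  · rcases H.typ t.1 hp with h' | h'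
    · rw [h'.1] at ht; exact absurd ht (by norm_num)
    · exact h'.2.1 t.2

lemma FreeFam.alt {p : I} (H : FreeFam n P F α p) (i : I) :
    (∀ σ : K i →+* ℂ, ComplexEmbedding.conjugate σ = σ) ∨
      ((∀ σ : K i →+* ℂ, ComplexEmbedding.conjugate σ ≠ σ) ∧ (r i = 1 ∨ r i = 3)) := by
  by_cases h : i = p
  · subst h
    rcases H.spec with h | h
    · exact Or.inl h.2
    · exact Or.inr ⟨h.2, Or.inr h.1⟩
  · rcases H.typ i h with h | h
    · exact Or.inr ⟨h.2, Or.inl h.1⟩
    · exact Or.inl h.2.1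

variable (n P F α)
variable {R : Type*} [DecidableEq R] {q : R → At n K} {T : Finset R} {Φ : (R → HW κ n) → ℂ}

/-- the number of slots at real places is even -/
theorem even_real (hr : ∀ i, 0 < r i) (hk : IsKilling ℂ (LL n P F α))
    (hirr : ∀ s, LieModule.IsIrreducible ℂ (LL n P F α) (Vs n P F α s))
    (halt : ∀ i, (∀ σ : K i →+* ℂ, ComplexEmbedding.conjugate σ = σ) ∨
      ((∀ σ : K i →+* ℂ, ComplexEmbedding.conjugate σ ≠ σ) ∧ (r i = 1 ∨ r i = 3)))
    (h : SF (symG n P α) (EE n P F) q T Φ) (v : R → HW κ n) (hv : Φ v ≠ 0) :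
    Even (open Classical in (T.filter fun t =>
      ComplexEmbedding.conjugate (q t).2.2 = (q t).2.2)).card := by
  classical
  by_contra hodd
  rw [Nat.not_even_iff_odd] at hodd
  obtain ⟨p0⟩ := exists_principal (LL n P F α)
  apply hv
  refine par_zero n P F α hk h p0.h
    (fun t => if ComplexEmbedding.conjugate (q t).2.2 = (q t).2.2 then 1 else 0)
    (fun t ht => ?_) ?_ v
  · have hirr' := hirr (pl n (q t))
    have hfd : FiniteDimensional ℂ (Vs n P F α (pl n (q t))) :=
      (bV n P F α (pl n (q t))).finiteDimensional_of_finite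
    by_cases e : ComplexEmbedding.conjugate (q t).2.2 = (q t).2.2
    · simp only [if_pos e]
      have h2 := p0.odd_span (bp_symp n P F α hr (q t).1 (q t).2.2 e)
      refine h2.trans (Submodule.span_mono ?_)
      rintro x ⟨m, hm, hx⟩
      exact ⟨m, hm.sub_odd odd_one, hx⟩
    · simp only [if_neg e, sub_zero]
      rcases halt (q t).1 with h1 | ⟨-, h1 | h1⟩
      · exact absurd (h1 _) e
      · intro x _
        refine Submodule.subset_span ⟨0, Even.zero, ?_⟩
        rw [act_rank_one n P F α hr (pl n (q t)) h1]; simp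
      · obtain ⟨g, e', f', pt⟩ := exists_projTriple p0 (⊤ : LieIdeal ℂ (LL n P F α))
        have hg : p0.h = g := by
          refine sub_eq_zero.mp (zero_of_central _ fun w => ?_)
          rw [← lie_skew, pt.comm w (LieSubmodule.mem_top w), neg_zero]
        rw [hg]
        have h3 : finrank ℂ (Vs n P F α (pl n (q t))) = 3 := by
          rw [finrank_Vs]; exact h1
        exact even_of_three pt h3 (fun a => trace_Vs n P F α _ (hr _) a)
  · rw [Finset.sum_boole]
    exact_mod_cast hodd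

/-- a slot of rank one has a partner -/
theorem cm_partner {p : I} (H : FreeFam n P F α p) (hk : IsKilling ℂ (LL n P F α))
    (hirr : ∀ s, LieModule.IsIrreducible ℂ (LL n P F α) (Vs n P F α s))
    (h : SF (symG n P α) (EE n P F) q T Φ) (hev : Even T.card) (hTk : T.card ≤ 2 * k)
    (v : R → HW κ n) (hv : Φ v ≠ 0) {r0 : R} (hr0 : r0 ∈ T) (h1 : r (q r0).1 = 1) :
    ∃ s0 ∈ T, pl n (q s0) = conjT (pl n (q r0)) := by
  classical
  have hr := H.pos
  obtain ⟨c, hc⟩ : ∃ c : Emb K → ℕ, ∀ t, c t = (T.filter (fun r => pl n (q r) = t)).card :=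
    ⟨_, fun _ => rfl⟩
  let z : Emb K → ℤ := fun t => (c t : ℤ) - c (conjT t)
  -- bounds
  have hcn : ∀ t : Emb K, c t ≤ n t.1 * r t.1 := by
    rintro ⟨i, σ⟩
    have h2 : (T.filter (fun r => pl n (q r) = ⟨i, σ⟩)) ⊆
        Finset.univ.biUnion (fun m : Fin (n i) => T.filter (fun r => q r = ⟨i, m, σ⟩)) := by
      intro t ht
      obtain ⟨ht1, ht2⟩ := Finset.mem_filter.mp ht
      rcases hq : q t with ⟨j, m, τ⟩
      rw [hq] at ht2
      have hji : j = i := congrArg Sigma.fst ht2
      subst hji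
      have hτ : τ = σ := sigma_mk_injective (β := fun i => (K i →+* ℂ)) ht2
      subst hτ
      exact Finset.mem_biUnion.mpr ⟨m, Finset.mem_univ _, Finset.mem_filter.mpr ⟨ht1, hq⟩⟩
    rw [hc]
    refine (Finset.card_le_card h2).trans (Finset.card_biUnion_le.trans ?_)
    have h3 : ∀ m ∈ (Finset.univ : Finset (Fin (n i))),
        (T.filter (fun r => q r = ⟨i, m, σ⟩)).card ≤ r i := by
      intro m _
      by_contra hcon
      push Not at hcon
      exact hv (alt_many n P F h.toSF0 (T.filter (fun r => q r = ⟨i, m, σ⟩))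
        (Finset.filter_subset _ _) (fun t ht => (Finset.mem_filter.mp ht).2) hcon v)
    refine (Finset.sum_le_sum h3).trans ?_
    rw [Finset.sum_const, Finset.card_univ, Fintype.card_fin, smul_eq_mul]
  have hzn : ∀ t : Emb K, |z t| ≤ n t.1 * r t.1 := by
    intro t
    have h2 := hcn t
    have h3 : c (conjT t) ≤ n t.1 * r t.1 := hcn (conjT t)
    have h2' : ((c t : ℕ) : ℤ) ≤ ((n t.1 * r t.1 : ℕ) : ℤ) := by exact_mod_cast h2
    have h3' : ((c (conjT t) : ℕ) : ℤ) ≤ ((n t.1 * r t.1 : ℕ) : ℤ) := by exact_mod_cast h3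
    push_cast at h2' h3'
    simp only [z]
    rw [abs_le]
    constructor <;> omega
  -- the relation
  have hzU : (fun t => (z t : ℚ)) ∈ relS n P F α := by
    have h2 := rel_mem n P F α hr hk h v hv
    have h3 : (fun t => (z t : ℚ)) = fun s => ∑ r ∈ T, xi (pl n (q r)) s := by
      funext t
      have h4 : ∀ r, xi (pl n (q r)) t = (if pl n (q r) = t then 1 else 0) -
          (if pl n (q r) = conjT t then 1 else 0) := by
        intro r
        have h5 : (conjT (pl n (q r)) = t) ↔ (pl n (q r) = conjT t) :=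
          ⟨fun h => by rw [← h, conjT_conjT], fun h => by rw [h, conjT_conjT]⟩
        rw [xi_def]
        simp only [h5]
      rw [Finset.sum_congr rfl fun r _ => h4 r, Finset.sum_sub_distrib, Finset.sum_boole,
        Finset.sum_boole]
      simp only [z, hc]
      push_cast
      rfl
    rw [h3]
    exact h2
  have hz0 : ∀ t : Emb K, conjT t = t → z t = 0 := by
    intro t ht
    simp only [z, ht, sub_self]
  -- parity
  obtain ⟨N, hN⟩ : ∃ N : Finset (Emb K), N = Finset.univ.filter (fun t => conjT t ≠ t) :=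
    ⟨_, rfl⟩
  have hNm : ∀ t, t ∈ N ↔ conjT t ≠ t := by
    intro t
    rw [hN, Finset.mem_filter]
    exact ⟨fun h => h.2, fun h => ⟨Finset.mem_univ _, h⟩⟩
  have hNc : ∀ t ∈ N, conjT t ∈ N := by
    intro t ht
    rw [hNm] at ht ⊢
    intro h
    apply ht
    rw [conjT_conjT] at h
    exact h.symm
  have hNne : ∀ t ∈ N, conjT t ≠ t := fun t ht => (hNm t).mp ht
  have e1 : ∑ t, |z t| = ∑ t ∈ N, |z t| := by
    symm
    refine Finset.sum_subset (Finset.subset_univ _) fun t _ ht => ?_
    rw [hNm, not_not] at ht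
    rw [hz0 t ht, abs_zero]
  have e2 : ∀ t, |z t| = (c t : ℤ) + c (conjT t) - 2 * ((min (c t) (c (conjT t)) : ℕ) : ℤ) := by
    intro t
    simp only [z]
    rcases le_total (c t) (c (conjT t)) with h | h
    · rw [min_eq_left h, abs_of_nonpos (by omega)]; ring
    · rw [min_eq_right h, abs_of_nonneg (by omega)]; ring
  obtain ⟨m1, hm1⟩ := even_sum_symm N conjT conjT_conjT hNc hNne
    (fun t => ((min (c t) (c (conjT t)) : ℕ) : ℤ)) (fun t _ => by
      show ((min (c (conjT t)) (c (conjT (conjT t))) : ℕ) : ℤ) = _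
      rw [conjT_conjT, min_comm])
  have e3 : ∑ t ∈ N, (c (conjT t) : ℤ) = ∑ t ∈ N, (c t : ℤ) := by
    refine Finset.sum_nbij' conjT conjT hNc hNc (fun t _ => conjT_conjT t)
      (fun t _ => conjT_conjT t) (fun t _ => rfl)
  obtain ⟨m2, hm2⟩ := even_real n P F α hr hk hirr H.alt h v hv
  obtain ⟨m3, hm3⟩ := hev
  have hcongr : ∀ t, (conjT (pl n (q t)) = pl n (q t)) ↔
      ComplexEmbedding.conjugate (q t).2.2 = (q t).2.2 := by
    intro t
    constructor
    · intro h
      exact sigma_mk_injective (β := fun i => (K i →+* ℂ)) h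
    · intro h
      show (⟨(q t).1, ComplexEmbedding.conjugate (q t).2.2⟩ : Emb K) = ⟨(q t).1, (q t).2.2⟩
      rw [h]
  have e4 : ∑ t ∈ N, (c t : ℤ) = 2 * (m3 - m2) := by
    have h2 : ∑ t ∈ N, c t = (T.filter (fun r => conjT (pl n (q r)) ≠ pl n (q r))).card := by
      rw [Finset.card_eq_sum_card_fiberwise (f := fun r => pl n (q r)) (t := N) (fun r hr => by
        rw [Finset.mem_coe, Finset.mem_filter] at hr
        rw [Finset.mem_coe, hNm]
        exact hr.2)]
      refine Finset.sum_congr rfl fun t ht => ?_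
      rw [hc]
      congr 1
      ext r
      simp only [Finset.mem_filter]
      constructor
      · rintro ⟨h1, h2⟩
        exact ⟨⟨h1, by rw [h2]; exact hNne t ht⟩, h2⟩
      · rintro ⟨⟨h1, -⟩, h2⟩
        exact ⟨h1, h2⟩
    have h3 : (T.filter (fun r => conjT (pl n (q r)) = pl n (q r))).card +
        (T.filter (fun r => conjT (pl n (q r)) ≠ pl n (q r))).card = T.card :=
      Finset.card_filter_add_card_filter_not (fun r => conjT (pl n (q r)) = pl n (q r))
    have h4 : (T.filter (fun r => conjT (pl n (q r)) = pl n (q r))) =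
        (T.filter fun t => ComplexEmbedding.conjugate (q t).2.2 = (q t).2.2) :=
      Finset.filter_congr fun t _ => hcongr t
    rw [h4, hm2, hm3] at h3
    have h5 : (∑ t ∈ N, (c t : ℤ)) = ((∑ t ∈ N, c t : ℕ) : ℤ) := by push_cast; rfl
    rw [h5, h2]
    omega
  have e5 : ∑ t ∈ N, |z t| = 2 * (∑ t ∈ N, (c t : ℤ)) - 2 * (2 * m1) := by
    rw [Finset.sum_congr rfl fun t _ => e2 t, Finset.sum_sub_distrib, Finset.sum_add_distrib,
      ← Finset.mul_sum, e3, hm1]
    ring
  have h4 : ∃ m : ℤ, ∑ t, |z t| = 4 * m := ⟨m3 - m2 - m1, by rw [e1, e5, e4]; ring⟩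
  have h5 : ∑ t, |z t| ≤ 4 * k := by
    have hm1' : 0 ≤ m1 := by
      have h6 : 0 ≤ ∑ t ∈ N, ((min (c t) (c (conjT t)) : ℕ) : ℤ) :=
        Finset.sum_nonneg fun t _ => Int.natCast_nonneg _
      rw [hm1] at h6
      omega
    rw [e1, e5, e4]
    have h7 : (m3 : ℤ) ≤ k := by
      have : 2 * m3 ≤ 2 * k := by omega
      omega
    omega
  have h6 := H.ne z hzU hzn h4 h5 (pl n (q r0)) h1
  have h7 : 0 < c (pl n (q r0)) := by
    rw [hc]
    exact Finset.card_pos.mpr ⟨r0, Finset.mem_filter.mpr ⟨hr0, rfl⟩⟩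
  have h8 : 0 < c (conjT (pl n (q r0))) := by
    simp only [z] at h6
    omega
  rw [hc] at h8
  obtain ⟨s0, hs0⟩ := Finset.card_pos.mp h8
  exact ⟨s0, (Finset.mem_filter.mp hs0).1, (Finset.mem_filter.mp hs0).2⟩

theorem peelF {p : I} (H : FreeFam n P F α p) (hk : IsKilling ℂ (LL n P F α))
    (hirr : ∀ s, LieModule.IsIrreducible ℂ (LL n P F α) (Vs n P F α s))
    (core : ∀ (T : Finset R) (Φ : (R → HW κ n) → ℂ), Even T.card →
      SF (symG n P α) (EE n P F) q T Φ → Remain n r p q T → Φ ∈ PS (invB n P α) T) (N : ℕ)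
    (hN : N ≤ k) :
    ∀ (T : Finset R), T.card = 2 * N → ∀ Φ : (R → HW κ n) → ℂ,
      SF (symG n P α) (EE n P F) q T Φ → Φ ∈ PS (invB n P α) T := by
  classical
  have hr := H.pos
  have hrp := H.rp
  induction N with
  | zero =>
    intro T hT Φ h
    have h0 : T = ∅ := Finset.card_eq_zero.mp (by omega)
    subst h0
    exact PS_empty n P F α h.toSF0
  | succ N ih =>
    intro T hT Φ h
    have ih' := ih (by omega)
    have hsub : ∀ r0 ∈ T, ∀ s0 ∈ T, r0 ≠ s0 → ∀ Ψ : (R → HW κ n) → ℂ,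
        SF (symG n P α) (EE n P F) q (T \ {r0, s0}) Ψ → Ψ ∈ PS (invB n P α) (T \ {r0, s0}) := by
      intro r0 hr0 s0 hs0 hne Ψ hΨ
      refine ih' _ ?_ Ψ hΨ
      rw [Finset.card_sdiff_of_subset (by
        intro t ht
        rw [Finset.mem_insert, Finset.mem_singleton] at ht
        rcases ht with rfl | rfl
        · exact hr0
        · exact hs0), Finset.card_pair hne, hT]
      omega
    by_cases hA : ∃ r0 ∈ T, r (q r0).1 = 1
    · -- a slot of rank one
      obtain ⟨r0, hr0, h1⟩ := hA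
      by_cases hz : ∀ v, Φ v = 0
      · exact PS_of_zero n P α hz
      push Not at hz
      obtain ⟨v, hv⟩ := hz
      have hp : (q r0).1 ≠ p := by
        intro e; rw [e] at h1; omega
      obtain ⟨-, hcj⟩ := (H.typ _ hp).resolve_right (fun h' => by
        rw [h'.1] at h1; exact absurd h1 (by norm_num))
      obtain ⟨s0, hs0, hs1⟩ := cm_partner n P F α H hk hirr h (by rw [hT]; exact even_two_mul _)
        (by rw [hT]; omega) v hv hr0 h1
      rcases hq : q r0 with ⟨i, m, σ⟩
      rcases hq' : q s0 with ⟨j, m', τ⟩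
      rw [hq] at hs1 h1 hcj
      rw [hq'] at hs1
      have hji : j = i := congrArg Sigma.fst hs1
      subst hji
      have hτ : τ = ComplexEmbedding.conjugate σ :=
        sigma_mk_injective (β := fun i => (K i →+* ℂ)) hs1
      subst hτ
      have hne : r0 ≠ s0 := by
        rintro rfl
        rw [hq] at hq'
        have h5 := sigma_mk_injective (β := fun i => Fin (n i) × (K i →+* ℂ)) hq'
        exact hcj σ (congrArg Prod.snd h5).symm
      exact cm_step n P F α h hr0 hs0 hne h1 hq hq' (hsub r0 hr0 s0 hs0 hne)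
    · push Not at hA
      by_cases hC : ∃ r0 ∈ T, ∃ h2 : r (q r0).1 = 2, FreeAt n P F α (pl n (q r0)) h2
      · -- a slot at a free plane
        obtain ⟨r0, hr0, h2, hfree⟩ := hC
        exact free_step n P F α hk h (H.real (pl n (q r0)) h2) h2 hfree hr0 rfl
          (fun t ht hne _ Ψ hΨ => hsub r0 hr0 t ht hne.symm Ψ hΨ)
      push Not at hC
      by_cases hB : ∃ r0 ∈ T, ∃ s0 ∈ T, r (q r0).1 = 2 ∧ s0 ≠ r0 ∧ pl n (q s0) = pl n (q r0)
      · obtain ⟨r0, hr0, s0, hs0, h2, hne, hpl⟩ := hB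
        have hp : (q r0).1 ≠ p := by
          intro e; rw [e] at h2; omega
        obtain ⟨-, hcj, hn1⟩ := (H.typ _ hp).resolve_left (fun h' => by
          rw [h'.1] at h2; exact absurd h2 (by norm_num))
        have hn1 : n (q r0).1 = 1 := hn1.resolve_right (fun h' =>
          hC r0 hr0 h2 (h' (q r0).2.2 h2))
        rcases hq : q r0 with ⟨i, m, σ⟩
        rcases hq' : q s0 with ⟨j, m', τ⟩
        rw [hq] at hpl h2 hcj hn1
        rw [hq'] at hpl
        have hji : j = i := congrArg Sigma.fst hpl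
        subst hji
        have hτ : τ = σ := sigma_mk_injective (β := fun i => (K i →+* ℂ)) hpl
        subst hτ
        have hm : m' = m := by
          have h5 := m.2
          have h6 := m'.2
          simp only at hn1
          exact Fin.ext (by omega)
        subst hm
        exact real_step n P F α h hr0 hs0 hne.symm h2 (hcj τ) hq hq'
          (hsub r0 hr0 s0 hs0 hne.symm)
      · push Not at hB
        refine core T Φ (by rw [hT]; exact even_two_mul _) h
          ⟨fun t ht => ?_, fun t ht t' ht' h2 hne => hB t ht t' ht' h2 hne⟩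
        rcases H.cases (q t).1 with h' | h' | h'
        · exact absurd h' (hA t ht)
        · exact Or.inr h'
        · exact Or.inl h'

/-- the form is in the span of products of invariant pairings -/
theorem family_F {p : I} (β : (HW κ n) [⋀^Fin (2 * k)]→ₗ[ℂ] ℂ)
    (H : FreeFam n P F (β : MultilinearMap ℂ (fun _ : Fin (2 * k) => HW κ n) ℂ) p)
    (hk : IsKilling ℂ (LL n P F (β : MultilinearMap ℂ (fun _ : Fin (2 * k) => HW κ n) ℂ)))
    (hirr : ∀ s, LieModule.IsIrreducible ℂ
      (LL n P F (β : MultilinearMap ℂ (fun _ : Fin (2 * k) => HW κ n) ℂ))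
      (Vs n P F (β : MultilinearMap ℂ (fun _ : Fin (2 * k) => HW κ n) ℂ) s))
    (core : ∀ (q : Fin (2 * k) → At n K)
      (T : Finset (Fin (2 * k))) (Φ : (Fin (2 * k) → HW κ n) → ℂ), Even T.card →
      SF (symG n P (β : MultilinearMap ℂ (fun _ : Fin (2 * k) => HW κ n) ℂ)) (EE n P F) q T Φ →
      Remain n r p q T →
      Φ ∈ PS (invB n P (β : MultilinearMap ℂ (fun _ : Fin (2 * k) => HW κ n) ℂ)) T) :
    (β : MultilinearMap ℂ (fun _ : Fin (2 * k) => HW κ n) ℂ) ∈ Submodule.span ℂ
      {M | ∃ (π : Equiv.Perm (Fin (2 * k))) (γ : Fin k → (HW κ n →ₗ[ℂ] HW κ n →ₗ[ℂ] ℂ)),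
      (∀ a, γ a ∈ invB n P (β : MultilinearMap ℂ (fun _ : Fin (2 * k) => HW κ n) ℂ)) ∧
        M = (prodBilin γ).domDomCongr π} := by
  classical
  refine mem_of_PS _ ?_
  have h1 : (fun v => (β : MultilinearMap ℂ (fun _ : Fin (2 * k) => HW κ n) ℂ) v) =
      ∑ a : Fin (2 * k) → At n K, (fun v : Fin (2 * k) → HW κ n =>
        β (fun r => EE n P F (a r) (v r))) := by
    funext v
    rw [Finset.sum_apply]
    exact sum_labels n P F β v
  rw [h1]
  refine Submodule.sum_mem _ fun a _ => ?_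
  exact peelF n P F _ H hk hirr (core a) k le_rfl Finset.univ
    (by rw [Finset.card_univ, Fintype.card_fin]) _ (SF_label n P F β a)

end family

end Pool.Agent.Helper35.GPC
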