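import Pool.Agent.Helper24.PT.URec
import Pool.Agent.Helper8.Lie.P1111
import Pool.Agent.Helper8.Lie.PMixed2

/-!
The remaining slot functions for a special factor of rank three, without a condition on the
numbers of copies of the other factors.
-/

namespace Pool.Agent.Helper35.GPC

open Module NumberField LieAlgebra Pool.Agent.Helper7

attribute [local instance 100] LieRing.ofAssociativeRing

open Pool.Agent.GPC (Emb IsOdd IsOddModule translate)
open Pool.Agent.Helper8 (SF SF0 PS PS.mul symG invF invF_symG SF.toSF0 SF.factor SF.mem_of_factor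
  mem_of_PS Symp ML2 Inv2 ML4 Inv4 exists_linear SF0.sum SF0.eq_zero_of_eq wsq)
open Pool.Agent.Helper24

set_option linter.unusedSectionVars false

section family

variable {I : Type} [Fintype I] [DecidableEq I] (n : I → ℕ)
  {κ : I → Type} [∀ i, Fintype (κ i)] [∀ i, DecidableEq (κ i)] {ϖ : ℂ}
  (P : ∀ i, PData (κ i) ϖ)
  {K : I → Type} [∀ i, Field (K i)] [∀ i, NumberField (K i)] {r : I → ℕ}
  (F : ∀ i, UF (P i) (K i) (r i))
  {k : ℕ} (α : MultilinearMap ℂ (fun _ : Fin (2 * k) => HW κ n) ℂ)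

variable {R : Type*} [DecidableEq R] {q : R → At n K} {T : Finset R} {Φ : (R → HW κ n) → ℂ}

variable (hr : ∀ i, 0 < r i)
    (hreal : ∀ t : Emb K, r t.1 = 2 → ComplexEmbedding.conjugate t.2 = t.2)
    (hlink : ∀ s t : Emb K, r s.1 = 2 → r t.1 = 2 → s ≠ t →
      ∀ f : Vs n P F α s → Vs n P F α t → ℂ, ML2 f → Inv2 (LL n P F α) f → ∀ x y, f x y = 0)

include hr hreal hlink in
/-- slot functions with a real slot whose place occurs only once vanish -/
theorem real_zero_g {p : I} (hrp : r p = 3)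
    (hk : IsKilling ℂ (LL n P F α))
    (hirr : ∀ s, LieModule.IsIrreducible ℂ (LL n P F α) (Vs n P F α s))
    (h : SF (symG n P α) (EE n P F) q T Φ) {r0 : R} (hr0 : r0 ∈ T) (h2 : r (q r0).1 = 2)
    (hR : Remain n r p q T) (v : R → HW κ n) : Φ v = 0 := by
  classical
  have hfin := hirr
  obtain ⟨a, ha1, ha2, ha3⟩ := exists_parity_element (L := LL n P F α)
    (T := {t : Emb K // r t.1 = 2})
    (fun t => Vs n P F α t.1)
    (fun t => (bV n P F α t.1).reindex (finCongr t.2))
    (fun t a => trace_Vs n P F α t.1 (hr _) a)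
    ⟨pl n (q r0), h2⟩ (Finset.univ.filter fun t => t ≠ ⟨pl n (q r0), h2⟩)
    (bp_symp n P F α hr (q r0).1 (q r0).2.2 (hreal (pl n (q r0)) h2))
    (fun t ht f hf hI x y => hlink _ _ h2 t.2 (fun e => (Finset.mem_filter.mp ht).2
      (Subtype.ext e.symm)) f hf hI x y)
  refine par_zero n P F α hk h a (fun t => if t = r0 then 1 else 0) (fun t ht => ?_) ?_ v
  · by_cases e : t = r0
    · subst e
      refine ha2.trans (Submodule.span_mono ?_)
      rintro x ⟨m, hm, hx⟩
      refine ⟨m, ?_, hx⟩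
      rw [if_pos rfl]
      exact hm.sub_odd odd_one
    · simp only [if_neg e, sub_zero]
      rcases hR.spec t ht with h' | h'
      · have h3 : finrank ℂ (Vs n P F α (pl n (q t))) = 3 := by
          rw [finrank_Vs]
          show r (q t).1 = 3
          rw [h', hrp]
        have hfd : FiniteDimensional ℂ (Vs n P F α (pl n (q t))) :=
          (bV n P F α (pl n (q t))).finiteDimensional_of_finite
        exact ha3 (Vs n P F α (pl n (q t))) h3 (fun a => trace_Vs n P F α _ (hr _) a)
      · intro x _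
        refine Submodule.subset_span ⟨0, Even.zero, ?_⟩
        have := ha1 ⟨pl n (q t), h'⟩ (Finset.mem_filter.mpr ⟨Finset.mem_univ _, fun e' =>
          hR.uniq r0 hr0 t ht h2 e (congrArg Subtype.val e')⟩) x
        rw [this]; simp
  · rw [Finset.sum_ite_eq' T r0 (fun _ => (1 : ℤ)), if_pos hr0]
    exact odd_one

include hr hreal hlink in
/-- the remaining slot functions for a special factor of rank three over an imaginary quadratic
field -/
theorem core_3g {p : I} (hrp : r p = 3) (hnp : n p = 1)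
    (hKp : ∀ σ τ : K p →+* ℂ, τ = σ ∨ τ = ComplexEmbedding.conjugate σ)
    (hKp' : ∀ σ : K p →+* ℂ, ComplexEmbedding.conjugate σ ≠ σ)
    (hk : IsKilling ℂ (LL n P F α))
    (hirr : ∀ s, LieModule.IsIrreducible ℂ (LL n P F α) (Vs n P F α s))
    (hev : Even T.card) (h : SF (symG n P α) (EE n P F) q T Φ) (hR : Remain n r p q T) :
    Φ ∈ PS (invB n P α) T := by
  classical
  by_cases hB : ∃ r0 ∈ T, r (q r0).1 = 2
  · obtain ⟨r0, hr0, h2⟩ := hB
    exact PS_of_zero n P α (real_zero_g n P F α hr hreal hlink hrp hk hirr h hr0 h2 hR)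
  push Not at hB
  have hp : ∀ t ∈ T, (q t).1 = p := fun t ht => (hR.spec t ht).resolve_right (hB t ht)
  have hm0 : 0 < n p := by rw [hnp]; norm_num
  obtain ⟨σ⟩ : Nonempty (K p →+* ℂ) := inferInstance
  obtain ⟨a, ha⟩ : ∃ a : At n K, a = ⟨p, ⟨0, hm0⟩, σ⟩ := ⟨_, rfl⟩
  obtain ⟨a', ha'⟩ : ∃ a' : At n K, a' = ⟨p, ⟨0, hm0⟩, ComplexEmbedding.conjugate σ⟩ :=
    ⟨_, rfl⟩
  have hlab : ∀ t ∈ T, q t = a ∨ q t = a' := by
    intro t ht
    have h1 := hp t ht
    rcases hq : q t with ⟨j, m, τ⟩
    rw [hq] at h1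
    obtain rfl : j = p := h1
    have hm : m = ⟨0, hm0⟩ := by
      have h5 := m.2
      exact Fin.ext (by simp only; omega)
    rcases hKp σ τ with h3 | h3
    · left; rw [ha, hm, h3]
    · right; rw [ha', hm, h3]
  have hne : a ≠ a' := by
    rw [ha, ha']
    intro e
    exact hKp' σ (congrArg Prod.snd
      (sigma_mk_injective (β := fun i => Fin (n i) × (K i →+* ℂ)) e)).symm
  obtain ⟨A, hAd⟩ : ∃ A, A = T.filter (fun t => q t = a) := ⟨_, rfl⟩
  obtain ⟨B, hBd⟩ : ∃ B, B = T.filter (fun t => q t = a') := ⟨_, rfl⟩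
  have hTAB : T = A ∪ B := by
    ext t
    rw [hAd, hBd, Finset.mem_union, Finset.mem_filter, Finset.mem_filter]
    constructor
    · intro ht
      rcases hlab t ht with h' | h'
      · exact Or.inl ⟨ht, h'⟩
      · exact Or.inr ⟨ht, h'⟩
    · rintro (h' | h') <;> exact h'.1
  have hdis : Disjoint A B := by
    rw [Finset.disjoint_left, hAd, hBd]
    intro t ht ht'
    exact hne ((Finset.mem_filter.mp ht).2.symm.trans (Finset.mem_filter.mp ht').2)
  have hev' : Even (A.card + B.card) := by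
    rw [← Finset.card_union_of_disjoint hdis, ← hTAB]
    exact hev
  have hAq : ∀ t ∈ A, q t = ⟨p, ⟨0, hm0⟩, σ⟩ := fun t ht => by
    rw [hAd] at ht
    rw [(Finset.mem_filter.mp ht).2, ha]
  have hBq : ∀ t ∈ B, q t = ⟨p, ⟨0, hm0⟩, ComplexEmbedding.conjugate σ⟩ := fun t ht => by
    rw [hBd] at ht
    rw [(Finset.mem_filter.mp ht).2, ha']
  rcases le_total B.card A.card with hle | hle
  · rw [hTAB] at h ⊢
    exact core_all n P F α hr hk hirr hrp rfl A B hdis hAq hBq h hle hev'
  · rw [hTAB, Finset.union_comm] at h ⊢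
    exact core_all n P F α hr hk hirr hrp
      (Pool.Agent.Helper84.cc_cc σ).symm B A hdis.symm hBq hAq h hle
      (by rw [add_comm]; exact hev')

end family

end Pool.Agent.Helper35.GPC
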