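import Pool.Agent.Helper35.GPC.Types
import Pool.Agent.Helper35.GPC.Main
import Pool.Agent.Helper35.GPC.SixCore2
import Pool.Agent.Helper35.GPC.ThreeCore
import Pool.Agent.Helper35.GPC.Recur
import Pool.Agent.Helper35.GPC.CMRel

/-!
The period conjecture for products of a simple threefold, powers of abelian varieties with real
multiplication and abelian varieties with complex multiplication.
-/

namespace Pool.Agent.Helper35.GPC

open Module NumberField LieAlgebra Pool.Agent.Helper7 Pool.Agent.GPC Pool.Agent.Helper24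

attribute [local instance 100] LieRing.ofAssociativeRing

set_option linter.unusedSectionVars false

variable {I : Type} [Fintype I] (A : I → AbVar) (n : I → ℕ) (K : I → Type)
  [∀ i, Field (K i)] [∀ i, NumberField (K i)]

/-- the type of the special factor, with the condition on the factors of CM type -/
def SpecCond (p : I) (T : Finset I) (k : ℕ) : Prop :=
  (IsGenericThreefold (A p) (K p) ∧
    (OddMultiplicityFree K ∨ LowDimCM A n K T ∨ PrimeFamCM A n K T k)) ∨
  (IsPicardType (A p) (K p) ∧ OddMultiplicityFree K)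

theorem main_F (hnp' : ∀ i, NotProportional (A i)) (p : I) (S T : Finset I)
    (hI : ∀ i, i = p ∨ i ∈ S ∨ i ∈ T) (hnp : n p = 1)
    (hS : ∀ i ∈ S, IsFullRMType (A i) (K i)) (hnS : ∀ i ∈ S, (A i).g = 1 → n i = 1)
    (hSS : HomZero A S)
    (hT : ∀ i ∈ T, IsCMType (A i) (K i)) (k : ℕ) (hp : SpecCond A n K p T k)
    (α : Form A n (2 * k)) : IsGrothendieck A n k α ↔ IsDivisorial A n k α := by
  classical
  refine ⟨?_, isGrothendieck_of_isDivisorial A n k α⟩
  rintro ⟨hα1, hα2⟩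
  -- the types
  have hSr : ∀ i ∈ S, ∀ σ : K i →+* ℂ, ComplexEmbedding.conjugate σ = σ := by
    intro i hi σ
    have := (hS i hi).1
    exact ComplexEmbedding.isReal_iff.mp (IsTotallyReal.complexEmbedding_isReal σ)
  have hTc : ∀ i ∈ T, ∀ σ : K i →+* ℂ, ComplexEmbedding.conjugate σ ≠ σ := by
    intro i hi σ hσ
    have := (hT i hi).choose
    exact IsTotallyComplex.complexEmbedding_not_isReal σ (ComplexEmbedding.isReal_iff.mpr hσ)
  obtain ⟨rp, hrp0, hFp⟩ : ∃ rp : ℕ, ((rp = 6 ∧ (∀ σ τ : K p →+* ℂ, τ = σ) ∧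
      (∀ σ : K p →+* ℂ, ComplexEmbedding.conjugate σ = σ) ∧
      (OddMultiplicityFree K ∨ LowDimCM A n K T ∨ PrimeFamCM A n K T k)) ∨
      (rp = 3 ∧ (∀ σ τ : K p →+* ℂ, τ = σ ∨ τ = ComplexEmbedding.conjugate σ) ∧
      (∀ σ : K p →+* ℂ, ComplexEmbedding.conjugate σ ≠ σ) ∧ OddMultiplicityFree K)) ∧
      p ∉ S ∧ Nonempty (UF (pData (A p)) (K p) rp) := by
    rcases hp with ⟨hp, hc⟩ | ⟨hp, hc⟩
    · refine ⟨6, Or.inl ⟨rfl, emb_one hp.2.1, fun σ => ?_, hc⟩, ?_, nonempty_UF6 (A p) (K p) hp⟩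
      · have := hp.1.1
        exact ComplexEmbedding.isReal_iff.mp (IsTotallyReal.complexEmbedding_isReal σ)
      · intro hpS
        obtain ⟨C, -⟩ := (hS p hpS).2
        have h1 := C.degree
        rw [hp.2.1, hp.2.2] at h1
        omega
    · have hpc : ∀ σ : K p →+* ℂ, ComplexEmbedding.conjugate σ ≠ σ := by
        intro σ hσ
        have := hp.choose
        exact IsTotallyComplex.complexEmbedding_not_isReal σ (ComplexEmbedding.isReal_iff.mpr hσ)
      obtain ⟨h1, ⟨C⟩⟩ := hp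
      refine ⟨3, Or.inr ⟨rfl, emb_two C.degree, hpc, hc⟩, fun hpS => ?_, nonempty_UF3 (A p) (K p) C⟩
      obtain ⟨σ⟩ : Nonempty (K p →+* ℂ) := inferInstance
      exact hpc σ (hSr p hpS σ)
  obtain ⟨hpS, ⟨Fp⟩⟩ := hFp
  have hpT : rp = 6 → p ∉ T := by
    intro h6 hpT
    obtain ⟨σ⟩ : Nonempty (K p →+* ℂ) := inferInstance
    rcases hrp0 with ⟨-, -, h1, -⟩ | ⟨h1, -⟩
    · exact hTc p hpT σ (h1 σ)
    · omega
  let r : I → ℕ := fun i => if i = p then rp else if i ∈ S then 2 else 1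
  have hF : ∀ i, ∃ F : UF (pData (A i)) (K i) (r i), (i ∈ S →
      ∀ f, IsDRB (pData (A i)) (pData (A i)) f → ∃ x, ∀ v, f v = F.ρ x v) ∧
      (i ≠ p → i ∈ T → i ∉ S →
        ∃ F' : Fac (pData (A i)) (K i), ¬ F'.gl ∧ ∀ x v, F.ρ x v = F'.ρ x v) := by
    intro i
    by_cases hip : i = p
    · subst hip
      have hr : r i = rp := if_pos rfl
      rw [hr]
      exact ⟨Fp, fun hi => absurd hi hpS, fun h => absurd rfl h⟩
    · by_cases hiS : i ∈ S
      · obtain ⟨h1, C, hC⟩ := hS i hiS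
        obtain ⟨F, hF⟩ := nonempty_UF2 (A i) (K i) C
        have hr : r i = 2 := by simp only [r, if_neg hip, if_pos hiS]
        rw [hr]
        refine ⟨F, fun _ f hf => ?_, fun _ _ h => absurd hiS h⟩
        obtain ⟨x, hx⟩ := hC f (isEnd_of_isDRB (A i) f hf)
        exact ⟨x, fun v => by rw [hx v, hF]⟩
      · have hiT : i ∈ T := by
          rcases hI i with h | h | h
          · exact absurd h hip
          · exact absurd h hiS
          · exact h
        obtain ⟨h1, ⟨C⟩⟩ := hT i hiT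
        obtain ⟨F, hF⟩ := nonempty_UF1' (A i) (K i) C
        have hr : r i = 1 := by simp only [r, if_neg hip, if_neg hiS]
        rw [hr]
        exact ⟨F, fun hi => absurd hi hiS, fun _ _ _ => ⟨cmFac (A i) (K i) C (hnp' i),
          fun h => h, fun x v => by rw [hF]; rfl⟩⟩
  choose F hFS hFT using hF
  have hrp : r p = rp := if_pos rfl
  have hrp3 : 3 ≤ rp := by
    rcases hrp0 with ⟨h, -⟩ | ⟨h, -⟩ <;> omega
  have hr2 : ∀ i, r i = 2 → i ∈ S := by
    intro i hi
    by_contra hiS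
    by_cases hip : i = p
    · simp only [r, if_pos hip] at hi; omega
    · simp only [r, if_neg hip, if_neg hiS] at hi; omega
  have hr0 : ∀ i, 0 < r i := by
    intro i
    simp only [r]
    split_ifs
    · omega
    · norm_num
    · norm_num
  have hreal : ∀ t : Emb K, r t.1 = 2 → ComplexEmbedding.conjugate t.2 = t.2 :=
    fun t ht => hSr t.1 (hr2 t.1 ht) t.2
  have hB : ∀ v : Fin (2 * k) → HW (fun i => Fin (A i).g ⊕ Fin (A i).g) n,
      (∀ r, IsRatP n (fun i => pData (A i)) (v r)) →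
      ∃ q : ℚ, (α : MultilinearMap ℂ
        (fun _ : Fin (2 * k) => HW (fun i => Fin (A i).g ⊕ Fin (A i).g) n) ℂ) v =
          (2 * Real.pi * Complex.I) ^ k * q := by
    intro v hv
    apply hα2
    intro r i m
    exact (mem_pData_Q _ _).mp (hv r i m)
  have hA : ∀ v : Fin (2 * k) → HW (fun i => Fin (A i).g ⊕ Fin (A i).g) n,
      (∀ r i m j, IsAlgebraic ℚ (v r i m j)) → IsAlgebraic ℚ ((α : MultilinearMap ℂ
        (fun _ : Fin (2 * k) => HW (fun i => Fin (A i).g ⊕ Fin (A i).g) n) ℂ) v) := hα1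
  have hϖ := Complex.two_pi_I_ne_zero
  have hirr := fun s => Vs_irr n (fun i => pData (A i)) F (α : MultilinearMap ℂ
        (fun _ : Fin (2 * k) => HW (fun i => Fin (A i).g ⊕ Fin (A i).g) n) ℂ) hϖ hB hA s (hr0 s.1)
  have htr := LL_trivialRadical n (fun i => pData (A i)) F (α : MultilinearMap ℂ
        (fun _ : Fin (2 * k) => HW (fun i => Fin (A i).g ⊕ Fin (A i).g) n) ℂ) hϖ hB hA hr0
  have hk : IsKilling ℂ (LL n (fun i => pData (A i)) F (α : MultilinearMap ℂ
        (fun _ : Fin (2 * k) => HW (fun i => Fin (A i).g ⊕ Fin (A i).g) n) ℂ)) := inferInstance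
  have hlink : ∀ s t : Emb K, r s.1 = 2 → r t.1 = 2 → s ≠ t →
      ∀ f : Vs n (fun i => pData (A i)) F (α : MultilinearMap ℂ
        (fun _ : Fin (2 * k) => HW (fun i => Fin (A i).g ⊕ Fin (A i).g) n) ℂ) s →
        Vs n (fun i => pData (A i)) F (α : MultilinearMap ℂ
        (fun _ : Fin (2 * k) => HW (fun i => Fin (A i).g ⊕ Fin (A i).g) n) ℂ) t → ℂ,
      Pool.Agent.Helper8.ML2 f → Pool.Agent.Helper8.Inv2 (LL n (fun i => pData (A i)) F
        (α : MultilinearMap ℂ
        (fun _ : Fin (2 * k) => HW (fun i => Fin (A i).g ⊕ Fin (A i).g) n) ℂ)) f →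
        ∀ x y, f x y = 0 := by
    intro s t hs ht hst f hf hI' x y
    have hsS := hr2 s.1 hs
    have htS := hr2 t.1 ht
    refine no_link n _ F _ hϖ hB hA hr0 s t hst (hSr _ hsS s.2) (hSr _ htS t.2) (hFS s.1 hsS)
      (fun hne g hg v => ?_) f hf hI' x y
    have h1 := (isDRB_iff (A s.1) (A t.1) g).mp hg
    exact hSS s.1 hsS t.1 htS hne g
      ⟨g.isLinear, h1.1, h1.2, hom_fil (A s.1) (A t.1) g g.isLinear h1.1 h1.2⟩ v
  -- the relations between the weights
  have hne : ∀ z : Emb K → ℤ, (fun t => (z t : ℚ)) ∈ relS n (fun i => pData (A i)) F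
      (α : MultilinearMap ℂ
        (fun _ : Fin (2 * k) => HW (fun i => Fin (A i).g ⊕ Fin (A i).g) n) ℂ) →
      (∀ t, |z t| ≤ n t.1 * r t.1) → (∃ m : ℤ, ∑ t, |z t| = 4 * m) → ∑ t, |z t| ≤ 4 * k →
      ∀ t : Emb K, r t.1 = 1 → z t = 0 := by
    have homf : OddMultiplicityFree K → ∀ z : Emb K → ℤ,
        (fun t => (z t : ℚ)) ∈ relS n (fun i => pData (A i)) F
      (α : MultilinearMap ℂ
        (fun _ : Fin (2 * k) => HW (fun i => Fin (A i).g ⊕ Fin (A i).g) n) ℂ) →
        ∀ t : Emb K, r t.1 = 1 → z t = 0 := by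
      rintro h z hz ⟨i, σ⟩ hr1
      by_contra hzt
      obtain ⟨w, hw1, hw2, hw3⟩ := relS_ne n (fun i => pData (A i)) F _ hϖ hB hA hr0 i hr1 (by
        rintro v hv hv0 ⟨w, u, hu, hvu⟩
        rw [pData_Q] at hv
        obtain ⟨N, l, hN, hl, hNl⟩ := betti_eq_period (A i) v hv
        have hNC : (N : ℂ) ≠ 0 := Nat.cast_ne_zero.mpr hN
        refine hnp' i l hl ?_ ⟨N * w, u, hu, ?_⟩
        · rintro rfl
          apply hv0
          have h1 : (A i).period 0 = 0 := map_zero (periodHom (A i))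
          rw [h1, smul_eq_zero] at hNl
          exact hNl.resolve_left hNC
        · rw [← hNl, hvu, smul_smul])
      refine hw3 (h _ (relS_odd n _ F _) i ⟨_, hz, σ, ?_⟩ w hw1 hw2)
      exact_mod_cast hzt
    intro z hz hzn h4 hk4 t ht
    rcases hrp0 with ⟨h6, -, h1, h | h⟩ | ⟨-, -, -, h⟩
    · exact homf h z hz t ht
    · have hcase : ∀ i, i ∉ T → ∀ σ : K i →+* ℂ, ComplexEmbedding.conjugate σ = σ := by
        intro i hi
        rcases hI i with h' | h' | h'
        · subst h'; exact h1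
        · exact hSr i h'
        · exact absurd h' hi
      have hTS : ∀ i ∈ T, i ∉ S := by
        intro i hi hi'
        obtain ⟨σ⟩ : Nonempty (K i →+* ℂ) := inferInstance
        exact hTc i hi σ (hSr i hi' σ)
      have hTp : ∀ i ∈ T, i ≠ p := fun i hi e => hpT h6 (e ▸ hi)
      exact ne_of_cond A n F (fun i hi => by
          simp only [r, if_neg (hTp i hi), if_neg (hTS i hi)])
        (fun i hi => hFT i (hTp i hi) hi (hTS i hi)) _ hB hA hcase hT h z hz hzn h4 hk4 t ht
    · exact homf h z hz t ht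
  -- the planes of fields of degree at least two are free
  have hspec : (r p = 3 ∧ ∀ ρ ρ' : K p →+* ℂ, ρ' = ρ ∨ ρ' = ComplexEmbedding.conjugate ρ) ∨
      (r p = 6 ∧ ∀ ρ ρ' : K p →+* ℂ, ρ' = ρ) := by
    rcases hrp0 with ⟨h6, h1, -⟩ | ⟨h3, h1, -⟩
    · exact Or.inr ⟨hrp.trans h6, h1⟩
    · exact Or.inl ⟨hrp.trans h3, h1⟩
  have htyp : ∀ j, j ≠ p → r j = 1 ∨ r j = 2 := by
    intro j hj
    simp only [r, if_neg hj]
    split_ifs
    · exact Or.inr rfl
    · exact Or.inl rfl
  have hfree : ∀ i ∈ S, (A i).g ≠ 1 → ∀ (σ : K i →+* ℂ) (h : r i = 2),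
      FreeAt n (fun i => pData (A i)) F (α : MultilinearMap ℂ
        (fun _ : Fin (2 * k) => HW (fun i => Fin (A i).g ⊕ Fin (A i).g) n) ℂ) ⟨i, σ⟩ h := by
    intro i hiS hg σ hri
    have hdeg : ∀ σ : K i →+* ℂ, ∃ σ' : K i →+* ℂ, σ' ≠ σ := by
      intro σ
      by_contra hcon
      push Not at hcon
      obtain ⟨C, -⟩ := (hS i hiS).2
      have h1 := C.degree
      have h2 : Fintype.card (K i →+* ℂ) = 1 := by
        rw [Fintype.card_eq_one_iff]
        exact ⟨σ, hcon⟩
      rw [card_emb] at h2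
      omega
    refine free_of_unlinked n (fun i => pData (A i)) F _ hr0 hk hirr hri σ (hSr i hiS σ) htyp
      (fun t ht hne => hlink _ _ hri ht (Ne.symm hne)) (p := p) ?_
    intro ρ a ha
    exact unlinked n (fun i => pData (A i)) F _ hϖ hB hr0 hk hirr hri (hSr i hiS)
      (fun σ σ' hne => hlink ⟨i, σ⟩ ⟨i, σ'⟩ hri hri (fun e => hne
        (sigma_mk_injective (β := fun i => (K i →+* ℂ)) e))) hdeg hspec σ ρ a ha
  have H : FreeFam n (fun i => pData (A i)) F (α : MultilinearMap ℂ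
        (fun _ : Fin (2 * k) => HW (fun i => Fin (A i).g ⊕ Fin (A i).g) n) ℂ) p := by
    refine ⟨?_, fun i hip => ?_, hlink, hne⟩
    · rcases hrp0 with ⟨h6, -, h1, -⟩ | ⟨h3, -, h1, -⟩
      · exact Or.inl ⟨hrp.trans h6, h1⟩
      · exact Or.inr ⟨hrp.trans h3, h1⟩
    · by_cases hiS : i ∈ S
      · right
        have hri : r i = 2 := by simp only [r, if_neg hip, if_pos hiS]
        refine ⟨hri, hSr i hiS, ?_⟩
        by_cases hg : (A i).g = 1
        · exact Or.inl (hnS i hiS hg)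
        · exact Or.inr (hfree i hiS hg)
      · left
        have hiT : i ∈ T := by
          rcases hI i with h | h | h
          · exact absurd h hip
          · exact absurd h hiS
          · exact h
        exact ⟨by simp only [r, if_neg hip, if_neg hiS], hTc i hiT⟩
  have h1 := abstract_of_span n (fun i => pData (A i)) hϖ α hB hα1
    (family_F n (fun i => pData (A i)) F α H hk hirr (fun q T' Φ hev h hR => by
      rcases hrp0 with ⟨h6, hK1, hK2, -⟩ | ⟨h3, hK1, hK2, -⟩
      · exact T6.core_6g n (fun i => pData (A i)) F _ hr0 hreal hlink (hrp.trans h6) hnp hK1 hK2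
          hk hirr hev h hR
      · exact core_3g n (fun i => pData (A i)) F _ hr0 hreal hlink (hrp.trans h3) hnp hK1 hK2
          hk hirr hev h hR))
  exact isDivisorial_of_span A n k α h1

end Pool.Agent.Helper35.GPC
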