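import Mathlib

/-!
Dimensions of representations of the three-dimensional simple Lie algebra and of the product of
two of them.
-/

namespace Pool.Agent.Helper35.GPC

open Module

set_option linter.unusedSectionVars false

attribute [local instance 100] LieRing.ofAssociativeRing

variable {V : Type*} [AddCommGroup V] [Module ℂ V]

/-- operators with the relations of the standard basis -/
structure Tri (h e f : Module.End ℂ V) : Prop where
  ef : ∀ v, e (f v) - f (e v) = h v
  he : ∀ v, h (e v) - e (h v) = (2 : ℂ) • e v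
  hf : ∀ v, h (f v) - f (h v) = (-2 : ℂ) • f v

variable {h e f h' e' f' : Module.End ℂ V}

lemma Tri.symm (t : Tri h e f) : Tri (-h) f e where
  ef v := by
    have h1 := t.ef v
    rw [LinearMap.neg_apply, ← h1]; abel
  he v := by
    have h1 := t.hf v
    rw [LinearMap.neg_apply, LinearMap.neg_apply, map_neg]
    have h2 : h (f v) - f (h v) = (-2 : ℂ) • f v := h1
    calc -(h (f v)) - -(f (h v)) = -(h (f v) - f (h v)) := by abel
      _ = (2 : ℂ) • f v := by rw [h2, neg_smul, neg_neg]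
  hf v := by
    have h1 := t.he v
    rw [LinearMap.neg_apply, LinearMap.neg_apply, map_neg]
    calc -(h (e v)) - -(e (h v)) = -(h (e v) - e (h v)) := by abel
      _ = (-2 : ℂ) • e v := by rw [h1, neg_smul]

lemma Tri.isSl2 (t : Tri h e f) (h0 : h ≠ 0) : IsSl2Triple h e f where
  h_ne_zero := h0
  lie_e_f := by
    rw [Ring.lie_def]
    exact LinearMap.ext fun v => t.ef v
  lie_h_e_nsmul := by
    rw [Ring.lie_def]
    refine LinearMap.ext fun v => ?_
    have h1 := t.he v
    rw [LinearMap.sub_apply, Module.End.mul_apply, Module.End.mul_apply, h1, two_nsmul,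
      LinearMap.add_apply, two_smul]
  lie_h_f_nsmul := by
    rw [Ring.lie_def]
    refine LinearMap.ext fun v => ?_
    have h1 := t.hf v
    rw [LinearMap.sub_apply, Module.End.mul_apply, Module.End.mul_apply, h1, two_nsmul,
      LinearMap.neg_apply, LinearMap.add_apply, neg_smul, two_smul]

lemma Tri.f_wt (t : Tri h e f) {v : V} {c : ℂ} (hv : h v = c • v) : h (f v) = (c - 2) • f v := by
  have h1 := t.hf v
  rw [hv, map_smul] at h1
  rw [sub_eq_iff_eq_add.mp h1]
  module

lemma Tri.e_wt (t : Tri h e f) {v : V} {c : ℂ} (hv : h v = c • v) : h (e v) = (c + 2) • e v := by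
  have h1 := t.he v
  rw [hv, map_smul] at h1
  rw [sub_eq_iff_eq_add.mp h1]
  module

lemma Tri.f_pow_wt (t : Tri h e f) {v : V} {c : ℂ} (hv : h v = c • v) (i : ℕ) :
    h ((f ^ i) v) = (c - 2 * i) • (f ^ i) v := by
  induction i with
  | zero => simpa using hv
  | succ i ih =>
    rw [pow_succ', Module.End.mul_apply, t.f_wt ih]
    congr 1
    push_cast; ring

variable [FiniteDimensional ℂ V]

lemma Tri.prim (t : Tri h e f) {u : V} (hu : u ≠ 0) {c : ℂ} (hc : h u = c • u) (he : e u = 0) :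
    ∃ n : ℕ, c = n ∧ (∀ i ≤ n, (f ^ i) u ≠ 0) ∧ (f ^ (n + 1)) u = 0 := by
  by_cases h0 : h = 0
  · have hc0 : c = 0 := by
      rw [h0, LinearMap.zero_apply] at hc
      exact (smul_eq_zero.mp hc.symm).resolve_right hu
    have hf0 : f u = 0 := by
      have h1 := t.hf u
      rw [h0] at h1
      simp only [LinearMap.zero_apply, map_zero, sub_zero] at h1
      exact (smul_eq_zero.mp h1.symm).resolve_left (by norm_num)
    refine ⟨0, by rw [hc0]; simp, fun i hi => ?_, by simpa using hf0⟩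
    obtain rfl : i = 0 := by omega
    simpa using hu
  · have hp : (t.isSl2 h0).HasPrimitiveVectorWith u c := ⟨hu, hc, he⟩
    obtain ⟨n, hn⟩ := hp.exists_nat
    refine ⟨n, hn, fun i hi => ?_, ?_⟩
    · exact hp.pow_toEnd_f_ne_zero_of_eq_nat hn hi
    · exact hp.pow_toEnd_f_eq_zero_of_eq_nat hn

lemma Tri.exists_prim [Nontrivial V] (t : Tri h e f) :
    ∃ (u : V) (c : ℂ), u ≠ 0 ∧ h u = c • u ∧ e u = 0 := by
  have hfin : {μ | h.HasEigenvalue μ}.Finite := Module.End.finite_hasEigenvalue _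
  obtain ⟨μ0, hμ0⟩ := Module.End.exists_eigenvalue h
  obtain ⟨μ, hμ, hmax⟩ := Set.exists_max_image {μ | h.HasEigenvalue μ}
    (fun ν : ℂ => ν.re) hfin ⟨μ0, hμ0⟩
  obtain ⟨v, hv⟩ := Module.End.HasEigenvalue.exists_hasEigenvector hμ
  have hv1 : h v = μ • v := hv.apply_eq_smul
  refine ⟨v, μ, hv.2, hv1, ?_⟩
  by_contra hne
  have h2 : h.HasEigenvalue (μ + 2) :=
    Module.End.hasEigenvalue_of_hasEigenvector (x := e v)
      ⟨Module.End.mem_eigenspace_iff.mpr (t.e_wt hv1), hne⟩
  have h3 := hmax _ h2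
  simp only [Complex.add_re] at h3
  have h4 : (2 : ℂ).re = 2 := rfl
  rw [h4] at h3
  linarith

/-- in weight zero the kernels of `e` and `f` agree -/
lemma Tri.f_zero (t : Tri h e f) {v : V} (hv : h v = 0) (he : e v = 0) : f v = 0 := by
  by_contra hne
  have h1 : e (f v) = 0 := by
    have := t.ef v
    rw [he, map_zero, sub_zero, hv] at this
    exact this
  have h2 : h (f v) = (-2 : ℂ) • f v := by
    have := t.f_wt (c := 0) (v := v) (by rw [hv, zero_smul])
    rw [this, zero_sub]
  obtain ⟨n, hn, -⟩ := t.prim hne h2 h1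
  have h3 := congrArg Complex.re hn
  simp only [Complex.neg_re, Complex.natCast_re] at h3
  have h4 : (2 : ℂ).re = 2 := rfl
  rw [h4] at h3
  have h5 : (0 : ℝ) ≤ n := Nat.cast_nonneg n
  linarith

lemma Tri.e_zero (t : Tri h e f) {v : V} (hv : h v = 0) (hf : f v = 0) : e v = 0 :=
  t.symm.f_zero (by rw [LinearMap.neg_apply, hv, neg_zero]) hf

/-- the map of three copies of the weight space of weight zero -/
noncomputable def triMap (h e f : Module.End ℂ V) :
    (LinearMap.ker h × LinearMap.ker h) × LinearMap.ker h →ₗ[ℂ] V :=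
  LinearMap.coprod (LinearMap.coprod (LinearMap.ker h).subtype
    (e ∘ₗ (LinearMap.ker h).subtype)) (f ∘ₗ (LinearMap.ker h).subtype)

lemma triMap_apply (a b c : LinearMap.ker h) :
    triMap h e f ((a, b), c) = (a : V) + e b + f c := rfl

lemma Tri.triMap_inj (t : Tri h e f) (h0 : ∀ v, h v = 0 → e v = 0 → v = 0) :
    Function.Injective (triMap h e f) := by
  rw [injective_iff_map_eq_zero]
  rintro ⟨⟨a, b⟩, c⟩ habc
  rw [triMap_apply] at habc
  have ha : h (a : V) = 0 := LinearMap.mem_ker.mp a.2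
  have hb : h (b : V) = 0 := LinearMap.mem_ker.mp b.2
  have hc : h (c : V) = 0 := LinearMap.mem_ker.mp c.2
  have hb1 : h (e (b : V)) = (2 : ℂ) • e (b : V) := by
    rw [t.e_wt (c := 0) (by rw [hb, zero_smul]), zero_add]
  have hc1 : h (f (c : V)) = (-2 : ℂ) • f (c : V) := by
    rw [t.f_wt (c := 0) (by rw [hc, zero_smul]), zero_sub]
  have e1 := congrArg h habc
  rw [map_add, map_add, ha, hb1, hc1, zero_add, map_zero] at e1
  have e2 := congrArg h e1
  rw [map_add, map_smul, map_smul, hb1, hc1, map_zero, smul_smul, smul_smul] at e2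
  have hb2 : e (b : V) = 0 := by
    have : (8 : ℂ) • e (b : V) = 0 := by
      have h1 : (8 : ℂ) • e (b : V) = (2 : ℂ) • ((2 : ℂ) • e (b : V) + (-2 : ℂ) • f (c : V)) +
          ((2 * 2 : ℂ) • e (b : V) + (-2 * -2 : ℂ) • f (c : V)) := by module
      rw [h1, e1, e2, smul_zero, add_zero]
    exact (smul_eq_zero.mp this).resolve_left (by norm_num)
  have hc2 : f (c : V) = 0 := by
    rw [hb2, smul_zero, zero_add] at e1
    exact (smul_eq_zero.mp e1).resolve_left (by norm_num)
  have hb3 : (b : V) = 0 := h0 _ hb hb2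
  have hc3 : (c : V) = 0 := h0 _ hc (t.e_zero hc hc2)
  have ha3 : (a : V) = 0 := by
    rw [hb2, hc2, add_zero, add_zero] at habc
    exact habc
  rw [Submodule.coe_eq_zero] at ha3 hb3 hc3
  rw [ha3, hb3, hc3]
  rfl

/-- without invariants the weight zero has at most a third of the dimension -/
theorem Tri.three_mul (t : Tri h e f) (h0 : ∀ v, h v = 0 → e v = 0 → v = 0) :
    3 * finrank ℂ (LinearMap.ker h) ≤ finrank ℂ V := by
  have h1 := LinearMap.finrank_le_finrank_of_injective (t.triMap_inj h0)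
  rw [Module.finrank_prod, Module.finrank_prod] at h1
  omega

/-- even representations have a vector of weight zero -/
theorem Tri.ker_ne [Nontrivial V] (t : Tri h e f)
    (hev : ∀ (c : ℂ) (v : V), v ≠ 0 → h v = c • v → ∃ m : ℤ, Even m ∧ c = m) :
    ∃ v, v ≠ 0 ∧ h v = 0 := by
  obtain ⟨u, c, hu, hc, he⟩ := t.exists_prim
  obtain ⟨n, hn, hn1, -⟩ := t.prim hu hc he
  obtain ⟨m, hm, hcm⟩ := hev c u hu hc
  have hnm : (n : ℤ) = m := by
    have : ((n : ℤ) : ℂ) = (m : ℂ) := by rw [← hcm, hn]; simp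
    exact_mod_cast this
  have hne : Even n := by
    have h2 : Even (n : ℤ) := by rw [hnm]; exact hm
    exact_mod_cast h2
  obtain ⟨j, hj⟩ := hne
  refine ⟨(f ^ j) u, hn1 j (by omega), ?_⟩
  rw [t.f_pow_wt hc j, hn, hj]
  have : (((j + j : ℕ) : ℂ) - 2 * j) = 0 := by push_cast; ring
  rw [this, zero_smul]

section two

variable (t : Tri h e f) (t' : Tri h' e' f')

/-- the restriction of a commuting triple to the weight zero -/
lemma Tri.restr (t : Tri h e f) (ch : ∀ v, h (h' v) = h' (h v)) (ce : ∀ v, e (h' v) = h' (e v))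
    (cf : ∀ v, f (h' v) = h' (f v)) :
    ∃ H E F : Module.End ℂ (LinearMap.ker h'), Tri H E F ∧
      (∀ v, ((H v : LinearMap.ker h') : V) = h v) ∧ (∀ v, ((E v : LinearMap.ker h') : V) = e v) ∧
      (∀ v, ((F v : LinearMap.ker h') : V) = f v) := by
  have key : ∀ (x : Module.End ℂ V), (∀ v, x (h' v) = h' (x v)) →
      ∀ v ∈ LinearMap.ker h', x v ∈ LinearMap.ker h' := by
    intro x hx v hv
    rw [LinearMap.mem_ker] at hv ⊢
    rw [← hx, hv, map_zero]
  refine ⟨h.restrict (key h ch), e.restrict (key e ce), f.restrict (key f cf), ⟨?_, ?_, ?_⟩,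
    fun v => rfl, fun v => rfl, fun v => rfl⟩
  · exact fun v => Subtype.ext (t.ef v)
  · exact fun v => Subtype.ext (t.he v)
  · exact fun v => Subtype.ext (t.hf v)

include t t' in
/-- two commuting even representations without invariants -/
theorem nine_le [Nontrivial V] (ch : ∀ v, h (h' v) = h' (h v)) (ce : ∀ v, e (h' v) = h' (e v))
    (cf : ∀ v, f (h' v) = h' (f v))
    (hev : ∀ (c : ℂ) (v : V), v ≠ 0 → h v = c • v → ∃ m : ℤ, Even m ∧ c = m)
    (hev' : ∀ (c : ℂ) (v : V), v ≠ 0 → h' v = c • v → ∃ m : ℤ, Even m ∧ c = m)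
    (h0 : ∀ v, h v = 0 → e v = 0 → v = 0) (h0' : ∀ v, h' v = 0 → e' v = 0 → v = 0) :
    9 ≤ finrank ℂ V := by
  obtain ⟨v, hv0, hv⟩ := t'.ker_ne hev'
  have hnt : Nontrivial (LinearMap.ker h') := by
    refine ⟨⟨⟨v, LinearMap.mem_ker.mpr hv⟩, 0, fun h1 => hv0 ?_⟩⟩
    exact congrArg Subtype.val h1
  have h1 := t'.three_mul h0'
  obtain ⟨H, E, F, T, hH, hE, hF⟩ := t.restr ch ce cf
  have h2 := T.three_mul (fun v hv1 hv2 => by
    apply Subtype.ext
    refine h0 _ ?_ ?_
    · rw [← hH, hv1]; rfl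
    · rw [← hE, hv2]; rfl)
  obtain ⟨w, hw0, hw⟩ := T.ker_ne (fun c v hv hc => by
    refine hev c v (fun h3 => hv (Subtype.ext h3)) ?_
    rw [← hH, hc]; rfl)
  have hnt2 : Nontrivial (LinearMap.ker H) := by
    refine ⟨⟨⟨w, LinearMap.mem_ker.mpr hw⟩, 0, fun h1 => hw0 ?_⟩⟩
    exact congrArg Subtype.val h1
  have h3 : 0 < finrank ℂ (LinearMap.ker H) := Module.finrank_pos
  omega

include t t' in
/-- an odd and an even representation, which commute, on a space of dimension six -/
theorem mixed_sq (hdim : finrank ℂ V = 6)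
    (ch : ∀ v, h (h' v) = h' (h v)) (ce : ∀ v, e (h' v) = h' (e v))
    (cf : ∀ v, f (h' v) = h' (f v)) (che : ∀ v, h (e' v) = e' (h v))
    (cee : ∀ v, e (e' v) = e' (e v)) (cfe : ∀ v, f (e' v) = e' (f v))
    (chf : ∀ v, h (f' v) = f' (h v)) (cef : ∀ v, e (f' v) = f' (e v))
    (cff : ∀ v, f (f' v) = f' (f v))
    (hodd : ∀ (c : ℂ) (v : V), v ≠ 0 → h v = c • v → ∃ m : ℤ, Odd m ∧ c = m)
    (hev' : ∀ (c : ℂ) (v : V), v ≠ 0 → h' v = c • v → ∃ m : ℤ, Even m ∧ c = m)
    (h0' : ∀ v, h' v = 0 → e' v = 0 → v = 0) (a b c : ℂ) :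
    ∃ k : ℂ, ∀ v, (a • h + b • e + c • f) ((a • h + b • e + c • f) v) = k • v := by
  have hntV : Nontrivial V := Module.nontrivial_of_finrank_pos (R := ℂ) (by omega)
  obtain ⟨v, hv0, hv⟩ := t'.ker_ne hev'
  have hnt : Nontrivial (LinearMap.ker h') := by
    refine ⟨⟨⟨v, LinearMap.mem_ker.mpr hv⟩, 0, fun h1 => hv0 ?_⟩⟩
    exact congrArg Subtype.val h1
  have h1 := t'.three_mul h0'
  have hinj := t'.triMap_inj h0'
  obtain ⟨H, E, F, T, hH, hE, hF⟩ := t.restr ch ce cf
  obtain ⟨u, d, hu, hd, hue⟩ := T.exists_prim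
  obtain ⟨n, hn, hn1, hn2⟩ := T.prim hu hd hue
  have hodd' : Odd n := by
    obtain ⟨m, hm, hcm⟩ := hodd d u (fun h3 => hu (Subtype.ext h3)) (by rw [← hH, hd]; rfl)
    have hnm : (n : ℤ) = m := by
      have : ((n : ℤ) : ℂ) = (m : ℂ) := by rw [← hcm, hn]; simp
      exact_mod_cast this
    have h2 : Odd (n : ℤ) := by rw [hnm]; exact hm
    exact_mod_cast h2
  have hli : LinearIndependent ℂ (fun i : Fin (n + 1) => (F ^ (i : ℕ)) u) := by
    refine Module.End.eigenvectors_linearIndependent' H (fun i : Fin (n + 1) => d - 2 * (i : ℕ))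
      (fun i j hij => ?_) _ (fun i => ⟨Module.End.mem_eigenspace_iff.mpr (T.f_pow_wt hd i),
        hn1 i (by have := i.2; omega)⟩)
    have h3 : ((i : ℕ) : ℂ) = ((j : ℕ) : ℂ) := by
      have h4 : d - 2 * ((i : ℕ) : ℂ) = d - 2 * ((j : ℕ) : ℂ) := hij
      linear_combination (-1 / 2) * h4
    exact Fin.ext (by exact_mod_cast h3)
  have hcard := hli.fintype_card_le_finrank
  rw [Fintype.card_fin] at hcard
  obtain rfl : n = 1 := by
    obtain ⟨j, hj⟩ := hodd'
    omega
  have hker : finrank ℂ (LinearMap.ker h') = 2 := by omega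
  have hspan := hli.span_eq_top_of_card_eq_finrank (by rw [Fintype.card_fin, hker])
  have hFu : F (F u) = 0 := by
    have := hn2
    rw [show (1 + 1 : ℕ) = 2 from rfl, pow_two, Module.End.mul_apply] at this
    exact this
  have hHu : H u = u := by
    rw [hd, hn]; simp
  have hHF : H (F u) = - F u := by
    rw [T.f_wt hd, hn]
    have : ((1 : ℕ) : ℂ) - 2 = -1 := by push_cast; ring
    rw [this, neg_one_smul]
  have hEF : E (F u) = u := by
    have := T.ef u
    rw [hue, map_zero, sub_zero, hHu] at this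
    exact this
  obtain ⟨X, hX⟩ : ∃ X, X = a • h + b • e + c • f := ⟨_, rfl⟩
  obtain ⟨Y, hY⟩ : ∃ Y, Y = a • H + b • E + c • F := ⟨_, rfl⟩
  have hXY : ∀ v, ((Y v : LinearMap.ker h') : V) = X v := by
    intro v
    rw [hX, hY]
    simp only [LinearMap.add_apply, LinearMap.smul_apply, Submodule.coe_add, Submodule.coe_smul,
      hH, hE, hF]
  have hYu : Y u = a • u + c • F u := by
    rw [hY]
    simp only [LinearMap.add_apply, LinearMap.smul_apply, hHu, hue, smul_zero, add_zero]
  have hYF : Y (F u) = b • u - a • F u := by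
    rw [hY]
    simp only [LinearMap.add_apply, LinearMap.smul_apply, hHF, hEF, hFu, smul_zero, add_zero,
      smul_neg]
    abel
  have hY2 : ∀ v, Y (Y v) = (a * a + b * c) • v := by
    have h5 : Y * Y = (a * a + b * c) • (1 : Module.End ℂ (LinearMap.ker h')) := by
      refine LinearMap.ext_on hspan ?_
      rintro _ ⟨i, rfl⟩
      have hi : i = 0 ∨ i = 1 := by
        have h6 := i.2
        rcases i with ⟨i, hi⟩
        have h7 : i = 0 ∨ i = 1 := by omega
        rcases h7 with rfl | rfl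
        · left; rfl
        · right; rfl
      rcases hi with rfl | rfl
      · have h8 : (fun i : Fin (1 + 1) => (F ^ (i : ℕ)) u) 0 = u := by simp
        rw [h8, Module.End.mul_apply, hYu, map_add, map_smul, map_smul, hYu, hYF,
          LinearMap.smul_apply, Module.End.one_apply]
        module
      · have h8 : (fun i : Fin (1 + 1) => (F ^ (i : ℕ)) u) 1 = F u := by simp
        rw [h8, Module.End.mul_apply, hYF, map_sub, map_smul, map_smul, hYu, hYF,
          LinearMap.smul_apply, Module.End.one_apply]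
        module
    intro v
    have h6 := LinearMap.congr_fun h5 v
    rwa [Module.End.mul_apply] at h6
  have hX0 : ∀ v : LinearMap.ker h', X (X (v : V)) = (a * a + b * c) • (v : V) := by
    intro v
    rw [← hXY, ← hXY, hY2]; rfl
  have cXe : ∀ v, X (e' v) = e' (X v) := by
    intro v
    rw [hX]
    simp only [LinearMap.add_apply, LinearMap.smul_apply, map_add, map_smul, che, cee, cfe]
  have cXf : ∀ v, X (f' v) = f' (X v) := by
    intro v
    rw [hX]
    simp only [LinearMap.add_apply, LinearMap.smul_apply, map_add, map_smul, chf, cef, cff]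
  have hsurj : Function.Surjective (triMap h' e' f') := by
    rw [← LinearMap.injective_iff_surjective_of_finrank_eq_finrank (by
      rw [Module.finrank_prod, Module.finrank_prod, hker, hdim])]
    exact hinj
  refine ⟨a * a + b * c, fun v => ?_⟩
  rw [← hX]
  obtain ⟨⟨⟨x, y⟩, z⟩, rfl⟩ := hsurj v
  rw [triMap_apply, map_add, map_add, map_add, map_add, cXe, cXe, cXf, cXf, hX0, hX0, hX0,
    map_smul, map_smul, smul_add, smul_add]

end two

end Pool.Agent.Helper35.GPC
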