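import Pool.Agent.Helper35.GPC.Parity
import Pool.Agent.Helper35.GPC.Sl2Dim

/-!
The ideal of a semisimple Lie algebra belonging to a plane, and its action on other irreducible
modules.
-/

namespace Pool.Agent.Helper35.GPC

open Module LieAlgebra LieModule
open Pool.Agent.Helper8 (Principal Symp ML2 Inv2 irr_cases exists_principal)
open Pool.Agent.Helper7 (ConjRep goursat_finset sl2_mem mE mF mH tr_mE tr_mF tr_mH mE00 mE01 mE10
  mE11 mF00 mF01 mF10 mF11)
open Pool.Agent.Helper24 (ProjTriple exists_projTriple exists_parity kerI mt mt_apply mt_br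
  mt_toLin mt_surj not_conjRep lie_zero_of_disjoint trace_parity even_of_three)

set_option linter.unusedSectionVars false

attribute [local instance 100] LieRing.ofAssociativeRing

variable {L : Type*} [LieRing L] [LieAlgebra ℂ L] [FiniteDimensional ℂ L] [IsKilling ℂ L]

lemma zero_of_central (z : L) (hz : ∀ w : L, ⁅w, z⁆ = 0) : z = 0 := by
  have h1 : z ∈ center ℂ L := by
    rw [LieModule.mem_maxTrivSubmodule]
    exact hz
  have h2 : center ℂ L = ⊥ := by
    simp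
  rw [h2] at h1
  exact (LieSubmodule.mem_bot z).mp h1

/-- the ideal belonging to a plane -/
structure PIdeal (V : Type*) [AddCommGroup V] [Module ℂ V] [LieRingModule L V]
    [LieModule ℂ L V] (b : Basis (Fin 2) ℂ V) (J : LieIdeal ℂ L) (h e f : L) : Prop where
  /-- the ideal acts faithfully -/
  inj : ∀ x ∈ J, (∀ v : V, ⁅x, v⁆ = 0) → x = 0
  dec : ∀ x : L, ∃ y ∈ J, ∃ z : L, (∀ v : V, ⁅z, v⁆ = 0) ∧ y + z = x
  cen : ∀ x ∈ J, ∀ z : L, (∀ v : V, ⁅z, v⁆ = 0) → ⁅x, z⁆ = 0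
  mem : ∀ x : L, (∀ z : L, (∀ v : V, ⁅z, v⁆ = 0) → ⁅x, z⁆ = 0) → x ∈ J
  tri : ProjTriple J h h e f
  mh : mt (L := L) b h = mH
  me : mt (L := L) b e = mE
  mf : mt (L := L) b f = mF
  span : ∀ x ∈ J, ∃ p q r : ℂ, x = p • h + q • e + r • f
  surj : ∀ Z : Matrix (Fin 2) (Fin 2) ℂ, Z.trace = 0 → ∃ x ∈ J, mt (L := L) b x = Z

section exist

variable {V : Type*} [AddCommGroup V] [Module ℂ V] [LieRingModule L V] [LieModule ℂ L V]
  [LieModule.IsIrreducible ℂ L V] (b : Basis (Fin 2) ℂ V)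
  (htr : ∀ a : L, LinearMap.trace ℂ V (toEnd ℂ L V a) = 0)

omit [FiniteDimensional ℂ L] [IsKilling ℂ L] [LieModule.IsIrreducible ℂ L V] in
lemma mt_zero_iff (x : L) : mt (L := L) b x = 0 ↔ ∀ v : V, ⁅x, v⁆ = 0 := by
  constructor
  · intro h v
    rw [← mt_toLin b, h, map_zero, LinearMap.zero_apply]
  · intro h
    rw [mt_apply]
    have : toEnd ℂ L V x = 0 := LinearMap.ext fun v => h v
    rw [this, map_zero]

lemma mEF : mE * mF - mF * mE = mH := by
  ext i j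
  fin_cases i <;> fin_cases j <;> simp [mE, mF, mH]

lemma mHE : mH * mE - mE * mH = (2 : ℂ) • mE := by
  ext i j
  fin_cases i <;> fin_cases j <;> simp [mE, mH]
  norm_num

lemma mHF : mH * mF - mF * mH = (-2 : ℂ) • mF := by
  ext i j
  fin_cases i <;> fin_cases j <;> simp [mF, mH]
  norm_num

include htr in
theorem exists_pideal : ∃ (J : LieIdeal ℂ L) (h e f : L), PIdeal V b J h e f := by
  obtain ⟨J, hJ⟩ := exists_isCompl (LieModule.ker ℂ L V)
  have hd := hJ.disjoint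
  have hdec : ∀ x : L, ∃ y ∈ J, ∃ z : L, (∀ v : V, ⁅z, v⁆ = 0) ∧ y + z = x := by
    intro x
    obtain ⟨z, hz, y, hy, hzy⟩ : ∃ z ∈ LieModule.ker ℂ L V, ∃ y ∈ J, z + y = x := by
      rw [← LieSubmodule.mem_sup, hJ.sup_eq_top]
      exact LieSubmodule.mem_top x
    exact ⟨y, hy, z, (LieModule.mem_ker ℂ L V z).mp hz, by rw [add_comm]; exact hzy⟩
  have hinj : ∀ x ∈ J, (∀ v : V, ⁅x, v⁆ = 0) → x = 0 := by
    intro x hx hv
    have h1 : x ∈ LieModule.ker ℂ L V ⊓ J :=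
      (LieSubmodule.mem_inf _ _ x).mpr ⟨(LieModule.mem_ker ℂ L V x).mpr hv, hx⟩
    rw [hJ.inf_eq_bot] at h1
    exact (LieSubmodule.mem_bot x).mp h1
  have hcen : ∀ x ∈ J, ∀ z : L, (∀ v : V, ⁅z, v⁆ = 0) → ⁅x, z⁆ = 0 := fun x hx z hz =>
    lie_zero_of_disjoint hd.symm hx ((LieModule.mem_ker ℂ L V z).mpr hz)
  have hmem : ∀ x : L, (∀ z : L, (∀ v : V, ⁅z, v⁆ = 0) → ⁅x, z⁆ = 0) → x ∈ J := by
    intro x hx
    obtain ⟨y, hy, z, hz, rfl⟩ := hdec x
    have hz0 : z = 0 := by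
      refine zero_of_central z fun w => ?_
      obtain ⟨y', hy', z', hz', rfl⟩ := hdec w
      have h1 := hx z' hz'
      rw [add_lie, hcen y hy z' hz', zero_add] at h1
      rw [add_lie, hcen y' hy' z hz, zero_add, ← lie_skew, h1, neg_zero]
    rw [hz0, add_zero]
    exact hy
  have hsurj : ∀ Z : Matrix (Fin 2) (Fin 2) ℂ, Z.trace = 0 → ∃ x ∈ J, mt (L := L) b x = Z := by
    intro Z hZ
    obtain ⟨x, hx⟩ := mt_surj (L := L) b Z hZ
    obtain ⟨y, hy, z, hz, rfl⟩ := hdec x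
    refine ⟨y, hy, ?_⟩
    rw [map_add, (mt_zero_iff b z).mpr hz, add_zero] at hx
    exact hx
  have heq : ∀ x ∈ J, ∀ y ∈ J, mt (L := L) b x = mt b y → x = y := by
    intro x hx y hy hxy
    have h1 : mt (L := L) b (x - y) = 0 := by rw [map_sub, hxy, sub_self]
    exact sub_eq_zero.mp (hinj _ (J.sub_mem hx hy) ((mt_zero_iff b _).mp h1))
  obtain ⟨e, he, hme⟩ := hsurj mE tr_mE
  obtain ⟨f, hf, hmf⟩ := hsurj mF tr_mF
  have hh : ⁅e, f⁆ ∈ J := lie_mem_left ℂ L J e f he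
  have hmh : mt (L := L) b ⁅e, f⁆ = mH := by rw [mt_br, hme, hmf, mEF]
  have hhe : ⁅⁅e, f⁆, e⁆ = (2 : ℂ) • e := by
    refine heq _ (lie_mem_left ℂ L J _ _ hh) _ (J.smul_mem _ he) ?_
    rw [mt_br, hmh, hme, mHE, map_smul, hme]
  have hhf : ⁅⁅e, f⁆, f⁆ = (-2 : ℂ) • f := by
    refine heq _ (lie_mem_left ℂ L J _ _ hh) _ (J.smul_mem _ hf) ?_
    rw [mt_br, hmh, hmf, mHF, map_smul, hmf]
  have hspan : ∀ x ∈ J, ∃ p q r : ℂ, x = p • ⁅e, f⁆ + q • e + r • f := by
    intro x hx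
    have htx : (mt (L := L) b x).trace = 0 := by
      rw [mt_apply, ← LinearMap.trace_eq_matrix_trace, htr]
    obtain ⟨M, hM⟩ : ∃ M, M = mt (L := L) b x := ⟨_, rfl⟩
    rw [← hM, Matrix.trace_fin_two] at htx
    refine ⟨M 0 0, M 0 1, M 1 0, heq _ hx _ (J.add_mem (J.add_mem (J.smul_mem _ hh)
      (J.smul_mem _ he)) (J.smul_mem _ hf)) ?_⟩
    rw [map_add, map_add, map_smul, map_smul, map_smul, hmh, hme, hmf, ← hM]
    ext i j
    fin_cases i <;> fin_cases j
    · simp [mE, mF, mH]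
    · simp [mE, mF, mH]
    · simp [mE, mF, mH]
    · simp [mE, mF, mH]
      linear_combination htx
  refine ⟨J, ⁅e, f⁆, e, f, hinj, hdec, hcen, hmem, ⟨hh, rfl, hhe, hhf, fun x hx => by
    rw [sub_self, zero_lie], ?_⟩, hmh, hme, hmf, hspan, hsurj⟩
  intro x
  obtain ⟨y, hy, z, hz, rfl⟩ := hdec x
  obtain ⟨p, q, r, rfl⟩ := hspan y hy
  refine Submodule.add_mem _ (Submodule.add_mem _ (Submodule.add_mem _ ?_ ?_) ?_) ?_
  · refine Submodule.smul_mem _ _ (Submodule.subset_span ⟨0, ?_⟩)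
    rw [lie_self]; simp
  · refine Submodule.smul_mem _ _ (Submodule.subset_span ⟨1, ?_⟩)
    rw [hhe]; norm_num
  · refine Submodule.smul_mem _ _ (Submodule.subset_span ⟨-1, ?_⟩)
    rw [hhf]; norm_num
  · refine Submodule.subset_span ⟨0, ?_⟩
    rw [hcen _ hh z hz]; simp

end exist

section act

variable {V : Type*} [AddCommGroup V] [Module ℂ V] [LieRingModule L V]
    [LieModule ℂ L V] {b : Basis (Fin 2) ℂ V} {J : LieIdeal ℂ L} {h e f : L}
    (D : PIdeal V b J h e f)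

include D in
/-- the ideal acts trivially on a module if some element with kernel the module acts like `h` -/
lemma PIdeal.trivial_of (W : Type*) [AddCommGroup W] [Module ℂ W] [LieRingModule L W]
    [LieModule ℂ L W] (hX : ∃ X : L, mt (L := L) b X = mH ∧ ∀ w : W, ⁅X, w⁆ = 0) :
    ∀ x ∈ J, ∀ w : W, ⁅x, w⁆ = 0 := by
  obtain ⟨X, hX1, hX2⟩ := hX
  have hbr : ∀ y : L, ∀ w : W, ⁅⁅X, y⁆, w⁆ = 0 := by
    intro y w
    rw [lie_lie, hX2, hX2, lie_zero, sub_zero]
  have heq : ∀ x ∈ J, ∀ y ∈ J, mt (L := L) b x = mt b y → x = y := by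
    intro x hx y hy hxy
    have h1 : mt (L := L) b (x - y) = 0 := by rw [map_sub, hxy, sub_self]
    exact sub_eq_zero.mp (D.inj _ (J.sub_mem hx hy) ((mt_zero_iff b _).mp h1))
  have he := D.tri.e_mem
  have hf := D.tri.f_mem
  have e1 : ⁅X, e⁆ = (2 : ℂ) • e := by
    refine heq _ (lie_mem_right ℂ L J _ _ he) _ (J.smul_mem _ he) ?_
    rw [mt_br, hX1, D.me, mHE, map_smul, D.me]
  have f1 : ⁅X, f⁆ = (-2 : ℂ) • f := by
    refine heq _ (lie_mem_right ℂ L J _ _ hf) _ (J.smul_mem _ hf) ?_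
    rw [mt_br, hX1, D.mf, mHF, map_smul, D.mf]
  have e2 : ∀ w : W, ⁅e, w⁆ = 0 := by
    intro w
    have := hbr e w
    rw [e1, smul_lie] at this
    exact (smul_eq_zero.mp this).resolve_left (by norm_num)
  have f2 : ∀ w : W, ⁅f, w⁆ = 0 := by
    intro w
    have := hbr f w
    rw [f1, smul_lie] at this
    exact (smul_eq_zero.mp this).resolve_left (by norm_num)
  have h2 : ∀ w : W, ⁅h, w⁆ = 0 := by
    intro w
    rw [← D.tri.ef, lie_lie, e2, f2, sub_zero]
  intro x hx w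
  obtain ⟨p, q, r, rfl⟩ := D.span x hx
  rw [add_lie, add_lie, smul_lie, smul_lie, smul_lie, h2, e2, f2, smul_zero, smul_zero, smul_zero,
    add_zero, add_zero]

variable (W : Type*) [AddCommGroup W] [Module ℂ W] [LieRingModule L W] [LieModule ℂ L W]

omit [FiniteDimensional ℂ L] [IsKilling ℂ L] in
lemma _root_.Pool.Agent.Helper24.ProjTriple.toTri {J : LieIdeal ℂ L} {h0 h e f : L}
    (t : ProjTriple J h0 h e f) :
    Tri (toEnd ℂ L W h) (toEnd ℂ L W e) (toEnd ℂ L W f) where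
  ef v := by
    rw [toEnd_apply_apply, toEnd_apply_apply, toEnd_apply_apply, toEnd_apply_apply,
      toEnd_apply_apply, ← lie_lie, t.ef]
  he v := by
    rw [toEnd_apply_apply, toEnd_apply_apply, toEnd_apply_apply, toEnd_apply_apply,
      ← lie_lie, t.he, smul_lie]
  hf v := by
    rw [toEnd_apply_apply, toEnd_apply_apply, toEnd_apply_apply, toEnd_apply_apply,
      ← lie_lie, t.hf, smul_lie]

variable [FiniteDimensional ℂ W] [LieModule.IsIrreducible ℂ L W]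

include D in
/-- an ideal which acts non-trivially on an irreducible module has no invariants -/
lemma PIdeal.no_inv (hne : ∃ x ∈ J, ∃ w : W, ⁅x, w⁆ ≠ 0) (w : W) (h1 : ⁅h, w⁆ = 0)
    (h2 : ⁅e, w⁆ = 0) : w = 0 := by
  have h3 : ⁅f, w⁆ = 0 := (D.tri.toTri W).f_zero (v := w) h1 h2
  have hall : ∀ x ∈ J, ⁅x, w⁆ = 0 := by
    intro x hx
    obtain ⟨p, q, r, rfl⟩ := D.span x hx
    rw [add_lie, add_lie, smul_lie, smul_lie, smul_lie, h1, h2, h3, smul_zero, smul_zero,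
      smul_zero, add_zero, add_zero]
  let N : Submodule ℂ W :=
    { carrier := {w | ∀ x ∈ J, ⁅x, w⁆ = 0}
      add_mem' := fun {a c} ha hc x hx => by rw [lie_add, ha x hx, hc x hx, add_zero]
      zero_mem' := fun x _ => lie_zero x
      smul_mem' := fun c a ha x hx => by rw [lie_smul, ha x hx, smul_zero] }
  rcases irr_cases (L := L) N (fun y v hv x hx => by
    rw [leibniz_lie, hv x hx, lie_zero, add_zero, hv _ (lie_mem_left ℂ L J x y hx)]) with h4 | h4
  · have h5 : w ∈ N := hall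
    rw [h4] at h5
    exact (Submodule.mem_bot ℂ).mp h5
  · exfalso
    obtain ⟨x, hx, v, hv⟩ := hne
    have h5 : v ∈ N := by rw [h4]; trivial
    exact hv (h5 x hx)

omit [FiniteDimensional ℂ L] [IsKilling ℂ L] [LieModule.IsIrreducible ℂ L W] in
lemma eig_cond (h : L) (Q : ℤ → Prop)
    (hs : ⊤ ≤ Submodule.span ℂ {v : W | ∃ m : ℤ, Q m ∧ ⁅h, v⁆ = (m : ℂ) • v}) (c : ℂ) (v : W)
    (hv : v ≠ 0) (hc : toEnd ℂ L W h v = c • v) : ∃ m : ℤ, Q m ∧ c = m := by
  refine eig_of_span (toEnd ℂ L W h) (fun μ => ∃ m : ℤ, Q m ∧ μ = m) (hs.trans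
    (Submodule.span_mono ?_)) hc hv
  rintro u ⟨m, hm, hu⟩
  exact ⟨m, ⟨m, hm, rfl⟩, hu⟩

end act

section two

variable {V V' : Type*} [AddCommGroup V] [Module ℂ V] [LieRingModule L V]
    [LieModule ℂ L V] [AddCommGroup V'] [Module ℂ V'] [LieRingModule L V']
    [LieModule ℂ L V'] {b : Basis (Fin 2) ℂ V} {b' : Basis (Fin 2) ℂ V'}
    {J J' : LieIdeal ℂ L} {h e f h' e' f' : L}
    (D : PIdeal V b J h e f) (D' : PIdeal V' b' J' h' e' f') (hd : Disjoint J J')
    (W : Type*) [AddCommGroup W] [Module ℂ W] [LieRingModule L W] [LieModule ℂ L W]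
    [FiniteDimensional ℂ W] [LieModule.IsIrreducible ℂ L W]
    (hne : ∃ x ∈ J, ∃ w : W, ⁅x, w⁆ ≠ 0) (hne' : ∃ x ∈ J', ∃ w : W, ⁅x, w⁆ ≠ 0)

omit [FiniteDimensional ℂ W] [LieModule.IsIrreducible ℂ L W] in
lemma comm_of_disjoint (hd : Disjoint J J') {x y : L} (hx : x ∈ J) (hy : y ∈ J') (w : W) :
    ⁅x, ⁅y, w⁆⁆ = ⁅y, ⁅x, w⁆⁆ := by
  have h1 := lie_zero_of_disjoint hd hx hy
  have h2 : ⁅⁅x, y⁆, w⁆ = 0 := by rw [h1, zero_lie]
  rw [lie_lie] at h2
  exact sub_eq_zero.mp h2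

include D D' hd hne hne' in
/-- two even weights -/
lemma nine_of_even
    (hev : ⊤ ≤ Submodule.span ℂ {v : W | ∃ m : ℤ, Even m ∧ ⁅h, v⁆ = (m : ℂ) • v})
    (hev' : ⊤ ≤ Submodule.span ℂ {v : W | ∃ m : ℤ, Even m ∧ ⁅h', v⁆ = (m : ℂ) • v}) :
    9 ≤ finrank ℂ W := by
  have hnt : Nontrivial W := LieModule.nontrivial_of_isIrreducible ℂ L W
  have c := fun {x : L} (hx : x ∈ J) (w : W) => comm_of_disjoint W hd hx D'.tri.hJ w
  exact nine_le (D.tri.toTri W) (D'.tri.toTri W) (c D.tri.hJ) (c D.tri.e_mem) (c D.tri.f_mem)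
    (eig_cond W h _ hev) (eig_cond W h' _ hev') (D.no_inv W hne) (D'.no_inv W hne')

include D D' hd hne hne' in
/-- two ideals do not act non-trivially on an irreducible module of dimension three -/
theorem three_absurd (h3 : finrank ℂ W = 3)
    (htr : ∀ a : L, LinearMap.trace ℂ W (toEnd ℂ L W a) = 0) : False := by
  have h1 := nine_of_even D D' hd W hne hne' (even_of_three D.tri h3 htr)
    (even_of_three D'.tri h3 htr)
  omega

/-- all elements of the ideal have scalar squares -/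
def SqS (J : LieIdeal ℂ L) (W : Type*) [AddCommGroup W] [Module ℂ W] [LieRingModule L W]
    [LieModule ℂ L W] : Prop := ∀ x ∈ J, ∃ k : ℂ, ∀ w : W, ⁅x, ⁅x, w⁆⁆ = k • w

include D hne in
/-- an even representation has elements without scalar square -/
lemma not_sqS (hev : ⊤ ≤ Submodule.span ℂ {v : W | ∃ m : ℤ, Even m ∧ ⁅h, v⁆ = (m : ℂ) • v}) :
    ¬ SqS J W := by
  intro hs
  have hnt : Nontrivial W := LieModule.nontrivial_of_isIrreducible ℂ L W
  obtain ⟨k, hk⟩ := hs h D.tri.hJ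
  obtain ⟨v, hv0, hv⟩ := (D.tri.toTri W).ker_ne (eig_cond W h _ hev)
  rw [toEnd_apply_apply] at hv
  have h1 := hk v
  rw [hv, lie_zero] at h1
  have hk0 : k = 0 := (smul_eq_zero.mp h1.symm).resolve_right hv0
  have h2 := (D.tri.toTri W).e_wt (v := v) (c := 0) (by
    rw [toEnd_apply_apply, hv, zero_smul])
  rw [toEnd_apply_apply, toEnd_apply_apply, zero_add] at h2
  have h3 := hk ⁅e, v⁆
  rw [h2, lie_smul, h2, smul_smul, hk0, zero_smul] at h3
  have h4 := (smul_eq_zero.mp h3).resolve_left (by norm_num)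
  exact hv0 (D.no_inv W hne v hv h4)

include D D' hd hne' in
lemma sqS_of_mixed (h6 : finrank ℂ W = 6)
    (hodd : ⊤ ≤ Submodule.span ℂ {v : W | ∃ m : ℤ, Odd m ∧ ⁅h, v⁆ = (m : ℂ) • v})
    (hev' : ⊤ ≤ Submodule.span ℂ {v : W | ∃ m : ℤ, Even m ∧ ⁅h', v⁆ = (m : ℂ) • v}) :
    SqS J W := by
  intro x hx
  obtain ⟨p, q, r, rfl⟩ := D.span x hx
  have c := fun {x : L} (hx : x ∈ J) {y : L} (hy : y ∈ J') (w : W) =>
    comm_of_disjoint W hd hx hy w
  obtain ⟨k, hk⟩ := mixed_sq (D.tri.toTri W) (D'.tri.toTri W) h6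
    (c D.tri.hJ D'.tri.hJ) (c D.tri.e_mem D'.tri.hJ) (c D.tri.f_mem D'.tri.hJ)
    (c D.tri.hJ D'.tri.e_mem) (c D.tri.e_mem D'.tri.e_mem) (c D.tri.f_mem D'.tri.e_mem)
    (c D.tri.hJ D'.tri.f_mem) (c D.tri.e_mem D'.tri.f_mem) (c D.tri.f_mem D'.tri.f_mem)
    (eig_cond W h _ hodd) (eig_cond W h' _ hev') (D'.no_inv W hne') p q r
  refine ⟨k, fun w => ?_⟩
  have h1 := hk w
  simp only [LinearMap.add_apply, LinearMap.smul_apply, toEnd_apply_apply] at h1
  simp only [add_lie, smul_lie]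
  exact h1

include D D' hd hne hne' in
/-- of two ideals acting non-trivially on an irreducible module of dimension six exactly one has
scalar squares -/
theorem six_cases (h6 : finrank ℂ W = 6)
    (htr : ∀ a : L, LinearMap.trace ℂ W (toEnd ℂ L W a) = 0) :
    (SqS J W ∧ ¬ SqS J' W) ∨ (¬ SqS J W ∧ SqS J' W) := by
  rcases parity_cases D.tri W with hev | hodd
  · rcases parity_cases D'.tri W with hev' | hodd'
    · have := nine_of_even D D' hd W hne hne' hev hev'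
      omega
    · exact Or.inr ⟨not_sqS D W hne hev, sqS_of_mixed D' D hd.symm W hne h6 hodd' hev⟩
  · rcases parity_cases D'.tri W with hev' | hodd'
    · exact Or.inl ⟨sqS_of_mixed D D' hd W hne' h6 hodd hev', not_sqS D' W hne' hev'⟩
    · have t1 : ProjTriple J (h + h') h e f := { D.tri with
        comm := fun x hx => by
          rw [add_sub_cancel_left]
          exact lie_zero_of_disjoint hd.symm D'.tri.hJ hx }
      have t2 : ProjTriple J' (h + h') h' e' f' := { D'.tri with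
        comm := fun x hx => by
          rw [add_sub_cancel_right]
          exact lie_zero_of_disjoint hd D.tri.hJ hx }
      have := four_dvd_of_odd t1 t2 hd hodd hodd' (htr _)
      omega

end two

end Pool.Agent.Helper35.GPC
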