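import Pool.Agent.Helper8.H.Slot

/-!
Contraction of two slots with the same label.
-/

namespace Pool.Agent.Helper35.GPC

open Pool.Agent.Helper8 (SF SF0 PS invF piecewise_update piecewise_update' SF.toSF0 SF0.sum
  SF0.sub_slots)

set_option linter.unusedSectionVars false

variable {R W A : Type*} [DecidableEq R] [AddCommGroup W] [Module ℂ W]

/-- dual families for an invariant pairing of the space of a label with itself -/
structure PD (𝒢 : Set (Module.End ℂ W × ℂ)) (E : A → Module.End ℂ W) (a : A) (d : ℕ) where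
  ω : W →ₗ[ℂ] W →ₗ[ℂ] ℂ
  hω : ω ∈ invF 𝒢
  b : Fin d → W
  c : Fin d → W
  hb : ∀ w, E a w = ∑ j, ω w (c j) • b j
  hc : ∀ w, E a w = ∑ j, ω (b j) w • c j

/-- the vectors put in the two slots -/
def PD.z {𝒢 : Set (Module.End ℂ W × ℂ)} {E : A → Module.End ℂ W} {a : A} {d : ℕ}
    (D : PD 𝒢 E a d) (r0 : R) (j : Fin d) (t : R) : W := if t = r0 then D.b j else D.c j

/-- the contraction of a slot function -/
def contr {𝒢 : Set (Module.End ℂ W × ℂ)} {E : A → Module.End ℂ W} {a : A} {d : ℕ}
    (D : PD 𝒢 E a d) (r0 s0 : R) (Φ : (R → W) → ℂ) (v : R → W) : ℂ :=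
  ∑ j, Φ (({r0, s0} : Finset R).piecewise (D.z r0 j) v)

variable {𝒢 : Set (Module.End ℂ W × ℂ)} {E : A → Module.End ℂ W} {q : R → A} {T : Finset R}
  {Φ : (R → W) → ℂ} {a : A} {d : ℕ} (D : PD 𝒢 E a d) {r0 s0 : R}

lemma pw_eq (hne : r0 ≠ s0) (j : Fin d) (v : R → W) :
    ({r0, s0} : Finset R).piecewise (D.z r0 j) v =
      Function.update (Function.update v r0 (D.b j)) s0 (D.c j) := by
  funext t
  by_cases h1 : t = s0
  · subst h1
    rw [Finset.piecewise_eq_of_mem _ _ _ (by simp), Function.update_self, PD.z,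
      if_neg (Ne.symm hne)]
  · rw [Function.update_of_ne h1]
    by_cases h2 : t = r0
    · subst h2
      rw [Finset.piecewise_eq_of_mem _ _ _ (by simp), Function.update_self, PD.z, if_pos rfl]
    · rw [Function.update_of_ne h2, Finset.piecewise_eq_of_notMem _ _ _ (by simp [h1, h2])]

lemma contr_eq (hne : r0 ≠ s0) (v : R → W) : contr D r0 s0 Φ v =
    ∑ j, Φ (Function.update (Function.update v r0 (D.b j)) s0 (D.c j)) := by
  rw [contr]
  exact Finset.sum_congr rfl fun j _ => by rw [pw_eq D hne]

/-- the contraction of two slots with the same label is a slot function -/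
theorem contr_SF (h : SF 𝒢 E q T Φ) (hr0 : r0 ∈ T) (hs0 : s0 ∈ T) (hne : r0 ≠ s0)
    (q1 : q r0 = a) (q2 : q s0 = a) : SF 𝒢 E q (T \ {r0, s0}) (contr D r0 s0 Φ) where
  dep v v' hv := Finset.sum_congr rfl fun j _ =>
    (h.toSF0.sub_slots {r0, s0} (D.z r0 j)).dep v v' hv
  add v r hr x y := by
    simp only [contr]
    rw [← Finset.sum_add_distrib]
    exact Finset.sum_congr rfl fun j _ =>
      (h.toSF0.sub_slots {r0, s0} (D.z r0 j)).add v r hr x y
  smul v r hr c x := by
    simp only [contr]
    rw [Finset.mul_sum]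
    exact Finset.sum_congr rfl fun j _ =>
      (h.toSF0.sub_slots {r0, s0} (D.z r0 j)).smul v r hr c x
  lab r hr v := Finset.sum_congr rfl fun j _ =>
    (h.toSF0.sub_slots {r0, s0} (D.z r0 j)).lab r hr v
  alt r hr s hs hrs hq v := by
    simp only [contr]
    rw [← Finset.sum_neg_distrib]
    exact Finset.sum_congr rfl fun j _ =>
      (h.toSF0.sub_slots {r0, s0} (D.z r0 j)).alt r hr s hs hrs hq v
  inv X hX v := by
    have hST : ({r0, s0} : Finset R) ⊆ T := by
      intro t ht
      rw [Finset.mem_insert, Finset.mem_singleton] at ht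
      rcases ht with rfl | rfl
      · exact hr0
      · exact hs0
    have h0 := h.toSF0
    -- the bilinear function of the two slots
    obtain ⟨G, hG⟩ : ∃ G : W → W → ℂ, ∀ x y, G x y =
        Φ (Function.update (Function.update v r0 x) s0 y) := ⟨_, fun _ _ => rfl⟩
    have hcomm : ∀ x y, Function.update (Function.update v r0 x) s0 y =
        Function.update (Function.update v s0 y) r0 x := fun x y =>
      (Function.update_comm hne x y v)
    have hG1 : ∀ x y, G x y = ∑ i, D.ω x (D.c i) * G (D.b i) y := by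
      intro x y
      have e1 := h0.lab r0 hr0 (Function.update (Function.update v s0 y) r0 x)
      rw [Function.update_self, Function.update_idem, q1, D.hb,
        h0.sum _ r0 hr0] at e1
      rw [hG, hcomm, ← e1]
      exact Finset.sum_congr rfl fun i _ => by rw [hG, hcomm]
    have hG2 : ∀ x y, G x y = ∑ i, D.ω (D.b i) y * G x (D.c i) := by
      intro x y
      have e1 := h0.lab s0 hs0 (Function.update (Function.update v r0 x) s0 y)
      rw [Function.update_self, Function.update_idem, q2, D.hc,
        h0.sum _ s0 hs0] at e1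
      rw [hG, ← e1]
      exact Finset.sum_congr rfl fun i _ => by rw [hG]
    have hkey : ∑ j, (G (X.1 (D.b j)) (D.c j) + G (D.b j) (X.1 (D.c j))) =
        X.2 * ∑ j, G (D.b j) (D.c j) := by
      rw [Finset.sum_add_distrib]
      have e1 : ∑ j, G (X.1 (D.b j)) (D.c j) =
          ∑ i, ∑ j, D.ω (X.1 (D.b j)) (D.c i) * G (D.b i) (D.c j) := by
        rw [Finset.sum_comm]
        exact Finset.sum_congr rfl fun j _ => hG1 _ _
      have e2 : ∑ j, G (D.b j) (X.1 (D.c j)) =
          ∑ i, ∑ j, D.ω (D.b j) (X.1 (D.c i)) * G (D.b i) (D.c j) :=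
        Finset.sum_congr rfl fun i _ => hG2 _ _
      have e3 : ∑ j, G (D.b j) (D.c j) =
          ∑ i, ∑ j, D.ω (D.b j) (D.c i) * G (D.b i) (D.c j) := by
        rw [Finset.sum_comm]
        exact Finset.sum_congr rfl fun j _ => hG1 _ _
      rw [e1, e2, e3, ← Finset.sum_add_distrib, Finset.mul_sum]
      refine Finset.sum_congr rfl fun i _ => ?_
      rw [← Finset.sum_add_distrib, Finset.mul_sum]
      refine Finset.sum_congr rfl fun j _ => ?_
      have e4 := D.hω X hX (D.b j) (D.c i)
      linear_combination (G (D.b i) (D.c j)) * e4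
    -- sum of the invariance relations
    have h1 : ∑ j, (2 * ∑ t ∈ T, Φ (Function.update
        (({r0, s0} : Finset R).piecewise (D.z r0 j) v) t
          (X.1 (({r0, s0} : Finset R).piecewise (D.z r0 j) v t)))) =
        ∑ j, T.card * X.2 * Φ (({r0, s0} : Finset R).piecewise (D.z r0 j) v) :=
      Finset.sum_congr rfl fun j _ => h.inv X hX _
    have h2 : ∀ j, ∑ t ∈ T, Φ (Function.update
        (({r0, s0} : Finset R).piecewise (D.z r0 j) v) t
          (X.1 (({r0, s0} : Finset R).piecewise (D.z r0 j) v t))) =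
        ∑ t ∈ T \ {r0, s0}, Φ (({r0, s0} : Finset R).piecewise (D.z r0 j)
          (Function.update v t (X.1 (v t)))) +
        (G (X.1 (D.b j)) (D.c j) + G (D.b j) (X.1 (D.c j))) := by
      intro j
      rw [← Finset.sum_sdiff hST]
      congr 1
      · refine Finset.sum_congr rfl fun t ht => ?_
        rw [Finset.mem_sdiff] at ht
        rw [piecewise_update _ _ v t ht.2, Finset.piecewise_eq_of_notMem _ _ _ ht.2]
      · rw [Finset.sum_insert (by simpa using hne), Finset.sum_singleton, pw_eq D hne,
          Function.update_of_ne hne, Function.update_self, Function.update_self, hG, hG,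
          Function.update_idem, hcomm (D.b j), Function.update_idem, ← hcomm]
    have hcard : ((T \ {r0, s0}).card : ℂ) = T.card - 2 := by
      rw [Finset.card_sdiff_of_subset hST, Nat.cast_sub (Finset.card_le_card hST),
        Finset.card_pair hne]
      norm_num
    rw [Finset.sum_congr rfl fun j _ => by rw [h2 j]] at h1
    simp only [mul_add, Finset.sum_add_distrib] at h1
    simp only [contr]
    rw [Finset.sum_comm, hcard]
    have h3 : ∀ j, Φ (({r0, s0} : Finset R).piecewise (D.z r0 j) v) = G (D.b j) (D.c j) := by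
      intro j
      rw [pw_eq D hne, hG]
    simp only [h3] at h1 ⊢
    rw [← Finset.mul_sum, ← Finset.mul_sum, ← Finset.mul_sum, ← Finset.mul_sum] at h1
    rw [Finset.sum_add_distrib] at hkey
    linear_combination h1 - 2 * hkey

end Pool.Agent.Helper35.GPC
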