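import Pool.Agent.Helper24.PT.UGen
import Pool.Agent.Helper35.GPC.Alt6
import Pool.Agent.Helper35.GPC.SlotC
import Pool.Agent.Helper24.PT.UCore6
import Pool.Agent.Helper8.Lie.P1111
import Pool.Agent.Helper8.Lie.PMixed2

/-!
Slot functions at a real place of rank six.
-/

namespace Pool.Agent.Helper24.T6

open Module NumberField LieAlgebra Pool.Agent.Helper7

attribute [local instance 100] LieRing.ofAssociativeRing

open Pool.Agent.GPC (Emb IsOdd IsOddModule translate)
open Pool.Agent.Helper8 (SF SF0 PS PS.mul symG invF invF_symG SF.toSF0 SF.factor SF.mem_of_factor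
  mem_of_PS Symp ML2 Inv2 ML4 Inv4 exists_linear SF0.sum SF0.eq_zero_of_eq wsq sqw P4 P31_six
  pair_zero Principal exists_principal Dual schur)
open Pool.Agent.Helper35.GPC (PD contr contr_eq contr_SF alt5_zero alt6_cube cube gg cc dual_cc)

set_option linter.unusedSectionVars false

section family

variable {I : Type} [Fintype I] [DecidableEq I] (n : I → ℕ)
  {κ : I → Type} [∀ i, Fintype (κ i)] [∀ i, DecidableEq (κ i)] {ϖ : ℂ}
  (P : ∀ i, PData (κ i) ϖ)
  {K : I → Type} [∀ i, Field (K i)] [∀ i, NumberField (K i)] {r : I → ℕ}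
  (F : ∀ i, UF (P i) (K i) (r i))
  {k : ℕ} (α : MultilinearMap ℂ (fun _ : Fin (2 * k) => HW κ n) ℂ)

/-- the pairing at a real place -/
lemma bf_real {i : I} {m : Fin (n i)} {σ : K i →+* ℂ} (hσ : ComplexEmbedding.conjugate σ = σ)
    (u w : HW κ n) : bf n P F i m m σ u w = bp n P F α i σ σ
      (outS n P F α ⟨i, m, σ⟩ u) (outS n P F α ⟨i, m, σ⟩ w) := by
  rw [bf_apply, bp_apply, hσ]
  have h1 := outS_apply n P F α ⟨i, m, σ⟩ u
  have h2 := outS_apply n P F α ⟨i, m, σ⟩ w
  simp only at h1 h2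
  rw [h1, h2]

/-- dual families at a real place -/
noncomputable def pdR {i : I} {m : Fin (n i)} {σ : K i →+* ℂ}
    (hσ : ComplexEmbedding.conjugate σ = σ) {d : ℕ} {b c : Fin d → Vs n P F α ⟨i, σ⟩}
    (D : Dual (bp n P F α i σ σ) b c) :
    PD (symG n P α) (EE n P F) (⟨i, m, σ⟩ : At n K) d where
  ω := bf n P F i m m σ
  hω := by rw [invF_symG]; exact bf_mem n P F α i m m σ
  b j := inS n P F α ⟨i, m, σ⟩ (b j)
  c j := inS n P F α ⟨i, m, σ⟩ (c j)
  hb w := by
    rw [EE_eq n P F α]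
    conv_lhs => rw [D.d1 (outS n P F α ⟨i, m, σ⟩ w), map_sum]
    refine Finset.sum_congr rfl fun j _ => ?_
    rw [map_smul, bf_real n P F α hσ, out_in]
  hc w := by
    rw [EE_eq n P F α]
    conv_lhs => rw [D.d2 (outS n P F α ⟨i, m, σ⟩ w), map_sum]
    refine Finset.sum_congr rfl fun j _ => ?_
    rw [map_smul, bf_real n P F α hσ, out_in]

variable {R : Type*} [DecidableEq R] {q : R → At n K} {T : Finset R} {Φ : (R → HW κ n) → ℂ}

section fill

variable {a : At n K} {S : Finset R} {d : ℕ} (e : S ≃ Fin d)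

/-- vectors in the slots of a subset -/
noncomputable def fill (x : Fin d → Vs n P F α (pl n a)) (v : R → HW κ n) (t : R) : HW κ n :=
  if h : t ∈ S then inS n P F α a (x (e ⟨t, h⟩)) else v t

lemma fill_mem (x : Fin d → Vs n P F α (pl n a)) (v : R → HW κ n) (j : Fin d) :
    fill n P F α e x v (e.symm j) = inS n P F α a (x j) := by
  rw [fill, dif_pos (e.symm j).2]
  congr 2
  exact e.apply_symm_apply j

lemma fill_of_mem (x : Fin d → Vs n P F α (pl n a)) (v : R → HW κ n) {t : R} (ht : t ∈ S) :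
    fill n P F α e x v t = inS n P F α a (x (e ⟨t, ht⟩)) := dif_pos ht

lemma fill_notMem (x : Fin d → Vs n P F α (pl n a)) (v : R → HW κ n) {t : R} (ht : t ∉ S) :
    fill n P F α e x v t = v t := dif_neg ht

lemma fill_update (x : Fin d → Vs n P F α (pl n a)) (v : R → HW κ n) (j : Fin d)
    (y : Vs n P F α (pl n a)) : fill n P F α e (Function.update x j y) v =
      Function.update (fill n P F α e x v) (e.symm j : R) (inS n P F α a y) := by
  funext t
  by_cases ht : t = (e.symm j : R)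
  · subst ht
    rw [Function.update_self, fill_mem, Function.update_self]
  · rw [Function.update_of_ne ht]
    by_cases hS : t ∈ S
    · rw [fill_of_mem n P F α e _ v hS, fill_of_mem n P F α e _ v hS, Function.update_of_ne]
      intro h
      apply ht
      rw [← h, e.symm_apply_apply]
    · rw [fill_notMem n P F α e _ v hS, fill_notMem n P F α e _ v hS]

/-- the alternating form on the slots of a subset with the same label -/
noncomputable def toAlt (h : SF0 (EE n P F) q T Φ) (hS : S ⊆ T) (hq : ∀ t ∈ S, q t = a)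
    (v : R → HW κ n) : (Vs n P F α (pl n a)) [⋀^Fin d]→ₗ[ℂ] ℂ where
  toFun x := Φ (fill n P F α e x v)
  map_update_add' := by
    intro inst x j y z
    rw [Subsingleton.elim inst (instDecidableEqFin d), fill_update, fill_update, fill_update,
      map_add, h.add _ _ (hS (e.symm j).2)]
  map_update_smul' := by
    intro inst x j c y
    rw [Subsingleton.elim inst (instDecidableEqFin d), fill_update, fill_update,
      map_smul, h.smul _ _ (hS (e.symm j).2), smul_eq_mul]
  map_eq_zero_of_eq' x i j hx hij :=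
    h.eq_zero_of_eq _ (e.symm i) (e.symm j) (hS (e.symm i).2) (hS (e.symm j).2)
      (fun h' => hij (e.symm.injective (Subtype.ext h')))
      ((hq _ (e.symm i).2).trans (hq _ (e.symm j).2).symm) (by
        rw [fill_mem, fill_mem, hx])

lemma toAlt_apply (h : SF0 (EE n P F) q T Φ) (hS : S ⊆ T) (hq : ∀ t ∈ S, q t = a)
    (v : R → HW κ n) (x : Fin d → Vs n P F α (pl n a)) :
    toAlt n P F α e h hS hq v x = Φ (fill n P F α e x v) := rfl

/-- a slot function in terms of the alternating form -/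
lemma eq_toAlt (h : SF0 (EE n P F) q T Φ) (hS : S ⊆ T) (hq : ∀ t ∈ S, q t = a)
    (v : R → HW κ n) :
    Φ v = toAlt n P F α e h hS hq v (fun j => outS n P F α a (v (e.symm j))) := by
  rw [toAlt_apply]
  have h1 : ∀ S' : Finset R, S' ⊆ S → Φ v = Φ (S'.piecewise
      (fill n P F α e (fun j => outS n P F α a (v (e.symm j))) v) v) := by
    intro S'
    induction S' using Finset.induction_on with
    | empty => intro _; rw [Finset.piecewise_empty]
    | insert t S' ht ih =>
      intro hS'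
      rw [Finset.insert_subset_iff] at hS'
      rw [ih hS'.2, ← h.lab t (hS hS'.1)]
      congr 1
      funext t'
      by_cases htt : t' = t
      · subst htt
        rw [Finset.piecewise_eq_of_mem _ _ _ (Finset.mem_insert_self _ _),
          Function.update_self, Finset.piecewise_eq_of_notMem _ _ _ ht,
          fill_of_mem n P F α e _ v hS'.1, e.symm_apply_apply, hq t' hS'.1, EE_eq n P F α]
      · rw [Function.update_of_ne htt]
        by_cases htS : t' ∈ S'
        · rw [Finset.piecewise_eq_of_mem _ _ _ htS,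
            Finset.piecewise_eq_of_mem _ _ _ (Finset.mem_insert_of_mem htS)]
        · rw [Finset.piecewise_eq_of_notMem _ _ _ htS, Finset.piecewise_eq_of_notMem _ _ _
            (by rw [Finset.mem_insert, not_or]; exact ⟨htt, htS⟩)]
  rw [h1 S (Finset.Subset.refl S)]
  congr 1
  funext t
  by_cases ht : t ∈ S
  · rw [Finset.piecewise_eq_of_mem _ _ _ ht]
  · rw [Finset.piecewise_eq_of_notMem _ _ _ ht, fill_notMem n P F α e _ v ht]

end fill

section places

variable {i : I} {m : Fin (n i)} {σ : K i →+* ℂ} (hσ : ComplexEmbedding.conjugate σ = σ)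
  (hri : r i = 6)

include hσ in
/-- two slots at the place -/
theorem core_two (hr : ∀ i, 0 < r i) (hk : IsKilling ℂ (LL n P F α))
    (hirr : LieModule.IsIrreducible ℂ (LL n P F α) (Vs n P F α ⟨i, σ⟩))
    {t1 t2 : R} (h12 : t1 ≠ t2) (h : SF (symG n P α) (EE n P F) q {t1, t2} Φ)
    (q1 : q t1 = ⟨i, m, σ⟩) (q2 : q t2 = ⟨i, m, σ⟩) : Φ ∈ PS (invB n P α) {t1, t2} := by
  have hfd : FiniteDimensional ℂ (Vs n P F α ⟨i, σ⟩) :=
    (bV n P F α ⟨i, σ⟩).finiteDimensional_of_finite
  obtain ⟨c, hc⟩ := schur (bp_symp n P F α hr i σ hσ) (G2_ml n P F α h12 h)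
    (G2_inv n P F α h12 hk h q1 q2)
  have h1 : Φ = c • (fun v : R → HW κ n => bf n P F i m m σ (v t1) (v t2)) := by
    funext v
    rw [G2_eq n P F α h12 h.toSF0 q1 q2 v, Pi.smul_apply, smul_eq_mul, bf_real n P F α hσ]
    exact hc _ _
  rw [h1]
  exact Submodule.smul_mem _ c (PS_pair _ (bf_mem n P F α i m m σ) t1 t2 h12)

section four

variable {t1 t2 t3 t4 : R}
  (h12 : t1 ≠ t2) (h13 : t1 ≠ t3) (h14 : t1 ≠ t4) (h23 : t2 ≠ t3) (h24 : t2 ≠ t4) (h34 : t3 ≠ t4)

include h12 h13 h14 h23 h24 h34 hσ hri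

/-- four slots at the place -/
theorem core_four (hr : ∀ i, 0 < r i) (hk : IsKilling ℂ (LL n P F α))
    (hirr : LieModule.IsIrreducible ℂ (LL n P F α) (Vs n P F α ⟨i, σ⟩))
    (p : Principal (LL n P F α))
    (h : SF (symG n P α) (EE n P F) q {t1, t2, t3, t4} Φ)
    (q1 : q t1 = ⟨i, m, σ⟩) (q2 : q t2 = ⟨i, m, σ⟩) (q3 : q t3 = ⟨i, m, σ⟩)
    (q4 : q t4 = ⟨i, m, σ⟩) : Φ ∈ PS (invB n P α) {t1, t2, t3, t4} := by
  have hfd : FiniteDimensional ℂ (Vs n P F α ⟨i, σ⟩) :=
    (bV n P F α ⟨i, σ⟩).finiteDimensional_of_finite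
  obtain ⟨c, hc⟩ := P4 p (bp_symp n P F α hr i σ hσ)
    (Or.inr (Or.inr (Or.inl ((finrank_Vs n P F α ⟨i, σ⟩).trans hri))))
    (G4_ml n P F α h12 h13 h14 h23 h24 h34 h)
    (G4_inv n P F α h12 h13 h14 h23 h24 h34 hk h q1 q2 q3 q4)
    (fun x y z w => swap_slot n P F h.toSF0 (by simp) (by simp) h12 (q1.trans q2.symm) _ _
      (by rw [W4_1, W4_2 n P F α h12]) (by rw [W4_1, W4_2 n P F α h12])
      (fun t e1 e2 => by simp only [W4, if_neg e1, if_neg e2]))
    (fun x y z w => swap_slot n P F h.toSF0 (by simp) (by simp) h23 (q2.trans q3.symm) _ _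
      (by rw [W4_2 n P F α h12, W4_3 n P F α h13 h23])
      (by rw [W4_2 n P F α h12, W4_3 n P F α h13 h23])
      (fun t e1 e2 => by simp only [W4, if_neg e1, if_neg e2]))
    (fun x y z w => swap_slot n P F h.toSF0 (by simp) (by simp) h34 (q3.trans q4.symm) _ _
      (by rw [W4_3 n P F α h13 h23, W4_4 n P F α h14 h24 h34])
      (by rw [W4_3 n P F α h13 h23, W4_4 n P F α h14 h24 h34])
      (fun t e1 e2 => by simp only [W4, if_neg e1, if_neg e2]))
  have h1 : Φ = c • ((fun v : R → HW κ n => bf n P F i m m σ (v t1) (v t2) *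
      bf n P F i m m σ (v t3) (v t4)) - (fun v : R → HW κ n => bf n P F i m m σ (v t1) (v t3) *
      bf n P F i m m σ (v t2) (v t4)) + (fun v : R → HW κ n => bf n P F i m m σ (v t1) (v t4) *
      bf n P F i m m σ (v t2) (v t3))) := by
    funext v
    rw [G4_eq n P F α h12 h13 h14 h23 h24 h34 h.toSF0 q1 q2 q3 q4 v, Pi.smul_apply,
      Pi.add_apply, Pi.sub_apply, smul_eq_mul]
    simp only [bf_real n P F α hσ]
    exact hc _ _ _ _
  rw [h1]
  have s1 : ({t1, t3, t2, t4} : Finset R) = {t1, t2, t3, t4} := by ext t; simp; tauto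
  have s2 : ({t1, t4, t2, t3} : Finset R) = {t1, t2, t3, t4} := by ext t; simp; tauto
  have hm := bf_mem n P F α i m m σ
  refine Submodule.smul_mem _ c (Submodule.add_mem _ (Submodule.sub_mem _ ?_ ?_) ?_)
  · exact PS_four n P α h12 h13 h14 h23 h24 h34 _ _ hm hm
  · rw [← s1]
    exact PS_four n P α h13 h12 h14 h23.symm h34 h24 _ _ hm hm
  · rw [← s2]
    exact PS_four n P α h14 h12 h13 h24.symm h34.symm h23 _ _ hm hm

end four

section mixed

variable {i' : I} {m' : Fin (n i')} {σ' : K i' →+* ℂ}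
  (hσ' : ComplexEmbedding.conjugate σ' = σ') (hri' : r i' = 2)

include hri hri' hσ

/-- one slot at the place and one slot at a plane -/
theorem core_one_plane (hr : ∀ i, 0 < r i) (hk : IsKilling ℂ (LL n P F α))
    (hirr : ∀ s, LieModule.IsIrreducible ℂ (LL n P F α) (Vs n P F α s))
    {t1 t2 : R} (h12 : t1 ≠ t2) (h : SF (symG n P α) (EE n P F) q {t1, t2} Φ)
    (q1 : q t1 = ⟨i, m, σ⟩) (q2 : q t2 = ⟨i', m', σ'⟩) (v : R → HW κ n) : Φ v = 0 := by
  have hfd : FiniteDimensional ℂ (Vs n P F α ⟨i, σ⟩) :=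
    (bV n P F α ⟨i, σ⟩).finiteDimensional_of_finite
  have hfd' : FiniteDimensional ℂ (Vs n P F α ⟨i', σ'⟩) :=
    (bV n P F α ⟨i', σ'⟩).finiteDimensional_of_finite
  have h1 := hirr ⟨i, σ⟩
  have h2 := hirr ⟨i', σ'⟩
  rw [G2_eq n P F α h12 h.toSF0 q1 q2 v]
  refine pair_zero (L := LL n P F α) (bp_symp n P F α hr i σ hσ) ?_ (G2_ml n P F α h12 h)
    (G2_inv n P F α h12 hk h q1 q2) _ _
  rw [finrank_Vs, finrank_Vs]
  show r i' < r i
  rw [hri, hri']; norm_num

include hσ' in
/-- three slots at the place and one slot at a plane -/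
theorem core_three_plane (hr : ∀ i, 0 < r i) (hk : IsKilling ℂ (LL n P F α))
    (hirr : ∀ s, LieModule.IsIrreducible ℂ (LL n P F α) (Vs n P F α s))
    (p : Principal (LL n P F α)) {t1 t2 t3 t4 : R}
    (h12 : t1 ≠ t2) (h13 : t1 ≠ t3) (h14 : t1 ≠ t4) (h23 : t2 ≠ t3) (h24 : t2 ≠ t4)
    (h34 : t3 ≠ t4)
    (h : SF (symG n P α) (EE n P F) q {t1, t2, t3, t4} Φ)
    (q1 : q t1 = ⟨i, m, σ⟩) (q2 : q t2 = ⟨i, m, σ⟩) (q3 : q t3 = ⟨i, m, σ⟩)
    (q4 : q t4 = ⟨i', m', σ'⟩) (v : R → HW κ n) : Φ v = 0 := by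
  have hfd : FiniteDimensional ℂ (Vs n P F α ⟨i, σ⟩) :=
    (bV n P F α ⟨i, σ⟩).finiteDimensional_of_finite
  have hfd' : FiniteDimensional ℂ (Vs n P F α ⟨i', σ'⟩) :=
    (bV n P F α ⟨i', σ'⟩).finiteDimensional_of_finite
  have h1 := hirr ⟨i, σ⟩
  have h2 := hirr ⟨i', σ'⟩
  rw [G4_eq n P F α h12 h13 h14 h23 h24 h34 h.toSF0 q1 q2 q3 q4 v]
  exact P31_six p (bp_symp n P F α hr i σ hσ) (bp_symp n P F α hr i' σ' hσ')
    ((finrank_Vs n P F α ⟨i, σ⟩).trans hri) ((finrank_Vs n P F α ⟨i', σ'⟩).trans hri')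
    (G4_ml n P F α h12 h13 h14 h23 h24 h34 h)
    (G4_inv n P F α h12 h13 h14 h23 h24 h34 hk h q1 q2 q3 q4)
    (fun x y z w => swap_slot n P F h.toSF0 (by simp) (by simp) h12 (q1.trans q2.symm) _ _
      (by rw [W4_1, W4_2 n P F α h12]) (by rw [W4_1, W4_2 n P F α h12])
      (fun t e1 e2 => by simp only [W4, if_neg e1, if_neg e2]))
    (fun x y z w => swap_slot n P F h.toSF0 (by simp) (by simp) h23 (q2.trans q3.symm) _ _
      (by rw [W4_2 n P F α h12, W4_3 n P F α h13 h23])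
      (by rw [W4_2 n P F α h12, W4_3 n P F α h13 h23])
      (fun t e1 e2 => by simp only [W4, if_neg e1, if_neg e2])) _ _ _ _

end mixed

end places

end family

end Pool.Agent.Helper24.T6
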