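import Pool.Agent.Helper7.RealTypes
import Pool.Agent.Helper24.PT.PTypes

/-!
Abelian threefolds without extra endomorphisms.
-/

namespace Pool.Agent.GPC

/-- `A` is an abelian threefold with endomorphism algebra `ℚ` (the field `K` is of degree one over
`ℚ`, acts on the homology by scalars and is the centraliser of `K`, that is, the whole
endomorphism algebra). -/
def IsGenericThreefold (A : AbVar) (K : Type) [Field K] [NumberField K] : Prop :=
  IsRealType A K ∧ Module.finrank ℚ K = 1 ∧ A.g = 3

end Pool.Agent.GPC
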