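import Pool.Agent.Helper35.GPC.GalU
import Pool.Agent.Helper35.GPC.PlaneIdeal
import Pool.Agent.Helper35.GPC.FreePlane
import Pool.Agent.Helper84.AutC

/-!
Planes belonging to a totally real field of degree at least two are not linked with a place of
rank three or six.
-/

namespace Pool.Agent.Helper35.GPC

open Module NumberField LieAlgebra Pool.Agent.Helper7

attribute [local instance 100] LieRing.ofAssociativeRing

open Pool.Agent.GPC (Emb IsOdd IsOddModule translate)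
open Pool.Agent.Helper8 (ML2 Inv2)
open Pool.Agent.Helper24

set_option linter.unusedSectionVars false

section family

variable {I : Type} [Fintype I] [DecidableEq I] (n : I → ℕ)
  {κ : I → Type} [∀ i, Fintype (κ i)] [∀ i, DecidableEq (κ i)] {ϖ : ℂ}
  (P : ∀ i, PData (κ i) ϖ)
  {K : I → Type} [∀ i, Field (K i)] [∀ i, NumberField (K i)] {r : I → ℕ}
  (F : ∀ i, UF (P i) (K i) (r i))
  {k : ℕ} (α : MultilinearMap ℂ (fun _ : Fin (2 * k) => HW κ n) ℂ)

/-- at a place of rank one the action is trivial -/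
lemma act_rank_one (hr : ∀ i, 0 < r i) (t : Emb K) (ht : r t.1 = 1) (a : LL n P F α)
    (v : Vs n P F α t) : ⁅a, v⁆ = 0 := by
  obtain ⟨i, σ⟩ := t
  simp only at ht
  refine (mx_zero_iff n P F α i σ a).mp ?_ v
  have h1 := trace_Vs n P F α ⟨i, σ⟩ (hr i) a
  rw [LinearMap.trace_eq_matrix_trace ℂ (bV n P F α ⟨i, σ⟩)] at h1
  have h2 : (mx n P F α i σ a).trace = 0 := h1
  have : ∀ (d : ℕ) (_ : d = 1) (M : Matrix (Fin d) (Fin d) ℂ), M.trace = 0 → M = 0 := by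
    rintro d rfl M hM
    rw [Matrix.trace_fin_one] at hM
    ext x y
    have hx : x = 0 := Subsingleton.elim _ _
    have hy : y = 0 := Subsingleton.elim _ _
    rw [hx, hy, hM]; rfl
  exact this _ ht _ h2

/-- scalar squares in terms of matrices -/
lemma mx_sq_iff (i : I) (σ : K i →+* ℂ) (a : LL n P F α) (c : ℂ) :
    mx n P F α i σ a * mx n P F α i σ a = c • 1 ↔
      ∀ w : Vs n P F α ⟨i, σ⟩, ⁅a, ⁅a, w⁆⁆ = c • w := by
  have h1 : mx n P F α i σ a * mx n P F α i σ a =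
      LinearMap.toMatrix (bV n P F α ⟨i, σ⟩) (bV n P F α ⟨i, σ⟩)
        (LieModule.toEnd ℂ (LL n P F α) (Vs n P F α ⟨i, σ⟩) a *
          LieModule.toEnd ℂ (LL n P F α) (Vs n P F α ⟨i, σ⟩) a) := by
    rw [LinearMap.toMatrix_mul]; rfl
  have h2 : (c • 1 : Matrix (Fin (r i)) (Fin (r i)) ℂ) =
      LinearMap.toMatrix (bV n P F α ⟨i, σ⟩) (bV n P F α ⟨i, σ⟩) (c • 1) := by
    rw [map_smul, LinearMap.toMatrix_one]
  rw [h1, h2]
  constructor
  · intro h w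
    have h3 := (LinearMap.toMatrix (bV n P F α ⟨i, σ⟩) (bV n P F α ⟨i, σ⟩)).injective h
    have h4 := LinearMap.congr_fun h3 w
    simpa only [Module.End.mul_apply, LieModule.toEnd_apply_apply, LinearMap.smul_apply,
      Module.End.one_apply] using h4
  · intro h
    congr 1
    ext w
    simp only [Module.End.mul_apply, LieModule.toEnd_apply_apply, LinearMap.smul_apply,
      Module.End.one_apply]
    rw [h w]

section plane

variable {n P F α}
variable {i : I} {σ : K i →+* ℂ} {hri : r i = 2} {J : LieIdeal ℂ (LL n P F α)}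
  {h e f : LL n P F α}

/-- the elements of the ideal of a plane -/
lemma _root_.Pool.Agent.Helper35.GPC.PIdeal.mem_iff [IsKilling ℂ (LL n P F α)]
    (D : PIdeal (Vs n P F α ⟨i, σ⟩) (b2 n P F α ⟨i, σ⟩ hri) J h e f) (a : LL n P F α) :
    a ∈ J ↔ Cen n P F α i σ a := by
  constructor
  · intro ha b hb
    exact D.cen a ha b ((mx_zero_iff n P F α i σ b).mp hb)
  · intro ha
    exact D.mem a fun z hz => ha z ((mx_zero_iff n P F α i σ z).mpr hz)

end plane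

/-- an element which acts trivially at a place acts trivially at the conjugate place -/
lemma mx_conj (hr : ∀ i, 0 < r i) (i : I) (ρ : K i →+* ℂ) (a : LL n P F α)
    (h : mx n P F α i ρ a = 0) : mx n P F α i (ComplexEmbedding.conjugate ρ) a = 0 := by
  rw [mx_zero_iff] at h ⊢
  intro y
  refine bp_ndr n P F α i ρ _ rfl _ fun x => ?_
  have h1 := bp_inv n P F α hr i ρ a x y
  rw [h x, map_zero, LinearMap.zero_apply, zero_add] at h1
  exact h1

/-- elements acting on one of two planes which are not linked -/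
lemma exists_sep (hr : ∀ i, 0 < r i)
    (hirr : ∀ s, LieModule.IsIrreducible ℂ (LL n P F α) (Vs n P F α s))
    (s t : {t : Emb K // r t.1 = 2}) (hreal : ComplexEmbedding.conjugate s.1.2 = s.1.2)
    (hlink : ∀ f : Vs n P F α s.1 → Vs n P F α t.1 → ℂ, ML2 f → Inv2 (LL n P F α) f →
      ∀ x y, f x y = 0) :
    ∃ X : LL n P F α, mt (b2 n P F α s.1 s.2) X = mH ∧ ∀ w : Vs n P F α t.1, ⁅X, w⁆ = 0 := by
  classical
  have hG := goursat_finset (fun x y : LL n P F α => ⁅x, y⁆)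
    (fun t : {t : Emb K // r t.1 = 2} => mt (L := LL n P F α) (b2 n P F α t.1 t.2)) 0
    (fun t X Y => mt_br (b2 n P F α t.1 t.2) X Y) (fun t X => by
      rw [mt_apply, ← LinearMap.trace_eq_matrix_trace, trace_Vs n P F α t.1 (hr _),
        LinearMap.zero_apply])
    (fun t Z hZ => by
      have := hirr t.1
      exact mt_surj (b2 n P F α t.1 t.2) Z hZ) s {t} (fun t' ht' => by
        rw [Finset.mem_singleton] at ht'
        subst ht'
        exact not_conjRep (V := fun t : {t : Emb K // r t.1 = 2} => Vs n P F α t.1)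
          (fun t => b2 n P F α t.1 t.2) s t' (bp_symp n P F α hr s.1.1 s.1.2 hreal) hlink)
  obtain ⟨X, hX, hX'⟩ := hG mH tr_mH
  refine ⟨X, hX, fun w => ?_⟩
  rw [← mt_toLin (b2 n P F α t.1 t.2), hX' t (Finset.mem_singleton_self t), map_zero,
    LinearMap.zero_apply]

variable (hϖ : ϖ ≠ 0)
  (hB : ∀ v : Fin (2 * k) → HW κ n, (∀ r, IsRatP n P (v r)) → ∃ q : ℚ, α v = ϖ ^ k * q)

include hϖ hB in
/-- planes of a field of degree at least two are not linked with the special place -/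
theorem unlinked (hr : ∀ i, 0 < r i) (hk : IsKilling ℂ (LL n P F α))
    (hirr : ∀ s, LieModule.IsIrreducible ℂ (LL n P F α) (Vs n P F α s)) {p i : I}
    (hri : r i = 2) (hreal : ∀ σ : K i →+* ℂ, ComplexEmbedding.conjugate σ = σ)
    (hlink : ∀ σ σ' : K i →+* ℂ, σ ≠ σ' → ∀ f : Vs n P F α ⟨i, σ⟩ → Vs n P F α ⟨i, σ'⟩ → ℂ,
      ML2 f → Inv2 (LL n P F α) f → ∀ x y, f x y = 0)
    (hdeg : ∀ σ : K i →+* ℂ, ∃ σ' : K i →+* ℂ, σ' ≠ σ)
    (hp : (r p = 3 ∧ ∀ ρ ρ' : K p →+* ℂ, ρ' = ρ ∨ ρ' = ComplexEmbedding.conjugate ρ) ∨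
      (r p = 6 ∧ ∀ ρ ρ' : K p →+* ℂ, ρ' = ρ))
    (σ : K i →+* ℂ) (ρ : K p →+* ℂ) (a : LL n P F α) (ha : Cen n P F α i σ a) :
    mx n P F α p ρ a = 0 := by
  classical
  by_contra hne
  obtain ⟨σ', hσ'⟩ := hdeg σ
  obtain ⟨τ, hτ⟩ := Pool.Agent.Helper84.exists_aut σ σ'
  have := hirr
  have hfd : ∀ s, FiniteDimensional ℂ (Vs n P F α s) := fun s =>
    (bV n P F α s).finiteDimensional_of_finite
  -- the ideals
  obtain ⟨J, h, e, f, D⟩ := exists_pideal (L := LL n P F α) (b2 n P F α ⟨i, σ⟩ hri)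
    (fun a => trace_Vs n P F α ⟨i, σ⟩ (hr i) a)
  obtain ⟨J', h', e', f', D'⟩ := exists_pideal (L := LL n P F α) (b2 n P F α ⟨i, σ'⟩ hri)
    (fun a => trace_Vs n P F α ⟨i, σ'⟩ (hr i) a)
  have hd : Disjoint J J' := by
    rw [disjoint_iff, LieSubmodule.eq_bot_iff]
    intro x hx
    obtain ⟨hx1, hx2⟩ := (LieSubmodule.mem_inf _ _ x).mp hx
    refine D.inj x hx1 ?_
    exact D'.trivial_of (Vs n P F α ⟨i, σ⟩) (exists_sep n P F α hr hirr ⟨⟨i, σ'⟩, hri⟩
      ⟨⟨i, σ⟩, hri⟩ (hreal σ') (hlink σ' σ hσ')) x hx2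
  -- the second ideal acts non-trivially
  obtain ⟨a', ha', hne'⟩ := act_galois n P F α hϖ hB τ i p σ ρ ⟨a, ha, hne⟩
  rw [hτ] at ha'
  have key : mx n P F α p ρ a' ≠ 0 := by
    rcases hp with ⟨-, hp⟩ | ⟨-, hp⟩
    · rcases hp ρ ((τ : ℂ →+* ℂ).comp ρ) with h1 | h1
      · rwa [h1] at hne'
      · rw [h1] at hne'
        exact fun h2 => hne' (mx_conj n P F α hr p ρ a' h2)
    · rwa [hp ρ ((τ : ℂ →+* ℂ).comp ρ)] at hne'
  have hJ : ∃ x ∈ J, ∃ w : Vs n P F α ⟨p, ρ⟩, ⁅x, w⁆ ≠ 0 := by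
    refine ⟨a, (D.mem_iff a).mpr ha, ?_⟩
    by_contra hcon
    push Not at hcon
    exact hne ((mx_zero_iff n P F α p ρ a).mpr hcon)
  have hJ' : ∃ x ∈ J', ∃ w : Vs n P F α ⟨p, ρ⟩, ⁅x, w⁆ ≠ 0 := by
    refine ⟨a', (D'.mem_iff a').mpr ha', ?_⟩
    by_contra hcon
    push Not at hcon
    exact key ((mx_zero_iff n P F α p ρ a').mpr hcon)
  have hfr := finrank_Vs n P F α ⟨p, ρ⟩
  have htr := fun a => trace_Vs n P F α ⟨p, ρ⟩ (hr p) a
  rcases hp with ⟨h3, -⟩ | ⟨h6, hp⟩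
  · exact three_absurd D D' hd (Vs n P F α ⟨p, ρ⟩) hJ hJ' (hfr.trans h3) htr
  · have sqs : ∀ (τ : ℂ ≃+* ℂ) (σ σ' : K i →+* ℂ) (_ : (τ : ℂ →+* ℂ).comp σ = σ')
        (J J' : LieIdeal ℂ (LL n P F α)) (_ : ∀ a, a ∈ J ↔ Cen n P F α i σ a)
        (_ : ∀ a, a ∈ J' ↔ Cen n P F α i σ' a), SqS J (Vs n P F α ⟨p, ρ⟩) →
        SqS J' (Vs n P F α ⟨p, ρ⟩) := by
      intro τ σ σ' hτ J J' hJ hJ' hs x hx
      have h1 := sq_galois n P F α hϖ hB τ i p σ ρ (fun a ha => by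
        obtain ⟨c, hc⟩ := hs a ((hJ a).mpr ha)
        exact ⟨c, (mx_sq_iff n P F α p ρ a c).mpr hc⟩) x (by
          rw [hτ]
          exact (hJ' x).mp hx)
      rw [hp ρ ((τ : ℂ →+* ℂ).comp ρ)] at h1
      obtain ⟨c, hc⟩ := h1
      exact ⟨c, (mx_sq_iff n P F α p ρ x c).mp hc⟩
    have s1 := sqs τ σ σ' hτ J J' D.mem_iff D'.mem_iff
    have s2 := sqs τ.symm σ' σ (by rw [← hτ]; exact symm_comp_comp τ σ) J' J D'.mem_iff D.mem_iff
    rcases six_cases D D' hd (Vs n P F α ⟨p, ρ⟩) hJ hJ' (hfr.trans h6) htr with ⟨c1, c2⟩ | ⟨c1, c2⟩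
    · exact c2 (s1 c1)
    · exact c1 (s2 c2)

/-- a plane which is not linked with the special place is free -/
theorem free_of_unlinked (hr : ∀ i, 0 < r i) (hk : IsKilling ℂ (LL n P F α))
    (hirr : ∀ s, LieModule.IsIrreducible ℂ (LL n P F α) (Vs n P F α s)) {p i : I}
    (hri : r i = 2) (σ : K i →+* ℂ) (hreal : ComplexEmbedding.conjugate σ = σ)
    (htyp : ∀ j, j ≠ p → r j = 1 ∨ r j = 2)
    (hlink : ∀ t : Emb K, r t.1 = 2 → t ≠ ⟨i, σ⟩ →
      ∀ f : Vs n P F α ⟨i, σ⟩ → Vs n P F α t → ℂ, ML2 f → Inv2 (LL n P F α) f →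
        ∀ x y, f x y = 0)
    (hun : ∀ (ρ : K p →+* ℂ) (a : LL n P F α), Cen n P F α i σ a → mx n P F α p ρ a = 0) :
    FreeAt n P F α ⟨i, σ⟩ hri := by
  classical
  have := hirr
  obtain ⟨J, h, e, f, D⟩ := exists_pideal (L := LL n P F α) (b2 n P F α ⟨i, σ⟩ hri)
    (fun a => trace_Vs n P F α ⟨i, σ⟩ (hr i) a)
  intro Z hZ
  obtain ⟨x, hx, hxZ⟩ := D.surj Z hZ
  refine ⟨x, hxZ, fun t ht v => ?_⟩
  have hcase : r t.1 = 1 ∨ r t.1 = 2 ∨ t.1 = p := by
    by_cases hp : t.1 = p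
    · exact Or.inr (Or.inr hp)
    · rcases htyp t.1 hp with h1 | h1
      · exact Or.inl h1
      · exact Or.inr (Or.inl h1)
  rcases hcase with h1 | h1 | h1
  · exact act_rank_one n P F α hr t h1 x v
  · exact D.trivial_of (Vs n P F α t) (exists_sep n P F α hr hirr ⟨⟨i, σ⟩, hri⟩
      ⟨t, h1⟩ hreal (hlink t h1 ht)) x hx v
  · obtain ⟨j, ρ⟩ := t
    simp only at h1
    subst h1
    exact (mx_zero_iff n P F α j ρ x).mp (hun ρ x ((D.mem_iff x).mp hx)) v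

end family

end Pool.Agent.Helper35.GPC
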